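import Mathlib

/-!
# Graded systems of primitives are linearly independent

An abstract form of the theorem of Kolchin and Ostrowski (the proof is adapted from `Pool.Agent.Y119.UP.indep` of helper119).
-/

set_option autoImplicit false

open Finset

namespace Pool.Agent.Y900.CJ

theorem indepN {R F B Λ : Type*} [Field R] [Field F] [Algebra R F] [Fintype Λ] [DecidableEq B]
    (D : Derivation R F F) (K : Subfield F) (hDK : ∀ x ∈ K, D x ∈ K) (hRK : ∀ r : R, algebraMap R F r ∈ K)
    (hconst : ∀ x : F, D x = 0 → ∃ r : R, algebraMap R F r = x)
    (u : Λ → F) (hu : ∀ l, u l ∈ K)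
    (hprim : ∀ (c : Λ → F) (g : F), (∀ l, D (c l) = 0) → g ∈ K → D g = ∑ l, c l * u l → ∀ l, c l = 0)
    (wt : B → ℕ) (S : ℕ → Finset B) (hS : ∀ n e, e ∈ S n ↔ wt e ≤ n) (e₀ : B) (h0 : ∀ e, wt e = 0 → e = e₀)
    (N : Λ → B → B → R) (hN : ∀ l e e', N l e e' ≠ 0 → wt e = wt e' + 1)
    (Y : B → F) (hY0 : Y e₀ = 1)
    (hY : ∀ n e, wt e ≤ n → D (Y e) = ∑ l, u l * ∑ e' ∈ S n, algebraMap R F (N l e e') * Y e')
    (hker : ∀ (n : ℕ) (c : B → R), (∀ e, wt e ≠ n + 1 → c e = 0) →
      (∀ l e', ∑ e ∈ S (n + 1), c e * N l e e' = 0) → ∀ e, c e = 0) (n : ℕ) :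
    ∀ g : B → F, (∀ e, g e ∈ K) → ∑ e ∈ S n, g e * Y e = 0 → ∀ e ∈ S n, g e = 0 := by
  classical
  induction n with
  | zero =>
    intro g _ hg e he
    have h1 : ∀ e' ∈ S 0, e' = e₀ := fun e' he' => h0 e' (Nat.le_zero.1 ((hS 0 e').1 he'))
    have h2 : S 0 = {e₀} := by
      refine Finset.eq_singleton_iff_unique_mem.2 ⟨?_, h1⟩
      rw [← h1 e he]
      exact he
    rw [h2, sum_singleton, hY0, mul_one] at hg
    rw [h1 e he]
    exact hg
  | succ n ih =>
    have key : ∀ k : ℕ, ∀ g : B → F, (∀ w, g w ∈ K) →
        (∀ w, n + 1 < wt w → g w = 0) →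
        ((S (n + 1)).filter fun w => wt w = n + 1 ∧ g w ≠ 0).card ≤ k →
        ∑ w ∈ S (n + 1), g w * Y w = 0 → ∀ w, wt w = n + 1 → g w = 0 := by
      intro k
      induction k with
      | zero =>
        intro g _ _ hc _ w hw
        by_contra hne
        have h1 : w ∈ (S (n + 1)).filter fun w => wt w = n + 1 ∧ g w ≠ 0 := by
          rw [mem_filter, hS]
          exact ⟨hw.le, hw, hne⟩
        rw [card_eq_zero.1 (Nat.le_zero.1 hc)] at h1
        exact absurd h1 (notMem_empty _)
      | succ k ihk =>
        intro g hg hgl hc hg0 w₀ hw₀
        by_contra hne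
        set g' : B → F := fun w => (g w₀)⁻¹ * g w with hg'
        have hg'K : ∀ w, g' w ∈ K := fun w => mul_mem (inv_mem (hg w₀)) (hg w)
        have hg'l : ∀ w, n + 1 < wt w → g' w = 0 := fun w hw => by
          simp only [hg', hgl w hw, mul_zero]
        have hg'1 : g' w₀ = 1 := inv_mul_cancel₀ hne
        have hg'0 : ∑ w ∈ S (n + 1), g' w * Y w = 0 := by
          have : ∑ w ∈ S (n + 1), g' w * Y w = (g w₀)⁻¹ * ∑ w ∈ S (n + 1), g w * Y w := by
            rw [mul_sum]
            exact sum_congr rfl fun w _ => by simp only [hg']; ring
          rw [this, hg0, mul_zero]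
        set q : Λ → B → F := fun l v => ∑ e ∈ S (n + 1), g' e * algebraMap R F (N l e v) with hq
        set δ : B → F := fun v => D (g' v) + ∑ l, q l v * u l with hδ
        have hqK : ∀ l v, q l v ∈ K := fun l v => sum_mem fun e _ => mul_mem (hg'K _) (hRK _)
        have hδK : ∀ w, δ w ∈ K := fun w =>
          add_mem (hDK _ (hg'K w)) (sum_mem fun l _ => mul_mem (hqK _ _) (hu l))
        have hqs : ∀ l w, n + 1 ≤ wt w → q l w = 0 := by
          intro l w hw
          refine sum_eq_zero fun e he => ?_
          have h1 : N l e w = 0 := by
            by_contra hcon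
            have := hN l e w hcon
            have := (hS _ _).1 he
            omega
          rw [h1, map_zero, mul_zero]
        have hδl : ∀ w, n + 1 < wt w → δ w = 0 := by
          intro w hw
          simp only [hδ]
          rw [hg'l w hw, map_zero, zero_add, sum_eq_zero fun l _ => by rw [hqs l w hw.le, zero_mul]]
        have htop : ∀ w, wt w = n + 1 → δ w = D (g' w) := by
          intro w hw
          simp only [hδ]
          rw [sum_eq_zero fun l _ => by rw [hqs l w hw.ge, zero_mul], add_zero]
        have hδ0 : ∑ w ∈ S (n + 1), δ w * Y w = 0 := by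
          have h1 : D (∑ w ∈ S (n + 1), g' w * Y w) = 0 := by rw [hg'0, map_zero]
          rw [map_sum] at h1
          have h2 : ∀ w, D (g' w * Y w) = g' w * D (Y w) + D (g' w) * Y w := fun w => by
            rw [Derivation.leibniz, smul_eq_mul, smul_eq_mul, mul_comm (Y w)]
          simp only [h2] at h1
          rw [sum_add_distrib] at h1
          have h3 : ∑ w ∈ S (n + 1), g' w * D (Y w) =
              ∑ w ∈ S (n + 1), (∑ l, q l w * u l) * Y w := by
            have h4 : ∀ w ∈ S (n + 1), g' w * D (Y w) = ∑ l, ∑ e' ∈ S (n + 1),
                (g' w * algebraMap R F (N l w e')) * u l * Y e' := by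
              intro w hw
              rw [hY (n + 1) w ((hS _ _).1 hw), mul_sum]
              refine sum_congr rfl fun l _ => ?_
              rw [mul_sum, mul_sum]
              refine sum_congr rfl fun e' _ => ?_
              ring
            rw [sum_congr rfl h4, sum_comm]
            have h5 : ∀ w ∈ S (n + 1), (∑ l, q l w * u l) * Y w = ∑ l, ∑ e ∈ S (n + 1),
                (g' e * algebraMap R F (N l e w)) * u l * Y w := by
              intro w _
              rw [sum_mul]
              refine sum_congr rfl fun l _ => ?_
              simp only [hq]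
              rw [sum_mul, sum_mul]
            rw [sum_congr rfl h5]
            rw [sum_comm (s := S (n + 1)) (t := univ)]
            refine sum_congr rfl fun l _ => ?_
            rw [sum_comm]
          rw [h3, ← sum_add_distrib] at h1
          rw [← h1]
          exact sum_congr rfl fun w _ => by simp only [hδ]; ring
        have hδc : ((S (n + 1)).filter fun w => wt w = n + 1 ∧ δ w ≠ 0).card ≤ k := by
          have hsub : ((S (n + 1)).filter fun w => wt w = n + 1 ∧ δ w ≠ 0) ⊆
              ((S (n + 1)).filter fun w => wt w = n + 1 ∧ g w ≠ 0).erase w₀ := by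
            intro w hw
            rw [mem_filter] at hw
            obtain ⟨h1, h2, h3⟩ := hw
            rw [htop w h2] at h3
            rw [mem_erase, mem_filter]
            refine ⟨?_, h1, h2, ?_⟩
            · rintro rfl
              rw [hg'1, D.map_one_eq_zero] at h3
              exact h3 rfl
            · intro h4
              simp only [hg', h4, mul_zero, map_zero] at h3
              exact h3 rfl
          have hmem : w₀ ∈ (S (n + 1)).filter fun w => wt w = n + 1 ∧ g w ≠ 0 := by
            rw [mem_filter, hS]
            exact ⟨hw₀.le, hw₀, hne⟩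
          have := card_le_card hsub
          rw [card_erase_of_mem hmem] at this
          omega
        have hδtop := ihk δ hδK hδl hδc hδ0
        have hδn : ∑ w ∈ S n, δ w * Y w = 0 := by
          rw [← hδ0]
          refine sum_subset (fun w hw => ?_) fun w hw hw' => ?_
          · rw [hS] at hw ⊢; omega
          · rw [hS] at hw hw'
            rw [hδtop w (by omega), zero_mul]
        have hδall := ih δ hδK hδn
        have hinj : Function.Injective (algebraMap R F) := (algebraMap R F).injective
        -- the leading coefficients are constants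
        have hc1 : ∀ w, ∃ r : R, wt w = n + 1 → algebraMap R F r = g' w := by
          intro w
          by_cases hw : wt w = n + 1
          · obtain ⟨r, hr⟩ := hconst (g' w) (by rw [← htop w hw]; exact hδtop w hw)
            exact ⟨r, fun _ => hr⟩
          · exact ⟨0, fun h => absurd h hw⟩
        choose r hr using hc1
        have hqr : ∀ l v, wt v = n → q l v =
            algebraMap R F (∑ e ∈ S (n + 1), (if wt e = n + 1 then r e else 0) * N l e v) := by
          intro l v hv
          rw [map_sum]
          refine sum_congr rfl fun e _ => ?_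
          rw [map_mul]
          by_cases he : wt e = n + 1
          · rw [if_pos he, hr e he]
          · have h1 : N l e v = 0 := by
              by_contra hcon
              have := hN l e v hcon
              omega
            rw [h1, map_zero, mul_zero, mul_zero]
        have hq0 : ∀ l v, wt v = n → q l v = 0 := by
          intro l v hv
          have h5 := hδall v ((hS _ _).2 hv.le)
          refine hprim (fun l => q l v) (-g' v) (fun l => ?_) (neg_mem (hg'K _)) ?_ l
          · rw [hqr l v hv, D.map_algebraMap]
          · simp only [hδ] at h5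
            rw [map_neg]
            exact neg_eq_of_add_eq_zero_right h5
        have hfin := hker n (fun e => if wt e = n + 1 then r e else 0) (fun e he => if_neg he) (by
          intro l e'
          by_cases he' : wt e' = n
          · have h6 := hq0 l e' he'
            rw [hqr l e' he'] at h6
            exact (map_eq_zero_iff _ hinj).1 h6
          · refine sum_eq_zero fun e _ => ?_
            by_cases he : wt e = n + 1
            · have h1 : N l e e' = 0 := by
                by_contra hcon
                have := hN l e e' hcon
                omega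
              rw [h1, mul_zero]
            · rw [if_neg he, zero_mul]) w₀
        have hfin' : r w₀ = 0 := by
          have h7 : (if wt w₀ = n + 1 then r w₀ else 0) = 0 := hfin
          rwa [if_pos hw₀] at h7
        have h8 := hr w₀ hw₀
        rw [hfin', map_zero, hg'1] at h8
        exact zero_ne_one h8
    intro g hg hg0 w hw
    set g₁ : B → F := fun w => if wt w ≤ n + 1 then g w else 0 with hg₁
    have hg₁K : ∀ w, g₁ w ∈ K := fun w => by
      simp only [hg₁]; split_ifs; exacts [hg w, zero_mem _]
    have hg₁l : ∀ w, n + 1 < wt w → g₁ w = 0 := fun w hw => if_neg (by omega)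
    have hg₁e : ∀ w ∈ S (n + 1), g₁ w = g w := fun w hw => if_pos ((hS _ _).1 hw)
    have h01 : ∑ w ∈ S (n + 1), g₁ w * Y w = 0 := by
      rw [← hg0]
      exact sum_congr rfl fun w hw => by rw [hg₁e w hw]
    have htop := key _ g₁ hg₁K hg₁l le_rfl h01
    have hn : ∑ w ∈ S n, g₁ w * Y w = 0 := by
      rw [← h01]
      refine sum_subset (fun w hw => ?_) fun w hw hw' => ?_
      · rw [hS] at hw ⊢; omega
      · rw [hS] at hw hw'
        rw [htop w (by omega), zero_mul]
    rw [← hg₁e w hw]
    rw [hS] at hw
    rcases Nat.lt_or_ge n (wt w) with h | h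
    · exact htop w (by omega)
    · exact ih g₁ hg₁K hn w ((hS _ _).2 h)

end Pool.Agent.Y900.CJ
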