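import Pool.Agent.Y119.UP.Alg

/-!
# Linear independence of products of iterated integrals over a differential field

The letters of the different factors are jointly not exact (adapted from `Pool.Agent.Y119.UP.indep` of helper119).
-/

set_option autoImplicit false

open Finset

namespace Pool.Agent.Y900.CJ

open Pool.Agent.Y119.UP (wd mem_wd)

section words

variable {d : ℕ} {κ : Type*}

/-- the total length of a system of words -/
def tl (m : Fin d → List κ) : ℕ := ∑ i, (m i).length

/-- one more letter in front of the word with index `i` -/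
def pre (i : Fin d) (k : κ) (m : Fin d → List κ) : Fin d → List κ := Function.update m i (k :: m i)

theorem tl_update (m : Fin d → List κ) (i : Fin d) (v : List κ) :
    tl (Function.update m i v) + (m i).length = tl m + v.length := by
  classical
  have h1 : tl (Function.update m i v) = ∑ j ∈ univ.erase i, (m j).length + v.length := by
    rw [tl, ← Finset.sum_erase_add univ _ (mem_univ i), Function.update_self]
    congr 1
    refine sum_congr rfl fun j hj => ?_
    rw [Function.update_of_ne (ne_of_mem_erase hj)]
  have h2 : tl m = ∑ j ∈ univ.erase i, (m j).length + (m i).length := by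
    rw [tl, ← Finset.sum_erase_add univ _ (mem_univ i)]
  omega

theorem tl_pre (i : Fin d) (k : κ) (m : Fin d → List κ) : tl (pre i k m) = tl m + 1 := by
  have h1 := tl_update m i (k :: m i)
  rw [List.length_cons] at h1
  unfold pre
  omega

theorem length_le_tl (m : Fin d → List κ) (i : Fin d) : (m i).length ≤ tl m :=
  single_le_sum (f := fun i => (m i).length) (fun _ _ => Nat.zero_le _) (mem_univ i)

theorem pre_self (i : Fin d) (k : κ) (m : Fin d → List κ) : pre i k m i = k :: m i := Function.update_self _ _ _

theorem update_pre (i : Fin d) (k : κ) (m : Fin d → List κ) : Function.update (pre i k m) i (m i) = m := by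
  unfold pre
  rw [Function.update_idem, Function.update_eq_self]

theorem pre_update {i : Fin d} {k : κ} {v : List κ} {m : Fin d → List κ} (h : m i = k :: v) :
    pre i k (Function.update m i v) = m := by
  unfold pre
  rw [Function.update_self, Function.update_idem, ← h, Function.update_eq_self]

theorem pre_inj (i : Fin d) : Function.Injective fun p : (Fin d → List κ) × κ => pre i p.2 p.1 := by
  rintro ⟨m, k⟩ ⟨m', k'⟩ h
  have h0 : pre i k m = pre i k' m' := h
  have h1 : k :: m i = k' :: m' i := by rw [← pre_self, ← pre_self, h0]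
  have h2 : m i = m' i := (List.cons.inj h1).2
  have h3 : m = m' := by
    rw [← update_pre i k m, h0, h2, update_pre]
  rw [h3, (List.cons.inj h1).1]

variable [Fintype κ] [DecidableEq κ]

/-- the systems of words of total length at most `n` -/
def MW (d : ℕ) (κ : Type*) [Fintype κ] [DecidableEq κ] (n : ℕ) : Finset (Fin d → List κ) :=
  (Fintype.piFinset fun _ : Fin d => wd κ n).filter fun m => tl m ≤ n

theorem mem_MW (n : ℕ) (m : Fin d → List κ) : m ∈ MW d κ n ↔ tl m ≤ n := by
  rw [MW, mem_filter, Fintype.mem_piFinset]
  refine ⟨fun h => h.2, fun h => ⟨fun i => ?_, h⟩⟩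
  rw [mem_wd]
  exact (length_le_tl m i).trans h

end words

section

variable {d : ℕ} {κ F : Type*} [Fintype κ] [DecidableEq κ]

/-- the contribution of the word with index `i` to the derivative -/
def dpart [Zero F] [Mul F] (u : Fin d → κ → F) (Y : (Fin d → List κ) → F) (i : Fin d) (m : Fin d → List κ) : F :=
  match m i with
  | [] => 0
  | k :: v => u i k * Y (Function.update m i v)

omit [Fintype κ] [DecidableEq κ] in
theorem dpart_nil [Zero F] [Mul F] (u : Fin d → κ → F) (Y : (Fin d → List κ) → F) {i : Fin d} {m : Fin d → List κ}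
    (h : m i = []) : dpart u Y i m = 0 := by
  simp only [dpart, h]

omit [Fintype κ] [DecidableEq κ] in
theorem dpart_cons [Zero F] [Mul F] (u : Fin d → κ → F) (Y : (Fin d → List κ) → F) {i : Fin d} {m : Fin d → List κ}
    {k : κ} {v : List κ} (h : m i = k :: v) : dpart u Y i m = u i k * Y (Function.update m i v) := by
  simp only [dpart, h]

omit [Fintype κ] [DecidableEq κ] in
theorem dpart_pre [Zero F] [Mul F] (u : Fin d → κ → F) (Y : (Fin d → List κ) → F) (i : Fin d) (k : κ)
    (m : Fin d → List κ) : dpart u Y i (pre i k m) = u i k * Y m := by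
  rw [dpart_cons u Y (pre_self i k m), update_pre]

theorem sum_parts [CommRing F] (u : Fin d → κ → F) (Y : (Fin d → List κ) → F) (n : ℕ) (g : (Fin d → List κ) → F)
    (hg : ∀ m, n + 1 < tl m → g m = 0) :
    ∑ m ∈ MW d κ (n + 1), g m * ∑ i, dpart u Y i m =
      ∑ m ∈ MW d κ (n + 1), (∑ i, ∑ k, g (pre i k m) * u i k) * Y m := by
  classical
  have h1 : ∀ i : Fin d, ∑ m ∈ MW d κ (n + 1), g m * dpart u Y i m =
      ∑ m ∈ MW d κ (n + 1), (∑ k, g (pre i k m) * u i k) * Y m := by
    intro i
    have h2 : ∑ m ∈ MW d κ (n + 1), (∑ k, g (pre i k m) * u i k) * Y m =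
        ∑ m ∈ MW d κ n, (∑ k, g (pre i k m) * u i k) * Y m := by
      symm
      refine sum_subset (fun m hm => ?_) fun m hm hm' => ?_
      · rw [mem_MW] at hm ⊢; omega
      · rw [mem_MW] at hm hm'
        rw [sum_eq_zero fun k _ => by rw [hg _ (by rw [tl_pre]; omega), zero_mul], zero_mul]
    have h3 : ∑ m ∈ MW d κ n, (∑ k, g (pre i k m) * u i k) * Y m =
        ∑ p ∈ MW d κ n ×ˢ (univ : Finset κ), g (pre i p.2 p.1) * dpart u Y i (pre i p.2 p.1) := by
      rw [sum_product]
      refine sum_congr rfl fun m _ => ?_
      rw [sum_mul]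
      refine sum_congr rfl fun k _ => ?_
      rw [dpart_pre]
      ring
    rw [h2, h3, ← sum_image (f := fun m => g m * dpart u Y i m) (g := fun p : (Fin d → List κ) × κ => pre i p.2 p.1)
      (fun x _ y _ h => pre_inj i h)]
    symm
    refine sum_subset (fun m hm => ?_) fun m hm hm' => ?_
    · obtain ⟨p, hp, rfl⟩ := mem_image.1 hm
      rw [mem_product, mem_MW] at hp
      rw [mem_MW, tl_pre]
      omega
    · cases hmi : m i with
      | nil => rw [dpart_nil u Y hmi, mul_zero]
      | cons k v =>
        exfalso
        apply hm'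
        rw [mem_image]
        refine ⟨(Function.update m i v, k), ?_, pre_update hmi⟩
        rw [mem_product, mem_MW]
        refine ⟨?_, mem_univ _⟩
        rw [mem_MW] at hm
        have h4 := tl_update m i v
        rw [hmi, List.length_cons] at h4
        show tl (Function.update m i v) ≤ n
        omega
  have h5 : ∑ m ∈ MW d κ (n + 1), g m * ∑ i, dpart u Y i m =
      ∑ i, ∑ m ∈ MW d κ (n + 1), g m * dpart u Y i m := by
    rw [sum_comm]
    exact sum_congr rfl fun m _ => by rw [mul_sum]
  rw [h5, sum_congr rfl fun i _ => h1 i, sum_comm]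
  exact sum_congr rfl fun m _ => by rw [sum_mul]

end

section

variable {R F κ : Type*} {d : ℕ} [CommRing R] [Field F] [Algebra R F] [Fintype κ] [DecidableEq κ]

theorem indepM (D : Derivation R F F) (K : Subfield F) (hDK : ∀ x ∈ K, D x ∈ K)
    (u : Fin d → κ → F) (hu : ∀ i k, u i k ∈ K)
    (hprim : ∀ (c : Fin d → κ → F) (g : F), (∀ i k, c i k ∈ K) → (∀ i k, D (c i k) = 0) → g ∈ K →
      D g = ∑ i, ∑ k, c i k * u i k → ∀ i k, c i k = 0)
    (Y : (Fin d → List κ) → F) (hY0 : ∀ m, tl m = 0 → Y m = 1) (hY : ∀ m, D (Y m) = ∑ i, dpart u Y i m) (n : ℕ) :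
    ∀ g : (Fin d → List κ) → F, (∀ w, g w ∈ K) → ∑ w ∈ MW d κ n, g w * Y w = 0 →
      ∀ w ∈ MW d κ n, g w = 0 := by
  classical
  induction n with
  | zero =>
    intro g _ h0 w hw
    have h1 : MW d κ 0 = {fun _ => []} := by
      ext m
      rw [mem_MW, mem_singleton]
      constructor
      · intro h
        funext i
        have := length_le_tl m i
        exact List.length_eq_zero_iff.1 (by omega)
      · rintro rfl
        simp [tl]
    rw [h1, sum_singleton, hY0 _ (by simp [tl]), mul_one] at h0
    rw [h1, mem_singleton] at hw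
    rw [hw]; exact h0
  | succ n ih =>
    have key : ∀ k : ℕ, ∀ g : (Fin d → List κ) → F, (∀ w, g w ∈ K) →
        (∀ w, n + 1 < tl w → g w = 0) →
        ((MW d κ (n + 1)).filter fun w => tl w = n + 1 ∧ g w ≠ 0).card ≤ k →
        ∑ w ∈ MW d κ (n + 1), g w * Y w = 0 → ∀ w, tl w = n + 1 → g w = 0 := by
      intro k
      induction k with
      | zero =>
        intro g _ _ hc _ w hw
        by_contra hne
        have h1 : w ∈ (MW d κ (n + 1)).filter fun w => tl w = n + 1 ∧ g w ≠ 0 := by
          rw [mem_filter, mem_MW]
          exact ⟨hw.le, hw, hne⟩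
        rw [card_eq_zero.1 (Nat.le_zero.1 hc)] at h1
        exact absurd h1 (notMem_empty _)
      | succ k ihk =>
        intro g hg hgl hc h0 w₀ hw₀
        by_contra hne
        set g' : (Fin d → List κ) → F := fun w => (g w₀)⁻¹ * g w with hg'
        have hg'K : ∀ w, g' w ∈ K := fun w => mul_mem (inv_mem (hg w₀)) (hg w)
        have hg'l : ∀ w, n + 1 < tl w → g' w = 0 := fun w hw => by
          simp only [hg', hgl w hw, mul_zero]
        have hg'1 : g' w₀ = 1 := inv_mul_cancel₀ hne
        have hg'0 : ∑ w ∈ MW d κ (n + 1), g' w * Y w = 0 := by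
          have : ∑ w ∈ MW d κ (n + 1), g' w * Y w = (g w₀)⁻¹ * ∑ w ∈ MW d κ (n + 1), g w * Y w := by
            rw [mul_sum]
            exact sum_congr rfl fun w _ => by simp only [hg']; ring
          rw [this, h0, mul_zero]
        set δ : (Fin d → List κ) → F := fun v => D (g' v) + ∑ i, ∑ k, g' (pre i k v) * u i k with hδ
        have hδK : ∀ w, δ w ∈ K := fun w =>
          add_mem (hDK _ (hg'K w)) (sum_mem fun i _ => sum_mem fun k _ => mul_mem (hg'K _) (hu i k))
        have hδs : ∀ w, n + 1 ≤ tl w → ∑ i, ∑ k, g' (pre i k w) * u i k = 0 := by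
          intro w hw
          refine sum_eq_zero fun i _ => sum_eq_zero fun k _ => ?_
          rw [hg'l _ (by rw [tl_pre]; omega), zero_mul]
        have hδl : ∀ w, n + 1 < tl w → δ w = 0 := by
          intro w hw
          simp only [hδ]
          rw [hg'l w hw, map_zero, zero_add, hδs w hw.le]
        have htop : ∀ w, tl w = n + 1 → δ w = D (g' w) := by
          intro w hw
          simp only [hδ]
          rw [hδs w hw.ge, add_zero]
        have hδ0 : ∑ w ∈ MW d κ (n + 1), δ w * Y w = 0 := by
          have h1 : D (∑ w ∈ MW d κ (n + 1), g' w * Y w) = 0 := by rw [hg'0, map_zero]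
          rw [map_sum] at h1
          have h2 : ∀ w, D (g' w * Y w) = g' w * D (Y w) + D (g' w) * Y w := fun w => by
            rw [Derivation.leibniz, smul_eq_mul, smul_eq_mul, mul_comm (Y w)]
          simp only [h2] at h1
          rw [sum_add_distrib] at h1
          have h3 : ∑ w ∈ MW d κ (n + 1), g' w * D (Y w) =
              ∑ w ∈ MW d κ (n + 1), (∑ i, ∑ k, g' (pre i k w) * u i k) * Y w := by
            rw [← sum_parts u Y n g' hg'l]
            exact sum_congr rfl fun w _ => by rw [hY]
          rw [h3, ← sum_add_distrib] at h1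
          rw [← h1]
          exact sum_congr rfl fun w _ => by simp only [hδ]; ring
        have hδc : ((MW d κ (n + 1)).filter fun w => tl w = n + 1 ∧ δ w ≠ 0).card ≤ k := by
          have hsub : ((MW d κ (n + 1)).filter fun w => tl w = n + 1 ∧ δ w ≠ 0) ⊆
              ((MW d κ (n + 1)).filter fun w => tl w = n + 1 ∧ g w ≠ 0).erase w₀ := by
            intro w hw
            rw [mem_filter] at hw
            obtain ⟨h1, h2, h3⟩ := hw
            rw [htop w h2] at h3
            rw [mem_erase, mem_filter]
            refine ⟨?_, h1, h2, ?_⟩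
            · rintro rfl
              rw [hg'1, D.map_one_eq_zero] at h3
              exact h3 rfl
            · intro h4
              simp only [hg', h4, mul_zero, map_zero] at h3
              exact h3 rfl
          have hmem : w₀ ∈ (MW d κ (n + 1)).filter fun w => tl w = n + 1 ∧ g w ≠ 0 := by
            rw [mem_filter, mem_MW]
            exact ⟨hw₀.le, hw₀, hne⟩
          have := card_le_card hsub
          rw [card_erase_of_mem hmem] at this
          omega
        have hδtop := ihk δ hδK hδl hδc hδ0
        have hδn : ∑ w ∈ MW d κ n, δ w * Y w = 0 := by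
          rw [← hδ0]
          refine sum_subset (fun w hw => ?_) fun w hw hw' => ?_
          · rw [mem_MW] at hw ⊢; omega
          · rw [mem_MW] at hw hw'
            rw [hδtop w (by omega), zero_mul]
        have hδall := ih δ hδK hδn
        -- a nonempty word
        obtain ⟨i₀, hi₀⟩ : ∃ i, w₀ i ≠ [] := by
          by_contra hall
          push Not at hall
          have : tl w₀ = 0 := by
            rw [tl]
            exact sum_eq_zero fun i _ => by rw [hall i]; rfl
          omega
        obtain ⟨k₀, v₀, hkv⟩ := List.exists_cons_of_ne_nil hi₀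
        set w₁ := Function.update w₀ i₀ v₀ with hw₁
        have hpre : pre i₀ k₀ w₁ = w₀ := pre_update hkv
        have hw₁n : tl w₁ = n := by
          have h1 := tl_pre i₀ k₀ w₁
          rw [hpre] at h1
          omega
        have h5 := hδall w₁ ((mem_MW _ _).2 hw₁n.le)
        have h6 := hprim (fun i k => g' (pre i k w₁)) (-g' w₁) (fun i k => hg'K _) (fun i k => by
          have hl : tl (pre i k w₁) = n + 1 := by rw [tl_pre, hw₁n]
          have h7 := hδtop _ hl
          rwa [htop _ hl] at h7) (neg_mem (hg'K _)) (by
          simp only [hδ] at h5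
          rw [map_neg]
          exact neg_eq_of_add_eq_zero_right h5) i₀ k₀
        simp only [hpre, hg'1] at h6
        exact one_ne_zero h6
    intro g hg h0 w hw
    set g₁ : (Fin d → List κ) → F := fun w => if tl w ≤ n + 1 then g w else 0 with hg₁
    have hg₁K : ∀ w, g₁ w ∈ K := fun w => by
      simp only [hg₁]; split_ifs; exacts [hg w, zero_mem _]
    have hg₁l : ∀ w, n + 1 < tl w → g₁ w = 0 := fun w hw => if_neg (by omega)
    have hg₁e : ∀ w ∈ MW d κ (n + 1), g₁ w = g w := fun w hw => if_pos ((mem_MW _ _).1 hw)
    have h01 : ∑ w ∈ MW d κ (n + 1), g₁ w * Y w = 0 := by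
      rw [← h0]
      exact sum_congr rfl fun w hw => by rw [hg₁e w hw]
    have htop := key _ g₁ hg₁K hg₁l le_rfl h01
    have hn : ∑ w ∈ MW d κ n, g₁ w * Y w = 0 := by
      rw [← h01]
      refine sum_subset (fun w hw => ?_) fun w hw hw' => ?_
      · rw [mem_MW] at hw ⊢; omega
      · rw [mem_MW] at hw hw'
        rw [htop w (by omega), zero_mul]
    rw [← hg₁e w hw]
    rw [mem_MW] at hw
    rcases Nat.lt_or_ge n (tl w) with h | h
    · exact htop w (by omega)
    · exact ih g₁ hg₁K hn w ((mem_MW _ _).2 h)

end

end Pool.Agent.Y900.CJ
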