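import Pool.Agent.Y900.PV.NF

/-!
# Counting points by simultaneous shifts
-/

set_option autoImplicit false

open Finset NumberField

namespace Pool.Agent.Y900.CJ

open Pool.Agent.Y900.PV (LinP LV multiLin MgR_le)
open Pool.Agent.Y124 Pool.Agent.Y120

/-- the system of numbers with the numerators `v.1`, `v.2.1` and the denominator `v.2.2` -/
noncomputable def zpt {ι : Type} {e : ℕ} (ω : Fin e → ι → ℂ) (v : ℤ × (Fin e → ℤ) × ℕ) : ι → ℂ :=
  fun i => ((v.1 : ℂ) + ∑ k, (v.2.1 k : ℂ) * ω k i) / (v.2.2 : ℂ)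

/-- numerators and denominators of size at most `T` -/
def Box (e : ℕ) (T : ℝ) : Set (ℤ × (Fin e → ℤ) × ℕ) :=
  {v | |(v.1 : ℝ)| ≤ T ∧ (∀ k, |(v.2.1 k : ℝ)| ≤ T) ∧ 1 ≤ v.2.2 ∧ (v.2.2 : ℝ) ≤ T}

/-- the box as a finite set -/
noncomputable def boxF (e t : ℕ) : Finset (ℤ × (Fin e → ℤ) × ℕ) :=
  Finset.Icc (-(t : ℤ)) t ×ˢ ((Fintype.piFinset fun _ : Fin e => Finset.Icc (-(t : ℤ)) t) ×ˢ Finset.Icc 1 t)

theorem int_box {T : ℝ} {p : ℤ} (h : |(p : ℝ)| ≤ T) : p ∈ Finset.Icc (-(⌊T⌋₊ : ℤ)) ⌊T⌋₊ := by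
  have h1 : (p.natAbs : ℝ) ≤ T := by
    rw [Nat.cast_natAbs, Int.cast_abs]
    exact h
  have h2 : p.natAbs ≤ ⌊T⌋₊ := Nat.le_floor h1
  rw [Finset.mem_Icc]
  omega

theorem box_sub {e : ℕ} {T : ℝ} {v : ℤ × (Fin e → ℤ) × ℕ} (h : v ∈ Box e T) : v ∈ boxF e ⌊T⌋₊ := by
  obtain ⟨h1, h2, h3, h4⟩ := h
  rw [boxF, mem_product, mem_product, Fintype.mem_piFinset]
  refine ⟨int_box h1, fun k => int_box (h2 k), ?_⟩
  rw [Finset.mem_Icc]
  exact ⟨h3, Nat.le_floor h4⟩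

/-- the group of a point -/
noncomputable def gr {e : ℕ} (δ : ℝ) (v : ℤ × (Fin e → ℤ) × ℕ) : ((Fin e → ℤ) × ℕ) × ℤ :=
  (v.2, ⌊(v.1 : ℝ) / (v.2.2 * δ)⌋)

theorem gr_close {e : ℕ} {δ : ℝ} (hδ : 0 < δ) {v v' : ℤ × (Fin e → ℤ) × ℕ} (hb : 1 ≤ v.2.2)
    (h : gr δ v = gr δ v') : v.2 = v'.2 ∧ |((v.1 : ℝ) - v'.1) / v.2.2| ≤ δ := by
  have h1 : v.2 = v'.2 := congrArg Prod.fst h
  have h2 : ⌊(v.1 : ℝ) / (v.2.2 * δ)⌋ = ⌊(v'.1 : ℝ) / (v.2.2 * δ)⌋ := by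
    have := congrArg Prod.snd h
    simp only [gr] at this
    rw [this, h1]
  refine ⟨h1, ?_⟩
  have h3 := Int.abs_sub_lt_one_of_floor_eq_floor h2
  have hb' : (0 : ℝ) < v.2.2 := by exact_mod_cast hb
  rw [← sub_div, abs_div, abs_of_pos (mul_pos hb' hδ), div_lt_one (mul_pos hb' hδ)] at h3
  rw [abs_div, abs_of_pos hb', div_le_iff₀ hb', mul_comm δ]
  exact h3.le

theorem zpt_shift {ι : Type} {e : ℕ} (ω : Fin e → ι → ℂ) {v v' : ℤ × (Fin e → ℤ) × ℕ} (h : v.2 = v'.2) :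
    zpt ω v = fun i => zpt ω v' i + ((((v.1 - v'.1 : ℤ) : ℚ) / (v.2.2 : ℚ) : ℚ) : ℂ) := by
  funext i
  simp only [zpt]
  rw [h]
  push_cast
  ring

/-- the number of groups -/
theorem gr_count {ι : Type} [Nonempty ι] (e : ℕ) (K : Set (ι → ℂ)) (M : ℝ) (hM : ∀ z ∈ K, ∀ i, ‖z i‖ ≤ M)
    (δ : ℝ) (hδ : 0 < δ) (ω : Fin e → ι → ℂ) (t : ℕ) (S : Finset (ℤ × (Fin e → ℤ) × ℕ)) (hS : S ⊆ boxF e t)
    (hSK : ∀ v ∈ S, zpt ω v ∈ K) :
    (S.image (gr δ)).card ≤ (2 * (⌈2 * M / δ⌉₊ + 1) + 1) * ((2 * t + 1) ^ e * t) := by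
  classical
  obtain ⟨i₀⟩ := ‹Nonempty ι›
  have h1 := Finset.card_le_mul_card_image (f := fun x : ((Fin e → ℤ) × ℕ) × ℤ => x.1) (S.image (gr δ))
    (2 * (⌈2 * M / δ⌉₊ + 1) + 1) (by
      intro c hc
      obtain ⟨x, hx, rfl⟩ := mem_image.1 hc
      obtain ⟨v₀, hv₀, rfl⟩ := mem_image.1 hx
      set N₁ : ℕ := ⌈2 * M / δ⌉₊ + 1 with hN₁
      set q₀ : ℤ := ⌊(v₀.1 : ℝ) / (v₀.2.2 * δ)⌋ with hq₀
      have hsub : ((S.image (gr δ)).filter fun x : ((Fin e → ℤ) × ℕ) × ℤ => x.1 = (gr δ v₀).1) ⊆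
          (Finset.Icc (q₀ - N₁) (q₀ + N₁)).image fun q => (v₀.2, q) := by
        intro x hx
        obtain ⟨hx1, hx2⟩ := mem_filter.1 hx
        obtain ⟨v, hv, rfl⟩ := mem_image.1 hx1
        have h2 : v.2 = v₀.2 := hx2
        rw [mem_image]
        refine ⟨⌊(v.1 : ℝ) / (v.2.2 * δ)⌋, ?_, by rw [gr, h2]⟩
        have hb : 1 ≤ v₀.2.2 := by
          have := hS hv₀
          rw [boxF, mem_product, mem_product, Finset.mem_Icc (a := (1 : ℕ))] at this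
          exact this.2.2.1
        have hb' : (0 : ℝ) < v₀.2.2 := by exact_mod_cast hb
        have h3 : ‖zpt ω v i₀ - zpt ω v₀ i₀‖ ≤ 2 * M := by
          calc _ ≤ ‖zpt ω v i₀‖ + ‖zpt ω v₀ i₀‖ := norm_sub_le _ _
            _ ≤ M + M := add_le_add (hM _ (hSK v hv) i₀) (hM _ (hSK v₀ hv₀) i₀)
            _ = 2 * M := by ring
        have h4 : zpt ω v i₀ - zpt ω v₀ i₀ = ((((v.1 : ℝ) - v₀.1) / v₀.2.2 : ℝ) : ℂ) := by
          simp only [zpt]
          rw [h2]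
          push_cast
          ring
        rw [h4, Complex.norm_real, Real.norm_eq_abs] at h3
        have h5 : |(v.1 : ℝ) / (v.2.2 * δ) - (v₀.1 : ℝ) / (v₀.2.2 * δ)| ≤ 2 * M / δ := by
          have h6 : (v.1 : ℝ) / (v.2.2 * δ) - (v₀.1 : ℝ) / (v₀.2.2 * δ) = (((v.1 : ℝ) - v₀.1) / v₀.2.2) / δ := by
            rw [h2, div_div, sub_div]
          rw [h6, abs_div, abs_of_pos hδ]
          exact div_le_div_of_nonneg_right h3 hδ.le
        have h7 : 2 * M / δ ≤ (⌈2 * M / δ⌉₊ : ℝ) := Nat.le_ceil _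
        have h8 := abs_le.1 (h5.trans h7)
        have f1 := Int.floor_le ((v.1 : ℝ) / (v.2.2 * δ))
        have f2 := Int.lt_floor_add_one ((v.1 : ℝ) / (v.2.2 * δ))
        have f3 := Int.floor_le ((v₀.1 : ℝ) / (v₀.2.2 * δ))
        have f4 := Int.lt_floor_add_one ((v₀.1 : ℝ) / (v₀.2.2 * δ))
        rw [Finset.mem_Icc]
        constructor
        · have h9 : (((q₀ - N₁ : ℤ)) : ℝ) < ((⌊(v.1 : ℝ) / (v.2.2 * δ)⌋ + 1 : ℤ) : ℝ) := by
            push_cast [hN₁]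
            linarith [h8.1]
          have h10 : (q₀ - N₁ : ℤ) < ⌊(v.1 : ℝ) / (v.2.2 * δ)⌋ + 1 := by exact_mod_cast h9
          omega
        · have h9 : ((⌊(v.1 : ℝ) / (v.2.2 * δ)⌋ : ℤ) : ℝ) < ((q₀ + N₁ : ℤ) : ℝ) := by
            push_cast [hN₁]
            linarith [h8.2]
          have h10 : ⌊(v.1 : ℝ) / (v.2.2 * δ)⌋ < (q₀ + N₁ : ℤ) := by exact_mod_cast h9
          omega
      refine (Finset.card_le_card hsub).trans (Finset.card_image_le.trans ?_)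
      rw [Int.card_Icc]
      omega)
  refine h1.trans (Nat.mul_le_mul_left _ ?_)
  have h2 : (S.image (gr δ)).image (fun x : ((Fin e → ℤ) × ℕ) × ℤ => x.1) ⊆
      (Fintype.piFinset fun _ : Fin e => Finset.Icc (-(t : ℤ)) t) ×ˢ Finset.Icc 1 t := by
    intro c hc
    obtain ⟨x, hx, rfl⟩ := mem_image.1 hc
    obtain ⟨v, hv, rfl⟩ := mem_image.1 hx
    exact (mem_product.1 (hS hv)).2
  refine (Finset.card_le_card h2).trans ?_
  rw [card_product, Fintype.card_piFinset, Nat.card_Icc, prod_const, Int.card_Icc, card_univ, Fintype.card_fin]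
  have h3 : ((t : ℤ) + 1 - -(t : ℤ)).toNat = 2 * t + 1 := by omega
  rw [h3]
  exact le_rfl

theorem count {ι : Type} [Fintype ι] [Nonempty ι] (m r e : ℕ) (K : Fin r → Set (ι → ℂ)) (hK : ∀ j, IsCompact (K j)) (δ : ℝ)
    (hδ : 0 < δ) {Ω : Type} [Fintype Ω] [DecidableEq Ω] (Φ : Fin r → Ω → (ι → ℂ) → ℂ → ℂ)
    (hLin : ∀ g j, LinP g (K j ×ˢ Metric.closedBall 0 δ) (Φ j)) (Ψ : Ω → (ι → ℂ) → ℂ)
    (hΨ : ∀ j w, ∀ s ∈ K j, ∀ q : ℚ, (fun i => s i + (q : ℂ)) ∈ K j →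
      Ψ w (fun i => s i + (q : ℂ)) = Φ j w s (q : ℂ))
    (h : Type) [Fintype h] [DecidableEq h] (A ε : ℝ) (hε : 0 < ε) :
    ∃ B C T₀ : ℝ, 0 ≤ C ∧ 2 ≤ T₀ ∧ ∀ (E : Type) [Field E] [NumberField E], Module.finrank ℚ E ≤ m →
      ∀ (io : E →+* ℂ) (ξ : h → ℂ) (ω : Fin e → ι → ℂ) (T : ℝ), T₀ ≤ T →
      ∀ Ex : Set (Fin r → ℤ × (Fin e → ℤ) × ℕ), (∀ v ∈ Ex, (∀ j, v j ∈ Box e T ∧ zpt ω (v j) ∈ K j) ∧
        RelK E io ξ (fun w : Fin r → Ω => ∏ j, Ψ (w j) (zpt ω (v j))) (T ^ A) (T ^ (-B))) →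
      Ex.Finite ∧ (Ex.ncard : ℝ) ≤ C * T ^ ((r : ℝ) * (e + 2) - 1 + ε) := by
  classical
  obtain ⟨M₀, hM₀⟩ := (isCompact_iUnion hK).isBounded.exists_norm_le
  set M : ℝ := max M₀ 0 with hMdef
  have hM : ∀ j, ∀ z ∈ K j, ∀ i, ‖z i‖ ≤ M := fun j z hz i =>
    (norm_le_pi_norm z i).trans ((hM₀ z (Set.mem_iUnion.2 ⟨j, hz⟩)).trans (le_max_left _ _))
  have hg := fun g : ℕ => multiLin g (S := ∀ j : Fin r, K j) r (fun _ => Metric.closedBall (0 : ℂ) δ) (fun _ => Ω)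
    (fun j s x w => Φ j w (s j).1 (x j)) (fun j s x x' hx => by rw [hx j le_rfl]) (by
      intro j h' _ _ A' ε' hε'
      obtain ⟨B, C, T2, hC, hT2, H⟩ := hLin g j h' A' ε' hε'
      refine ⟨B, C, T2, hC, hT2, fun T hT R hR ξ s z hz Y hY => ?_⟩
      refine H T hT R hR ξ (s j).1 Y fun y hy => ?_
      obtain ⟨h1, h2, h3⟩ := hY y hy
      refine ⟨⟨(s j).2, h1⟩, h2, ?_⟩
      have h4 : RelR R ξ (fun w => Φ j w (s j).1 (Function.update z j y j)) (T ^ A') (T ^ (-B)) := h3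
      rwa [Function.update_self] at h4) h (max A 0) ε hε
  choose B C T2 hB hC hT2 H using hg
  set N₁ : ℕ := 2 * (⌈2 * M / δ⌉₊ + 1) + 1 with hN₁
  have hBs : 0 ≤ ∑ g ∈ range m, B g := sum_nonneg fun g _ => hB g
  have hCs : 0 ≤ ∑ g ∈ range m, C g := sum_nonneg fun g _ => (hC g).le
  refine ⟨2 * ∑ g ∈ range m, B g, (∑ g ∈ range m, C g) * (2 : ℝ) ^ ε * (r * 3 ^ (r - 1)) * (N₁ * 3 ^ e) ^ r,
    2 + ∑ g ∈ range m, T2 g, by positivity, ?_, ?_⟩
  · have : 0 ≤ ∑ g ∈ range m, T2 g := sum_nonneg fun g _ => by linarith [hT2 g]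
    linarith
  intro E _ _ hm io ξ ω T hT Ex hEx
  set g := gK E with hg
  have hgm : g ∈ range m := Finset.mem_range.2 (gK_lt E hm)
  have hTs0 : 0 ≤ ∑ g ∈ range m, T2 g := sum_nonneg fun g _ => by linarith [hT2 g]
  have hTT : T2 g ≤ T := by
    have h1 := Finset.single_le_sum (f := T2) (fun g _ => by linarith [hT2 g]) hgm
    linarith
  have hT2' : 2 ≤ T := by linarith
  have hTp : 0 < T := by linarith
  have hBB : B g ≤ ∑ g ∈ range m, B g := Finset.single_le_sum (f := B) (fun g _ => hB g) hgm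
  have hCC : C g ≤ ∑ g ∈ range m, C g := Finset.single_le_sum (f := C) (fun g _ => (hC g).le) hgm
  set t : ℕ := ⌊T⌋₊ with ht
  have htT : (t : ℝ) ≤ T := Nat.floor_le hTp.le
  have hExsub : Ex ⊆ (Fintype.piFinset (fun _ : Fin r => boxF e t) : Finset (Fin r → ℤ × (Fin e → ℤ) × ℕ)) := by
    intro v hv
    rw [Finset.mem_coe, Fintype.mem_piFinset]
    exact fun j => box_sub ((hEx v hv).1 j).1
  have hExf : Ex.Finite := (Finset.finite_toSet _).subset hExsub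
  refine ⟨hExf, ?_⟩
  set F₀ := hExf.toFinset with hF₀
  have hmemF : ∀ v, v ∈ F₀ ↔ v ∈ Ex := fun v => hExf.mem_toFinset
  -- the fibres
  set X₀ : ℝ := C g * (2 * T) ^ ε * (r * (3 * T) ^ (r - 1)) with hX₀
  have hX₀0 : 0 ≤ X₀ := by
    have h1 : 0 ≤ (2 * T) ^ ε := Real.rpow_nonneg (by linarith) _
    have := (hC g).le
    positivity
  have hfib : ∀ κ ∈ F₀.image (fun v j => gr δ (v j)),
      (F₀.filter fun v => (fun j => gr δ (v j)) = κ).card ≤ ⌊X₀⌋₊ := by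
    intro κ hκ
    obtain ⟨v₀, hv₀, rfl⟩ := mem_image.1 hκ
    set F := F₀.filter fun v => (fun j => gr δ (v j)) = fun j => gr δ (v₀ j) with hF
    refine Nat.le_floor ?_
    have hv₀E := (hEx v₀ ((hmemF v₀).1 hv₀)).1
    have hFv : ∀ v ∈ F, v ∈ Ex ∧ ∀ j, (v j).2 = (v₀ j).2 ∧ |(((v j).1 : ℝ) - (v₀ j).1) / (v j).2.2| ≤ δ := by
      intro v hv
      obtain ⟨h1, h2⟩ := mem_filter.1 hv
      have h1' := (hmemF v).1 h1
      exact ⟨h1', fun j => gr_close hδ ((hEx v h1').1 j).1.2.2.1 (congrFun h2 j)⟩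
    let s : ∀ j : Fin r, K j := fun j => ⟨zpt ω (v₀ j), (hv₀E j).2⟩
    let qq : (Fin r → ℤ × (Fin e → ℤ) × ℕ) → Fin r → ℚ := fun v j =>
      (((v j).1 - (v₀ j).1 : ℤ) : ℚ) / ((v₀ j).2.2 : ℚ)
    let tt : (Fin r → ℤ × (Fin e → ℤ) × ℕ) → Fin r → ℂ := fun v j => ((qq v j : ℚ) : ℂ)
    have hz : ∀ v ∈ F, ∀ j, zpt ω (v j) = fun i => (s j).1 i + ((qq v j : ℚ) : ℂ) := by
      intro v hv j
      have h1 := ((hFv v hv).2 j).1
      rw [zpt_shift ω h1]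
      simp only [s, qq, h1]
    have hb0 : ∀ j, ((v₀ j).2.2 : ℚ) ≠ 0 := by
      intro j
      have := (hv₀E j).1.2.2.1
      have h2 : (v₀ j).2.2 ≠ 0 := by omega
      exact_mod_cast h2
    have htinj : Set.InjOn tt (F : Set _) := by
      intro v hv v' hv' hvv
      funext j
      have h1 := ((hFv v hv).2 j).1
      have h2 := ((hFv v' hv').2 j).1
      have h3 : ((qq v j : ℚ) : ℂ) = ((qq v' j : ℚ) : ℂ) := congrFun hvv j
      have h4 : qq v j = qq v' j := by exact_mod_cast h3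
      simp only [qq] at h4
      rw [div_left_inj' (hb0 j)] at h4
      have h5 : (v j).1 - (v₀ j).1 = (v' j).1 - (v₀ j).1 := by exact_mod_cast h4
      exact Prod.ext (by omega) (h1.trans h2.symm)
    have hXc : ∀ j, (((F.image fun v => tt v j).card : ℕ) : ℝ) ≤ 3 * T := by
      intro j
      have hsub : (F.image fun v => tt v j) ⊆ (Finset.Icc (-(t : ℤ)) t).image fun p : ℤ =>
          ((((p - (v₀ j).1 : ℤ) : ℚ) / ((v₀ j).2.2 : ℚ) : ℚ) : ℂ) := by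
        intro x hx
        obtain ⟨v, hv, rfl⟩ := mem_image.1 hx
        rw [mem_image]
        exact ⟨(v j).1, int_box ((hEx v (hFv v hv).1).1 j).1.1, rfl⟩
      have h1 := (Finset.card_le_card hsub).trans Finset.card_image_le
      rw [Int.card_Icc] at h1
      have h3 : ((t : ℤ) + 1 - -(t : ℤ)).toNat = 2 * t + 1 := by omega
      rw [h3] at h1
      have h4 : (((F.image fun v => tt v j).card : ℕ) : ℝ) ≤ ((2 * t + 1 : ℕ) : ℝ) := by exact_mod_cast h1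
      push_cast at h4
      linarith
    have hnorm : ∀ v ∈ F, ∀ j, tt v j ∈ Metric.closedBall (0 : ℂ) δ := by
      intro v hv j
      rw [mem_closedBall_zero_iff]
      have h1 := (hFv v hv).2 j
      have h2 : tt v j = ((((v j).1 : ℝ) - (v₀ j).1) / (v j).2.2 : ℝ) := by
        simp only [tt, qq, h1.1]
        push_cast
        ring
      rw [h2, Complex.norm_real, Real.norm_eq_abs]
      exact h1.2
    have hPt : ∀ v ∈ F, ∀ j, Pt (RK E io) (2 * T) (tt v j) := by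
      intro v hv j
      have hvB := ((hEx v (hFv v hv).1).1 j).1
      have hv₀B := (hv₀E j).1
      have h1 : HtLe E (2 * T) ((((((v j).1 - (v₀ j).1 : ℤ) : 𝓞 E) : E)) / ((((v₀ j).2.2 : ℤ) : 𝓞 E) : E)) := by
        refine ⟨(((v j).1 - (v₀ j).1 : ℤ) : 𝓞 E), (((v₀ j).2.2 : ℤ) : 𝓞 E), ?_, ?_, ?_, rfl⟩
        · have h2 : ((v₀ j).2.2 : ℤ) ≠ 0 := by
            have := hv₀B.2.2.1
            omega
          exact_mod_cast h2
        · refine house_le E (by linarith) fun φ => ?_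
          have h2 : φ ((((v j).1 - (v₀ j).1 : ℤ) : 𝓞 E) : E) = (((v j).1 - (v₀ j).1 : ℤ) : ℂ) := by
            simp
          rw [h2, Complex.norm_intCast]
          push_cast
          calc |((v j).1 : ℝ) - (v₀ j).1| ≤ |((v j).1 : ℝ)| + |((v₀ j).1 : ℝ)| := abs_sub _ _
            _ ≤ T + T := add_le_add hvB.1 hv₀B.1
            _ = 2 * T := by ring
        · refine house_le E (by linarith) fun φ => ?_
          have h2 : φ ((((v₀ j).2.2 : ℤ) : 𝓞 E) : E) = (((v₀ j).2.2 : ℤ) : ℂ) := by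
            simp
          rw [h2, Complex.norm_intCast]
          have h3 := hv₀B.2.2.2
          rw [abs_of_nonneg (by positivity)]
          push_cast
          linarith
      have h3 := Pt_of_HtLe E io h1
      have h4 : io ((((((v j).1 - (v₀ j).1 : ℤ) : 𝓞 E) : E)) / ((((v₀ j).2.2 : ℤ) : 𝓞 E) : E)) = tt v j := by
        simp only [tt, qq]
        push_cast
        simp
      rwa [h4] at h3
    have hAT : T ^ A ≤ (2 * T) ^ max A 0 := by
      calc T ^ A ≤ T ^ max A 0 := Real.rpow_le_rpow_of_exponent_le (by linarith) (le_max_left _ _)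
        _ ≤ (2 * T) ^ max A 0 := Real.rpow_le_rpow hTp.le (by linarith) (le_max_right _ _)
    have hBT : T ^ (-(2 * ∑ g ∈ range m, B g)) ≤ (2 * T) ^ (-B g) := by
      calc T ^ (-(2 * ∑ g ∈ range m, B g)) ≤ T ^ (-(2 * B g)) :=
            Real.rpow_le_rpow_of_exponent_le (by linarith) (by linarith)
        _ = (T ^ (2 : ℝ)) ^ (-B g) := by
            rw [← Real.rpow_mul hTp.le]
            congr 1
            ring
        _ ≤ (2 * T) ^ (-B g) := by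
            refine Real.rpow_le_rpow_of_nonpos (by linarith) ?_ (by linarith [hB g])
            rw [Real.rpow_two]
            nlinarith
    have h1 := H g (2 * T) (by linarith) (RK E io) (RK_norm E io) ξ s (fun j => F.image fun v => tt v j) (by
      intro j x hx
      obtain ⟨v, hv, rfl⟩ := mem_image.1 hx
      exact ⟨hnorm v hv j, hPt v hv j⟩) (F.image tt) (by
      intro x hx
      obtain ⟨v, hv, rfl⟩ := mem_image.1 hx
      rw [Fintype.mem_piFinset]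
      intro j
      exact mem_image.2 ⟨v, hv, rfl⟩) (by
      intro x hx
      obtain ⟨v, hv, rfl⟩ := mem_image.1 hx
      obtain ⟨c, hc1, l₀, hc2, hc3⟩ := (hEx v (hFv v hv).1).2
      refine RelR_of_RelK E io ξ _ _ _ ⟨c, fun l s φ => (hc1 l s φ).trans hAT, l₀, hc2, ?_⟩
      have h5 : ∀ w : Fin r → Ω, ∏ j, Ψ (w j) (zpt ω (v j)) = ∏ j, Φ j (w j) (s j).1 (tt v j) := by
        intro w
        refine prod_congr rfl fun j _ => ?_
        have h6 := ((hEx v (hFv v hv).1).1 j).2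
        rw [hz v hv j] at h6 ⊢
        exact hΨ j (w j) (s j).1 (s j).2 (qq v j) h6
      simp only [h5] at hc3
      exact hc3.trans (mul_le_mul_of_nonneg_right hBT (norm_nonneg _)))
    rw [Finset.card_image_of_injOn htinj] at h1
    refine h1.trans ?_
    refine mul_le_mul_of_nonneg_left (MgR_le _ _ hXc) ?_
    exact mul_nonneg (hC g).le (Real.rpow_nonneg (by linarith) _)
  have h1 := Finset.card_le_mul_card_image (f := fun (v : Fin r → ℤ × (Fin e → ℤ) × ℕ) j => gr δ (v j)) F₀ _ hfib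
  -- the number of groups
  let S : Fin r → Finset (ℤ × (Fin e → ℤ) × ℕ) := fun j => (boxF e t).filter fun v => zpt ω v ∈ K j
  have hgc := fun j => gr_count e (K j) M (hM j) δ hδ ω t (S j) (Finset.filter_subset _ _)
    (fun v hv => (mem_filter.1 hv).2)
  have h2 : (F₀.image fun (v : Fin r → ℤ × (Fin e → ℤ) × ℕ) j => gr δ (v j)) ⊆
      Fintype.piFinset fun j : Fin r => (S j).image (gr δ) := by
    intro κ hκ
    obtain ⟨v, hv, rfl⟩ := mem_image.1 hκ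
    rw [Fintype.mem_piFinset]
    intro j
    have h3 := (hEx v ((hmemF v).1 hv)).1 j
    exact mem_image.2 ⟨v j, mem_filter.2 ⟨box_sub h3.1, h3.2⟩, rfl⟩
  have h3 := Finset.card_le_card h2
  rw [Fintype.card_piFinset] at h3
  have h4 : ∀ j, (((S j).image (gr δ)).card : ℝ) ≤ N₁ * 3 ^ e * T ^ (e + 1) := by
    intro j
    have h5 : (((S j).image (gr δ)).card : ℝ) ≤ ((N₁ * ((2 * t + 1) ^ e * t) : ℕ) : ℝ) := by exact_mod_cast hgc j
    refine h5.trans ?_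
    push_cast
    have h6 : (2 * (t : ℝ) + 1) ≤ 3 * T := by linarith
    have h7 : (2 * (t : ℝ) + 1) ^ e ≤ (3 * T) ^ e := pow_le_pow_left₀ (by positivity) h6 e
    calc (N₁ : ℝ) * ((2 * (t : ℝ) + 1) ^ e * t) ≤ N₁ * ((3 * T) ^ e * T) := by
          refine mul_le_mul_of_nonneg_left (mul_le_mul h7 htT (Nat.cast_nonneg _) (by positivity)) (Nat.cast_nonneg _)
      _ = N₁ * 3 ^ e * T ^ (e + 1) := by
          rw [mul_pow, pow_succ]
          ring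
  have hcard : (Ex.ncard : ℝ) = (F₀.card : ℝ) := by
    rw [Set.ncard_eq_toFinset_card _ hExf]
  rw [hcard]
  have h5 : (F₀.card : ℝ) ≤ X₀ * (N₁ * 3 ^ e * T ^ (e + 1)) ^ r := by
    calc (F₀.card : ℝ) ≤ ((⌊X₀⌋₊ * (F₀.image fun (v : Fin r → ℤ × (Fin e → ℤ) × ℕ) j => gr δ (v j)).card : ℕ) : ℝ) := by
          exact_mod_cast h1
      _ = (⌊X₀⌋₊ : ℝ) * ((F₀.image fun (v : Fin r → ℤ × (Fin e → ℤ) × ℕ) j => gr δ (v j)).card : ℝ) := by
          push_cast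
          ring
      _ ≤ X₀ * ∏ j, (((S j).image (gr δ)).card : ℝ) := by
          refine mul_le_mul (Nat.floor_le hX₀0) ?_ (Nat.cast_nonneg _) hX₀0
          exact_mod_cast h3
      _ ≤ _ := by
          refine mul_le_mul_of_nonneg_left ?_ hX₀0
          calc ∏ j, (((S j).image (gr δ)).card : ℝ) ≤ ∏ _j : Fin r, ((N₁ : ℝ) * 3 ^ e * T ^ (e + 1)) :=
                prod_le_prod (fun _ _ => Nat.cast_nonneg _) fun j _ => h4 j
            _ = _ := by rw [prod_const, card_univ, Fintype.card_fin]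
  refine h5.trans ?_
  rcases Nat.eq_zero_or_pos r with hr0 | hrpos
  · subst hr0
    simp [hX₀]
  · have e1 : (2 * T) ^ ε = (2 : ℝ) ^ ε * T ^ ε := Real.mul_rpow (by norm_num) hTp.le
    have e2 : T ^ ((r : ℝ) * (e + 2) - 1 + ε) = T ^ ε * (T ^ (r - 1) * (T ^ (e + 1)) ^ r) := by
      rw [← pow_mul, ← pow_add, ← Real.rpow_natCast, ← Real.rpow_add hTp]
      congr 1
      push_cast [Nat.cast_sub hrpos]
      ring
    rw [hX₀, e1, e2, mul_pow (3 : ℝ) T, mul_pow _ (T ^ (e + 1)) r]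
    have hTε : 0 ≤ T ^ ε := Real.rpow_nonneg hTp.le _
    have h2ε : (0 : ℝ) ≤ 2 ^ ε := Real.rpow_nonneg (by norm_num) _
    calc C g * ((2 : ℝ) ^ ε * T ^ ε) * (r * (3 ^ (r - 1) * T ^ (r - 1))) * (((N₁ : ℝ) * 3 ^ e) ^ r * (T ^ (e + 1)) ^ r)
        = C g * ((2 : ℝ) ^ ε * (r * 3 ^ (r - 1)) * ((N₁ : ℝ) * 3 ^ e) ^ r *
            (T ^ ε * (T ^ (r - 1) * (T ^ (e + 1)) ^ r))) := by ring
      _ ≤ (∑ g ∈ range m, C g) * ((2 : ℝ) ^ ε * (r * 3 ^ (r - 1)) * ((N₁ : ℝ) * 3 ^ e) ^ r *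
            (T ^ ε * (T ^ (r - 1) * (T ^ (e + 1)) ^ r))) := mul_le_mul_of_nonneg_right hCC (by positivity)
      _ = _ := by ring

end Pool.Agent.Y900.CJ
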