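import Pool.Agent.Y900.CJ.Main

/-!
# Determinants of single-valued polylogarithms
-/

set_option autoImplicit false

open Filter Set NumberField
open scoped ComplexConjugate

namespace Pool.Agent.Y900.CJ

section det

variable {r q : ℕ}

/-- the generic matrix `N X` -/
noncomputable def NX (N : Matrix (Fin q) (Fin r) ℤ) : Matrix (Fin q) (Fin q) (MvPolynomial (Fin r × Fin q) ℤ) :=
  fun i a => ∑ l, MvPolynomial.C (N i l) * MvPolynomial.X (l, a)

/-- the exponent of a product of variables -/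
noncomputable def ex (la : Fin q → Fin r) : Fin r × Fin q →₀ ℕ := ∑ i, Finsupp.single (la i, i) 1

theorem ex_le (la : Fin q → Fin r) (x : Fin r × Fin q) : ex la x ≤ q := by
  classical
  rw [ex, Finsupp.finsetSum_apply]
  calc ∑ i : Fin q, (Finsupp.single (la i, i) 1 : Fin r × Fin q →₀ ℕ) x ≤ ∑ _i : Fin q, 1 := by
        refine Finset.sum_le_sum fun i _ => ?_
        rw [Finsupp.single_apply]
        split_ifs <;> omega
    _ = q := by simp

theorem ex_ne (la : Fin q → Fin r) (hq : 1 ≤ q) : ex la ≠ 0 := by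
  classical
  intro h
  have h1 := DFunLike.congr_fun h (la ⟨0, hq⟩, ⟨0, hq⟩)
  rw [ex, Finsupp.finsetSum_apply, Finsupp.coe_zero, Pi.zero_apply, Finset.sum_eq_zero_iff] at h1
  have h2 := h1 ⟨0, hq⟩ (Finset.mem_univ _)
  rw [Finsupp.single_eq_same] at h2
  exact one_ne_zero h2

theorem coeff_detN (N : Matrix (Fin q) (Fin r) ℤ) (s : Fin r × Fin q →₀ ℕ) :
    (NX N).det.coeff s = ∑ g : Equiv.Perm (Fin q), ∑ la : Fin q → Fin r,
      (Equiv.Perm.sign g : ℤ) * ((∏ i, N (g i) (la i)) * if ex la = s then 1 else 0) := by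
  classical
  rw [Matrix.det_apply, MvPolynomial.coeff_sum]
  refine Finset.sum_congr rfl fun g _ => ?_
  have h1 : ∏ i, NX N (g i) i = ∑ la : Fin q → Fin r, MvPolynomial.monomial (ex la) (∏ i, N (g i) (la i)) := by
    simp only [NX]
    rw [Finset.prod_univ_sum, Fintype.piFinset_univ]
    refine Finset.sum_congr rfl fun la _ => ?_
    rw [Finset.prod_mul_distrib, ← map_prod]
    have h2 : ∏ i, (MvPolynomial.X (la i, i) : MvPolynomial (Fin r × Fin q) ℤ) = MvPolynomial.monomial (ex la) 1 := by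
      rw [ex]
      have : ∀ S : Finset (Fin q), ∏ i ∈ S, (MvPolynomial.X (la i, i) : MvPolynomial (Fin r × Fin q) ℤ) =
          MvPolynomial.monomial (∑ i ∈ S, Finsupp.single (la i, i) 1) 1 := by
        intro S
        induction S using Finset.induction_on with
        | empty => simp
        | insert a S ha ih =>
          rw [Finset.prod_insert ha, Finset.sum_insert ha, ih, MvPolynomial.X, MvPolynomial.monomial_mul, one_mul]
      exact this Finset.univ
    rw [h2, MvPolynomial.C_mul_monomial, mul_one]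
  rw [h1, Units.smul_def, MvPolynomial.coeff_smul, MvPolynomial.coeff_sum, Finset.smul_sum]
  refine Finset.sum_congr rfl fun la _ => ?_
  rw [MvPolynomial.coeff_monomial, smul_eq_mul]
  split_ifs <;> simp

theorem coeff_detN_ne (N : Matrix (Fin q) (Fin r) ℤ) (s : Fin r × Fin q →₀ ℕ) (h : (NX N).det.coeff s ≠ 0) :
    ∃ la, s = ex la := by
  classical
  rw [coeff_detN] at h
  obtain ⟨g, -, h1⟩ := Finset.exists_ne_zero_of_sum_ne_zero h
  obtain ⟨la, -, h2⟩ := Finset.exists_ne_zero_of_sum_ne_zero h1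
  refine ⟨la, ?_⟩
  by_contra hne
  rw [if_neg (fun h => hne h.symm), mul_zero, mul_zero] at h2
  exact h2 rfl

theorem coeff_detN_le (N : Matrix (Fin q) (Fin r) ℤ) (M : ℝ) (hM : ∀ i l, |(N i l : ℝ)| ≤ M)
    (s : Fin r × Fin q →₀ ℕ) : |(((NX N).det.coeff s : ℤ) : ℝ)| ≤ (q.factorial * (r : ℝ) ^ q) * M ^ q := by
  classical
  rw [coeff_detN]
  push_cast
  refine (Finset.abs_sum_le_sum_abs _ _).trans ?_
  calc ∑ g : Equiv.Perm (Fin q), |∑ la : Fin q → Fin r, ((Equiv.Perm.sign g : ℤ) : ℝ) *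
        ((∏ i, (N (g i) (la i) : ℝ)) * if ex la = s then 1 else 0)|
      ≤ ∑ _g : Equiv.Perm (Fin q), ∑ _la : Fin q → Fin r, M ^ q := by
        refine Finset.sum_le_sum fun g _ => (Finset.abs_sum_le_sum_abs _ _).trans
          (Finset.sum_le_sum fun la _ => ?_)
        rw [abs_mul, abs_mul]
        have h1 : |((Equiv.Perm.sign g : ℤ) : ℝ)| = 1 := by
          rcases Int.units_eq_one_or (Equiv.Perm.sign g) with h | h <;> rw [h] <;> simp
        have h2 : |(if ex la = s then (1 : ℝ) else 0)| ≤ 1 := by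
          split_ifs <;> simp
        have h3 : |∏ i, (N (g i) (la i) : ℝ)| ≤ M ^ q := by
          rw [Finset.abs_prod]
          calc ∏ i, |(N (g i) (la i) : ℝ)| ≤ ∏ _i : Fin q, M :=
                Finset.prod_le_prod (fun _ _ => abs_nonneg _) fun i _ => hM _ _
            _ = M ^ q := by simp
        rw [h1, one_mul]
        calc |∏ i, (N (g i) (la i) : ℝ)| * |(if ex la = s then (1 : ℝ) else 0)|
            ≤ |∏ i, (N (g i) (la i) : ℝ)| * 1 := mul_le_mul_of_nonneg_left h2 (abs_nonneg _)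
          _ ≤ M ^ q := by rw [mul_one]; exact h3
    _ = (q.factorial * (r : ℝ) ^ q) * M ^ q := by
        rw [Finset.sum_const, Finset.sum_const, Finset.card_univ, Finset.card_univ, Fintype.card_perm,
          Fintype.card_fun, Fintype.card_fin, Fintype.card_fin, nsmul_eq_mul, nsmul_eq_mul]
        push_cast
        ring

theorem detN_ne (N : Matrix (Fin q) (Fin r) ℤ) (h : LinearIndependent ℤ N.row) : (NX N).det ≠ 0 := by
  classical
  -- the Gram matrix
  have hG : (N * N.transpose).det ≠ 0 := by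
    intro h0
    obtain ⟨v, hv0, hv⟩ := Matrix.exists_vecMul_eq_zero_iff.2 h0
    have h1 : (Matrix.vecMul v N) ⬝ᵥ (Matrix.vecMul v N) = 0 := by
      have h2 : (Matrix.vecMul v N) ⬝ᵥ (Matrix.vecMul v N) = (Matrix.vecMul v (N * N.transpose)) ⬝ᵥ v := by
        rw [← Matrix.vecMul_vecMul, ← Matrix.dotProduct_mulVec, Matrix.vecMul_transpose, dotProduct_comm]
      rw [h2, hv, zero_dotProduct]
    have h3 : Matrix.vecMul v N = 0 := dotProduct_self_eq_zero.1 h1
    have h4 : ∑ i, v i • N.row i = 0 := by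
      rw [← h3]
      exact (Matrix.vecMul_eq_sum v N).symm
    exact hv0 (funext fun i => Fintype.linearIndependent_iff.1 h v h4 i)
  intro h0
  apply hG
  let f : MvPolynomial (Fin r × Fin q) ℤ →+* ℤ :=
    (MvPolynomial.aeval (R := ℤ) fun x : Fin r × Fin q => N x.2 x.1).toRingHom
  have h1 := RingHom.map_det f (NX N)
  rw [h0, map_zero] at h1
  rw [h1]
  congr 1
  ext i a
  symm
  show f (NX N i a) = (N * N.transpose) i a
  simp only [NX, f, AlgHom.toRingHom_eq_coe, RingHom.coe_coe]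
  rw [map_sum, Matrix.mul_apply]
  refine Finset.sum_congr rfl fun l _ => ?_
  rw [map_mul, MvPolynomial.aeval_C, MvPolynomial.aeval_X]
  rfl

theorem detN_eval (N : Matrix (Fin q) (Fin r) ℤ) (v : Fin r × Fin q → ℂ) :
    MvPolynomial.aeval v (MvPolynomial.map (Int.castRingHom ℂ) (NX N).det) =
      Matrix.det (fun i a => ∑ l, (N i l : ℂ) * v (l, a) : Matrix (Fin q) (Fin q) ℂ) := by
  classical
  let f : MvPolynomial (Fin r × Fin q) ℤ →+* ℂ :=
    ((MvPolynomial.aeval (R := ℂ) v).toRingHom).comp (MvPolynomial.map (Int.castRingHom ℂ))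
  have h1 := RingHom.map_det f (NX N)
  have h2 : f (NX N).det = MvPolynomial.aeval v (MvPolynomial.map (Int.castRingHom ℂ) (NX N).det) := rfl
  rw [← h2, h1]
  congr 1
  ext i a
  show f (NX N i a) = _
  simp only [NX, f, AlgHom.toRingHom_eq_coe, RingHom.coe_comp, RingHom.coe_coe, Function.comp_apply, map_sum, map_mul,
    MvPolynomial.map_X, MvPolynomial.aeval_X, eq_intCast, map_intCast]

end det

/-- determinants formed with elements of the group ring -/
theorem zag_det {D q : ℕ} (hD : 0 < D) (hq : 1 ≤ q) (cj : Fin D → Fin D) (pl : Fin q → Fin D) (wt : Fin q → ℕ)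
    (hw : ∀ a, 1 ≤ wt a) (hinj : ∀ a b, pl a = pl b → wt a = wt b → a = b)
    (hcj : ∀ a b, cj (pl a) = pl b → wt a = wt b → a = b ∧ Odd (wt a)) (K : Set (Fin D → ℂ)) (hK : IsCompact K)
    (hKG : K ⊆ Gr) (m r e : ℕ) (A ε : ℝ) (hε : 0 < ε) :
    ∃ B C T₀ : ℝ, 0 ≤ C ∧ 2 ≤ T₀ ∧ ∀ (F : Type) [Field F] (sg : Fin D → (F →+* ℂ)),
      (∀ i y, sg (cj i) y = conj (sg i y)) → ∀ (ω : Fin e → F) (E : Type) [Field E] [NumberField E],
      Module.finrank ℚ E ≤ m → ∀ (io : E →+* ℂ) (ξ : ℂ) (T : ℝ), T₀ ≤ T → ∀ Ex : Set (Fin r → F),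
      (∀ y ∈ Ex, (∀ j, (∃ v ∈ Box e T, y j = ((v.1 : F) + ∑ k, (v.2.1 k : F) * ω k) / (v.2.2 : F)) ∧
        (fun i => sg i (y j)) ∈ K) ∧ ∃ N : Matrix (Fin q) (Fin r) ℤ, (∀ i l, |(N i l : ℝ)| ≤ T ^ A) ∧
        LinearIndependent ℤ N.row ∧
        ∃ a b : 𝓞 E, b ≠ 0 ∧ (∀ f : E →+* ℂ, ‖f a‖ ≤ T ^ A ∧ ‖f b‖ ≤ T ^ A) ∧
          ‖Matrix.det (fun i a => ∑ l, (N i l : ℂ) * (LL (wt a) (sg (pl a) (y l)) : ℂ) : Matrix (Fin q) (Fin q) ℂ) -
            io a / io b * ξ‖ ≤ T ^ (-B)) →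
      Ex.Finite ∧ (Ex.ncard : ℝ) ≤ C * T ^ ((r : ℝ) * (e + 2) - 1 + ε) := by
  classical
  set A' : ℝ := max A 0 with hA'
  have hA'0 : 0 ≤ A' := le_max_right _ _
  obtain ⟨B, C, T₀, hC, hT₀, H⟩ := zag_poly hD cj pl wt hw hinj hcj K hK hKG m r e q (Fin 2) (A' + A' * q + 1) ε hε
  refine ⟨B, C, max T₀ (q.factorial * (r : ℝ) ^ q), hC, le_max_of_le_left hT₀, ?_⟩
  intro F _ sg hsg ω E _ _ hm io ξ T hT Ex hEx
  have hTT : T₀ ≤ T := (le_max_left _ _).trans hT
  have hTq : q.factorial * (r : ℝ) ^ q ≤ T := (le_max_right _ _).trans hT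
  have hTp : 0 < T := by linarith
  have hT1 : 1 ≤ T := by linarith
  refine H F sg hsg ω E hm io ![1, ξ] T hTT Ex fun y hy => ?_
  obtain ⟨h1, N, hN, hli, a, b, hb, hab, hdet⟩ := hEx y hy
  refine ⟨h1, ?_⟩
  have hTA : T ^ A ≤ T ^ A' := Real.rpow_le_rpow_of_exponent_le hT1 (le_max_left _ _)
  have hTA' : T ^ A' ≤ T ^ (A' + A' * q + 1) :=
    Real.rpow_le_rpow_of_exponent_le hT1 (by nlinarith [Nat.cast_nonneg (α := ℝ) q])
  have hbE : (b : E) ≠ 0 := by
    intro h
    exact hb (by exact_mod_cast h)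
  have hiob : io (b : E) ≠ 0 := (map_ne_zero io).2 hbE
  have hcast1 : ∀ (x : 𝓞 E) (n : ℤ) (f : E →+* ℂ), f ((x * (n : 𝓞 E) : 𝓞 E) : E) = f x * (n : ℂ) := by
    intro x n f
    simp
  have hcast2 : ∀ (x : 𝓞 E) (f : E →+* ℂ), f ((-x : 𝓞 E) : E) = -f x := by
    intro x f
    simp
  have hcast3 : ∀ f : E →+* ℂ, f ((0 : 𝓞 E) : E) = 0 := by
    intro f
    simp
  set P : MvPolynomial (Fin r × Fin q) ℂ := MvPolynomial.C (io b) *
    MvPolynomial.map (Int.castRingHom ℂ) (NX N).det - MvPolynomial.C (io a * ξ) with hP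
  have hcoef : ∀ s, P.coeff s = io b * (((NX N).det.coeff s : ℤ) : ℂ) - if s = 0 then io a * ξ else 0 := by
    intro s
    rw [hP, MvPolynomial.coeff_sub, MvPolynomial.coeff_C_mul, MvPolynomial.coeff_map, MvPolynomial.coeff_C, eq_intCast]
    simp only [eq_comm]
  refine ⟨P, ?_, ?_, ?_⟩
  · intro x
    rw [MvPolynomial.degreeOf_le_iff]
    intro s hs
    rw [MvPolynomial.mem_support_iff, hcoef] at hs
    by_cases hs0 : s = 0
    · rw [hs0]
      exact Nat.zero_le _
    · rw [if_neg hs0, sub_zero] at hs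
      have h2 : (NX N).det.coeff s ≠ 0 := by
        intro h
        rw [h, Int.cast_zero, mul_zero] at hs
        exact hs rfl
      obtain ⟨la', rfl⟩ := coeff_detN_ne N s h2
      exact ex_le la' x
  · intro s
    refine ⟨![b * (((NX N).det.coeff s : ℤ) : 𝓞 E), if s = 0 then -a else 0], ?_, ?_⟩
    · intro i f
      fin_cases i
      · show ‖f ((b * (((NX N).det.coeff s : ℤ) : 𝓞 E) : 𝓞 E) : E)‖ ≤ _
        rw [hcast1, norm_mul, Complex.norm_intCast]
        have h3 := coeff_detN_le N (T ^ A') (fun i l => (hN i l).trans hTA) s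
        have h4 : (T ^ A') ^ q = T ^ (A' * q) := by
          rw [← Real.rpow_natCast, ← Real.rpow_mul hTp.le]
        rw [h4] at h3
        calc ‖f b‖ * |(((NX N).det.coeff s : ℤ) : ℝ)| ≤ T ^ A' * (T * T ^ (A' * q)) := by
              refine mul_le_mul ((hab f).2.trans hTA) ?_ (abs_nonneg _) (Real.rpow_nonneg hTp.le _)
              exact h3.trans (mul_le_mul_of_nonneg_right hTq (Real.rpow_nonneg hTp.le _))
          _ = T ^ (A' + A' * q + 1) := by
              rw [Real.rpow_add hTp, Real.rpow_add hTp, Real.rpow_one]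
              ring
      · show ‖f ((if s = 0 then -a else 0 : 𝓞 E) : E)‖ ≤ _
        split_ifs
        · rw [hcast2, norm_neg]
          exact ((hab f).1.trans hTA).trans hTA'
        · rw [hcast3, norm_zero]
          exact Real.rpow_nonneg hTp.le _
    · rw [hcoef, Fin.sum_univ_two]
      show _ = 1 * io ((b * (((NX N).det.coeff s : ℤ) : 𝓞 E) : 𝓞 E) : E) + ξ * io ((if s = 0 then -a else 0 : 𝓞 E) : E)
      rw [hcast1, one_mul]
      split_ifs
      · rw [hcast2]
        ring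
      · rw [hcast3]
        ring
  · obtain ⟨s₀, hs₀⟩ := MvPolynomial.ne_zero_iff.1 (detN_ne N hli)
    have hs₀0 : s₀ ≠ 0 := by
      obtain ⟨la', rfl⟩ := coeff_detN_ne N s₀ hs₀
      exact ex_ne la' hq
    have hco : P.coeff s₀ = io b * (((NX N).det.coeff s₀ : ℤ) : ℂ) := by
      rw [hcoef, if_neg hs₀0, sub_zero]
    refine ⟨s₀, ?_, ?_⟩
    · rw [hco]
      exact mul_ne_zero hiob (by exact_mod_cast hs₀)
    · rw [hco]
      have h2 : MvPolynomial.aeval (fun x : Fin r × Fin q => (LL (wt x.2) (sg (pl x.2) (y x.1)) : ℂ)) P =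
          io b * (Matrix.det (fun i a => ∑ l, (N i l : ℂ) * (LL (wt a) (sg (pl a) (y l)) : ℂ) :
            Matrix (Fin q) (Fin q) ℂ) - io a / io b * ξ) := by
        rw [hP, map_sub, map_mul, detN_eval, MvPolynomial.aeval_C, MvPolynomial.aeval_C]
        simp only [Algebra.algebraMap_self, RingHom.id_apply]
        field_simp
      rw [h2, norm_mul, norm_mul, Complex.norm_intCast]
      have h3 : (1 : ℝ) ≤ |(((NX N).det.coeff s₀ : ℤ) : ℝ)| := by
        rw [← Int.cast_abs]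
        exact_mod_cast Int.one_le_abs hs₀
      have h4 : 0 ≤ T ^ (-B) := Real.rpow_nonneg hTp.le _
      calc ‖io b‖ * ‖Matrix.det (fun i a => ∑ l, (N i l : ℂ) * (LL (wt a) (sg (pl a) (y l)) : ℂ) :
            Matrix (Fin q) (Fin q) ℂ) - io a / io b * ξ‖ ≤ ‖io b‖ * T ^ (-B) :=
            mul_le_mul_of_nonneg_left hdet (norm_nonneg _)
        _ = T ^ (-B) * (‖io b‖ * 1) := by ring
        _ ≤ T ^ (-B) * (‖io b‖ * |(((NX N).det.coeff s₀ : ℤ) : ℝ)|) :=
            mul_le_mul_of_nonneg_left (mul_le_mul_of_nonneg_left h3 (norm_nonneg _)) h4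

end Pool.Agent.Y900.CJ
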