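import Pool.Agent.Y900.CJ.Poly
import Pool.Agent.Y900.HY.Lin
import Pool.Agent.Y124.StdC

/-!
# Local algebraic independence of systems of primitives
-/

set_option autoImplicit false

open Filter Set Polynomial
open scoped Topology

namespace Pool.Agent.Y900.CJ

open Pool.Agent.Y900.HY (germC alg_iff AlgAt an_eval an_of_deriv)

variable {σ Λ : Type} [Fintype σ] [Fintype Λ] [DecidableEq Λ]

theorem locInd_tow (S : Str σ Λ) (t₀ : ℂ) {u : Λ → ℂ → ℂ} (hu : ∀ l, AnalyticAt ℂ (u l) t₀)
    (hua : ∀ l, AlgAt t₀ (u l))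
    (hprim : ∀ (c : Λ → ℂ) (g : ℂ → ℂ), AlgAt t₀ g → (∀ᶠ t in 𝓝 t₀, HasDerivAt g (∑ l, c l * u l t) t) → c = 0)
    (root : Λ → σ) (hr1 : ∀ l, S.pr (root l) = none) (hr2 : ∀ l, S.lam (root l) = l)
    (hkerP : ∀ G : MvPolynomial σ ℂ, (∀ l, del S l G = 0) → ∀ e, e ≠ 0 → MvPolynomial.coeff e G = 0)
    {y : σ → ℂ → ℂ}
    (hy : ∀ s, ∀ᶠ t in 𝓝 t₀, HasDerivAt (y s) (u (S.lam s) t * (S.pr s).elim 1 (fun s' => y s' t)) t) :
    Pool.Agent.Y124.LocInd y t₀ := by
  classical
  obtain ⟨E, _, _, D, T, hconst, hTc, hTadd, hTmul, hTder, hTinj, hTcongr⟩ := germC t₀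
  have : CharZero E := charZero_of_injective_algebraMap (algebraMap ℂ E).injective
  set τ : E := T (fun s => s) with hτ
  have hid : AnalyticAt ℂ (fun s : ℂ => s) t₀ := analyticAt_id
  have hT0 : T (fun _ => 0) = 0 := by rw [hTc, map_zero]
  have hT1 : T (fun _ => 1) = 1 := by rw [hTc, map_one]
  have hDτ : D τ = 1 := by
    rw [hτ, hTder _ (fun _ => 1) hid (Eventually.of_forall fun s => hasDerivAt_id s), hT1]
  have hpolyan : ∀ P : ℂ[X], AnalyticAt ℂ (fun s => P.eval s) t₀ := fun P =>
    AnalyticOnNhd.eval_polynomial P t₀ (mem_univ _)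
  have hpoly : ∀ P : ℂ[X], T (fun s => P.eval s) = aeval τ P := by
    intro P
    induction P using Polynomial.induction_on with
    | C x => simp only [eval_C, aeval_C]; exact hTc x
    | add P Q hP hQ =>
      simp only [eval_add, map_add]
      rw [hTadd _ _ (hpolyan P) (hpolyan Q), hP, hQ]
    | monomial n x ih =>
      have h1 : (fun s => (C x * X ^ (n + 1)).eval s) = fun s => (C x * X ^ n).eval s * s := by
        funext s
        rw [pow_succ, ← mul_assoc, eval_mul, eval_X]
      rw [h1, hTmul _ _ (hpolyan _) hid, ih, pow_succ, ← mul_assoc, map_mul _ _ X, aeval_X]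
  have hmv : ∀ (f : ℂ → ℂ), AnalyticAt ℂ f t₀ → ∀ P : MvPolynomial (Fin 2) ℂ,
      T (fun s => MvPolynomial.eval ![s, f s] P) = MvPolynomial.aeval ![τ, T f] P := by
    intro f hf P
    induction P using MvPolynomial.induction_on with
    | C x => simp only [MvPolynomial.eval_C, MvPolynomial.aeval_C]; exact hTc x
    | add P Q hP hQ =>
      simp only [map_add]
      rw [hTadd _ _ (an_eval hf P) (an_eval hf Q), hP, hQ]
    | mul_X P i ih =>
      simp only [map_mul, MvPolynomial.eval_X, MvPolynomial.aeval_X]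
      rw [hTmul _ _ (an_eval hf P) (by fin_cases i; exacts [hid, hf]), ih]
      congr 1
      fin_cases i <;> rfl
  have hτtr : Transcendental ℂ τ := by
    rw [transcendental_iff]
    intro P hP
    rw [← hpoly] at hP
    have h1 := hTinj _ (hpolyan P) hP
    exact Polynomial.eq_zero_of_infinite_isRoot P (infinite_of_mem_nhds t₀ h1)
  -- the field
  set L : IntermediateField ℂ E := IntermediateField.adjoin ℂ {τ} with hL
  set K : Subfield E := (algebraicClosure L E).toSubfield with hK
  have hmemK : ∀ x, x ∈ K ↔ IsAlgebraic L x := fun x => mem_algebraicClosure_iff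
  have hLD : ∀ y ∈ L, D y ∈ L := Pool.Agent.W417.HP.der_mem D {τ} (by
    rintro s rfl
    rw [hDτ]; exact one_mem _)
  have hDK : ∀ x ∈ K, D x ∈ K := fun x hx =>
    (hmemK _).2 (Pool.Agent.W417.HP.der_alg D L hLD ((hmemK _).1 hx))
  have hLK : ∀ y ∈ L, y ∈ K := fun y hy =>
    (hmemK _).2 (isAlgebraic_algebraMap (⟨y, hy⟩ : L))
  have hcK : ∀ c : ℂ, algebraMap ℂ E c ∈ K := fun c => hLK _ (L.algebraMap_mem c)
  have hτK : τ ∈ K := hLK _ (IntermediateField.mem_adjoin_simple_self ℂ τ)
  have hpK : ∀ P : ℂ[X], aeval τ P ∈ K := by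
    intro P
    rw [aeval_eq_sum_range]
    refine sum_mem fun i _ => ?_
    rw [Algebra.smul_def]
    exact mul_mem (hcK _) (pow_mem hτK _)
  have halgK : ∀ f : ℂ → ℂ, AnalyticAt ℂ f t₀ → AlgAt t₀ f → T f ∈ K := by
    rintro f hf ⟨P, hP0, hP⟩
    rw [hmemK, hL, alg_iff hτtr]
    refine ⟨P, hP0, ?_⟩
    rw [← hmv f hf, ← hT0]
    exact hTcongr _ _ hP
  have halgOn : ∀ f : ℂ → ℂ, AnalyticAt ℂ f t₀ → T f ∈ K → AlgAt t₀ f := by
    intro f hf hfK
    rw [hmemK, hL, alg_iff hτtr] at hfK
    obtain ⟨P, hP0, hP⟩ := hfK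
    refine ⟨P, hP0, ?_⟩
    rw [← hmv f hf] at hP
    exact hTinj _ (an_eval hf P) hP
  -- sums, products, powers
  have hTsum : ∀ {ι : Type} (s : Finset ι) (f : ι → ℂ → ℂ), (∀ i, AnalyticAt ℂ (f i) t₀) →
      T (fun t => ∑ i ∈ s, f i t) = ∑ i ∈ s, T (f i) := by
    intro ι s f hf
    classical
    induction s using Finset.induction_on with
    | empty => simp only [Finset.sum_empty]; exact hT0
    | insert i s hi ih =>
      simp only [Finset.sum_insert hi]
      rw [hTadd _ _ (hf i) (Finset.analyticAt_fun_sum _ fun i _ => hf i), ih]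
  have hTprod : ∀ {ι : Type} (s : Finset ι) (f : ι → ℂ → ℂ), (∀ i, AnalyticAt ℂ (f i) t₀) →
      T (fun t => ∏ i ∈ s, f i t) = ∏ i ∈ s, T (f i) := by
    intro ι s f hf
    classical
    induction s using Finset.induction_on with
    | empty => simp only [Finset.prod_empty]; exact hT1
    | insert i s hi ih =>
      simp only [Finset.prod_insert hi]
      rw [hTmul _ _ (hf i) (Finset.analyticAt_fun_prod _ fun i _ => hf i), ih]
  have hTpow : ∀ (f : ℂ → ℂ) (k : ℕ), AnalyticAt ℂ f t₀ → T (fun t => f t ^ k) = T f ^ k := by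
    intro f k hf
    induction k with
    | zero => simp only [pow_zero]; exact hT1
    | succ k ih =>
      simp only [pow_succ]
      rw [hTmul (fun t => f t ^ k) f (hf.pow k) hf, ih]
  have hyan : ∀ s, AnalyticAt ℂ (y s) t₀ := fun s => an_of_deriv (hy s)
  -- derivatives
  have hDy : ∀ s, D (T (y s)) = T (u (S.lam s)) * (S.pr s).elim 1 (fun s' => T (y s')) := by
    intro s
    rw [hTder _ _ (hyan s) (hy s)]
    cases hp : S.pr s with
    | none =>
      simp only [Option.elim_none, mul_one]
    | some s' =>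
      simp only [Option.elim_some]
      exact hTmul _ _ (hu _) (hyan s')
  have hDroot : ∀ l, D (T (y (root l))) = T (u l) := by
    intro l
    rw [hDy, hr1, hr2, Option.elim_none, mul_one]
  have hyroot : ∀ l, ∀ᶠ t in 𝓝 t₀, HasDerivAt (y (root l)) (u l t) t := by
    intro l
    filter_upwards [hy (root l)] with t ht
    rwa [hr1, hr2, Option.elim_none, mul_one] at ht
  have hprimE : ∀ (c : Λ → E) (g : E), (∀ l, D (c l) = 0) → g ∈ K →
      D g = ∑ l, c l * T (u l) → ∀ l, c l = 0 := by
    intro c g hc hg hDg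
    choose c' hc' using fun l => hconst (c l) (hc l)
    have h1 : D (g - ∑ l, c l * T (y (root l))) = 0 := by
      rw [map_sub, hDg, map_sum, sub_eq_zero]
      refine Finset.sum_congr rfl fun l _ => ?_
      rw [Derivation.leibniz, hc l, smul_zero, add_zero, hDroot, smul_eq_mul]
    obtain ⟨e, he⟩ := hconst _ h1
    set G : ℂ → ℂ := fun t => ∑ l, c' l * y (root l) t with hG
    have hGan : AnalyticAt ℂ G t₀ :=
      Finset.analyticAt_fun_sum _ fun l _ => analyticAt_const.mul (hyan _)
    have hTG : T G = g - algebraMap ℂ E e := by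
      have h2 : T G = ∑ l, c l * T (y (root l)) := by
        rw [hG, hTsum Finset.univ (fun l t => c' l * y (root l) t) fun l => analyticAt_const.mul (hyan _)]
        refine Finset.sum_congr rfl fun l _ => ?_
        rw [hTmul _ _ analyticAt_const (hyan _), hTc, hc']
      rw [h2, he]; ring
    have h3 := hprim c' G (halgOn G hGan (by rw [hTG]; exact sub_mem hg (hcK e))) (by
      have h5 : ∀ᶠ t in 𝓝 t₀, ∀ l, HasDerivAt (y (root l)) (u l t) t := eventually_all.2 hyroot
      filter_upwards [h5] with t ht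
      have h4 := HasDerivAt.fun_sum (u := Finset.univ) (A := fun l t => c' l * y (root l) t)
        (A' := fun l => c' l * u l t) (x := t) fun l _ => (ht l).const_mul (c' l)
      exact h4)
    intro l
    rw [← hc' l, h3]
    simp
  -- the relation
  intro P hP
  let Y : σ → E := fun s => T (y s)
  have hval : T (fun t => MvPolynomial.eval (fun o : Option σ => o.elim t fun i => y i t) P) =
      ∑ s ∈ P.support, (algebraMap ℂ E (P.coeff s) * τ ^ (s none)) *
        MvPolynomial.aeval Y (MvPolynomial.monomial s.some (1 : ℂ)) := by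
    have h1 : (fun t => MvPolynomial.eval (fun o : Option σ => o.elim t fun i => y i t) P) =
        fun t => ∑ s ∈ P.support, (P.coeff s * (t ^ (s none) * ∏ i, y i t ^ (s (some i)))) := by
      funext t
      rw [MvPolynomial.eval_eq']
      refine Finset.sum_congr rfl fun s _ => ?_
      rw [Fintype.prod_option]
      rfl
    have hb1 : ∀ s : Option σ →₀ ℕ, AnalyticAt ℂ (fun t => ∏ i, y i t ^ (s (some i))) t₀ := fun s =>
      Finset.analyticAt_fun_prod _ fun i _ => (hyan i).pow _
    have hb2 : ∀ s : Option σ →₀ ℕ, AnalyticAt ℂ (fun t : ℂ => t ^ (s none) * ∏ i, y i t ^ (s (some i))) t₀ := fun s =>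
      (hid.pow _).mul (hb1 s)
    rw [h1, hTsum P.support (fun s t => P.coeff s * (t ^ (s none) * ∏ i, y i t ^ (s (some i))))
      fun s => analyticAt_const.mul (hb2 s)]
    refine Finset.sum_congr rfl fun s _ => ?_
    rw [hTmul _ _ analyticAt_const (hb2 s), hTc, hTmul (fun t => t ^ (s none)) _ (hid.pow _) (hb1 s),
      hTpow (fun t => t) _ hid, hTprod Finset.univ (fun i t => y i t ^ (s (some i))) fun i => (hyan i).pow _,
      MvPolynomial.aeval_monomial, map_one, one_mul, mul_assoc]
    congr 2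
    rw [Finsupp.prod_fintype _ _ (fun i => pow_zero _)]
    refine Finset.prod_congr rfl fun i _ => ?_
    rw [hTpow _ _ (hyan i), Finsupp.some_apply]
  have hzero : ∑ s ∈ P.support, (algebraMap ℂ E (P.coeff s) * τ ^ (s none)) *
        MvPolynomial.aeval Y (MvPolynomial.monomial s.some (1 : ℂ)) = 0 := by
    rw [← hval, ← hT0]
    exact hTcongr _ _ hP
  set n : ℕ := P.support.sup fun s => wtE S s.some with hn
  have hmaps : ∀ s ∈ P.support, s.some ∈ SE S n := by
    intro s hs
    rw [mem_SE]
    exact Finset.le_sup (f := fun s : Option σ →₀ ℕ => wtE S s.some) hs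
  let q : (σ →₀ ℕ) → ℂ[X] := fun e => ∑ s ∈ P.support.filter (fun s => s.some = e),
    Polynomial.monomial (s none) (P.coeff s)
  have hq : ∀ e, aeval τ (q e) = ∑ s ∈ P.support.filter (fun s => s.some = e),
      algebraMap ℂ E (P.coeff s) * τ ^ (s none) := by
    intro e
    simp only [q]
    rw [map_sum]
    refine Finset.sum_congr rfl fun s _ => ?_
    rw [aeval_monomial]
  have hrel : ∑ e ∈ SE S n, aeval τ (q e) * MvPolynomial.aeval Y (MvPolynomial.monomial e (1 : ℂ)) = 0 := by
    rw [← hzero, ← Finset.sum_fiberwise_of_maps_to hmaps]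
    refine Finset.sum_congr rfl fun e _ => ?_
    rw [hq, Finset.sum_mul]
    refine Finset.sum_congr rfl fun s hs => ?_
    rw [(Finset.mem_filter.1 hs).2]
  have hfin := towN S D K hDK hcK hconst (fun l => T (u l)) (fun l => halgK _ (hu l) (hua l)) hprimE hkerP Y
    (fun s => by
      rw [show Y s = T (y s) from rfl, hDy]) n (fun e => aeval τ (q e)) (fun e => hpK _) hrel
  ext s
  rw [MvPolynomial.coeff_zero]
  by_cases hs : s ∈ P.support
  · have h1 := (transcendental_iff.1 hτtr) _ (hfin s.some (hmaps s hs))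
    have h2 := congrArg (fun r : ℂ[X] => r.coeff (s none)) h1
    simp only [q, Polynomial.finsetSum_coeff, Polynomial.coeff_monomial, Polynomial.coeff_zero] at h2
    rw [Finset.sum_eq_single s] at h2
    · rwa [if_pos rfl] at h2
    · intro s' hs' hne
      rw [if_neg]
      intro h3
      apply hne
      ext o
      cases o with
      | none => exact h3
      | some i =>
        have h4 := (Finset.mem_filter.1 hs').2
        exact DFunLike.congr_fun h4 i
    · intro hcon
      exfalso
      apply hcon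
      rw [Finset.mem_filter]
      exact ⟨hs, rfl⟩
  · exact MvPolynomial.notMem_support_iff.1 hs

end Pool.Agent.Y900.CJ
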