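import Pool.Agent.Y900.CJ.Pts

/-!
# Branches of the complex polylogarithms near points inside and outside the unit circle
-/

set_option autoImplicit false

open Filter Set
open scoped Topology ComplexConjugate Nat

namespace Pool.Agent.Y900.CJ

/-- the polylogarithm, for `|z| < 1` -/
noncomputable def Li (m : ℕ) (z : ℂ) : ℂ := ∑' k : ℕ, z ^ (k + 1) / ((k : ℂ) + 1) ^ m

theorem li_deriv (m : ℕ) {z : ℂ} (hz : ‖z‖ < 1) :
    HasDerivAt (Li (m + 1)) (∑' k : ℕ, z ^ k / ((k : ℂ) + 1) ^ m) z := by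
  obtain ⟨ρ, hzρ, hρ1⟩ := exists_between hz
  have hρ0 : 0 < ρ := lt_of_le_of_lt (norm_nonneg _) hzρ
  have hk : ∀ k : ℕ, ((k : ℂ) + 1) ≠ 0 := fun k => Nat.cast_add_one_ne_zero k
  refine hasDerivAt_tsum_of_isPreconnected (u := fun k : ℕ => ρ ^ k) (t := Metric.ball (0 : ℂ) ρ)
    (g := fun (k : ℕ) (z : ℂ) => z ^ (k + 1) / ((k : ℂ) + 1) ^ (m + 1))
    (g' := fun (k : ℕ) (z : ℂ) => z ^ k / ((k : ℂ) + 1) ^ m) (y₀ := 0)
    (summable_geometric_of_lt_one hρ0.le hρ1) Metric.isOpen_ball (convex_ball _ _).isPreconnected ?_ ?_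
    (Metric.mem_ball_self hρ0) ?_ (by rw [mem_ball_zero_iff]; exact hzρ)
  · intro k y _
    have h1 : HasDerivAt (fun z : ℂ => z ^ (k + 1) / ((k : ℂ) + 1) ^ (m + 1))
        ((((k + 1 : ℕ) : ℂ) * y ^ k) / ((k : ℂ) + 1) ^ (m + 1)) y := by
      have h2 := hasDerivAt_pow (k + 1) y
      rw [Nat.add_sub_cancel] at h2
      exact h2.div_const _
    refine h1.congr_deriv ?_
    have := hk k
    push_cast
    rw [pow_succ]
    field_simp
  · intro k y hy
    rw [mem_ball_zero_iff] at hy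
    rw [norm_div, norm_pow, norm_pow]
    have h1 : (1 : ℝ) ≤ ‖((k : ℂ) + 1)‖ := by
      have : ((k : ℂ) + 1) = ((k + 1 : ℕ) : ℂ) := by push_cast; ring
      rw [this, Complex.norm_natCast]
      exact_mod_cast Nat.succ_le_succ (Nat.zero_le k)
    calc ‖y‖ ^ k / ‖((k : ℂ) + 1)‖ ^ m ≤ ‖y‖ ^ k :=
          div_le_self (pow_nonneg (norm_nonneg _) _) (one_le_pow₀ h1)
      _ ≤ ρ ^ k := pow_le_pow_left₀ (norm_nonneg _) hy.le k
  · have : (fun k : ℕ => (0 : ℂ) ^ (k + 1) / ((k : ℂ) + 1) ^ (m + 1)) = fun _ => 0 := by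
      funext k
      rw [zero_pow (Nat.succ_ne_zero k), zero_div]
    rw [this]
    exact summable_zero

theorem li_one_deriv {z : ℂ} (hz : ‖z‖ < 1) : HasDerivAt (Li 1) (1 / (1 - z)) z := by
  refine (li_deriv 0 hz).congr_deriv ?_
  simp only [pow_zero, div_one]
  rw [tsum_geometric_of_norm_lt_one hz, one_div]

theorem li_succ_deriv (m : ℕ) {z : ℂ} (hz : ‖z‖ < 1) (hz0 : z ≠ 0) :
    HasDerivAt (Li (m + 1)) (1 / z * Li m z) z := by
  refine (li_deriv m hz).congr_deriv ?_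
  rw [Li, ← tsum_mul_left]
  refine tsum_congr fun k => ?_
  rw [pow_succ]
  field_simp

theorem li_conj (m : ℕ) (z : ℂ) : Li m (conj z) = conj (Li m z) := by
  rw [Li, Li, Complex.conj_tsum]
  refine tsum_congr fun k => ?_
  simp

/-- a branch of the logarithm near `c` -/
noncomputable def P0 (c z : ℂ) : ℂ := Complex.log (z / c) + (Real.log ‖c‖ : ℂ)

/-- branches of the logarithm and of the polylogarithms near `c` -/
noncomputable def Pc (c : ℂ) (m : ℕ) (z : ℂ) : ℂ :=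
  if m = 0 then P0 c z else if ‖c‖ < 1 then Li m z else (-1) ^ (m - 1) * Li m z⁻¹ - P0 c z ^ m / (m ! : ℂ)

/-- a neighbourhood of `c` -/
def Uc (c : ℂ) : Set ℂ := {z | ‖z - c‖ < ‖c‖ ∧ (‖c‖ < 1 → ‖z‖ < 1) ∧ (1 < ‖c‖ → 1 < ‖z‖)}

theorem Uc_ne {c z : ℂ} (hz : z ∈ Uc c) : c ≠ 0 ∧ z ≠ 0 := by
  have h1 : ‖z - c‖ < ‖c‖ := hz.1
  refine ⟨?_, ?_⟩
  · rintro rfl
    rw [norm_zero] at h1
    exact absurd h1 (not_lt.2 (norm_nonneg _))
  · rintro rfl
    rw [zero_sub, norm_neg] at h1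
    exact lt_irrefl _ h1

theorem Uc_slit {c z : ℂ} (hz : z ∈ Uc c) : z / c ∈ Complex.slitPlane := by
  obtain ⟨hc, -⟩ := Uc_ne hz
  have h1 : ‖z - c‖ < ‖c‖ := hz.1
  have h2 : ‖z / c - 1‖ < 1 := by
    have h3 : z / c - 1 = (z - c) / c := by rw [sub_div, div_self hc]
    rw [h3, norm_div, div_lt_one (norm_pos_iff.2 hc)]
    exact h1
  rw [Complex.mem_slitPlane_iff]
  left
  have h4 := (Complex.abs_re_le_norm (z / c - 1)).trans_lt h2
  rw [Complex.sub_re, Complex.one_re, abs_lt] at h4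
  linarith [h4.1]

theorem P0_deriv {c z : ℂ} (hz : z ∈ Uc c) : HasDerivAt (P0 c) (1 / z) z := by
  obtain ⟨hc, hz0⟩ := Uc_ne hz
  have h1 : HasDerivAt (fun x : ℂ => x / c) (1 / c) z := (hasDerivAt_id z).div_const c
  have h2 := (h1.clog (Uc_slit hz)).add_const ((Real.log ‖c‖ : ℝ) : ℂ)
  refine h2.congr_deriv ?_
  field_simp

theorem P0_re {c z : ℂ} (hz : z ∈ Uc c) : (P0 c z).re = Real.log ‖z‖ := by
  obtain ⟨hc, hz0⟩ := Uc_ne hz
  rw [P0, Complex.add_re, Complex.log_re, Complex.ofReal_re, norm_div,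
    Real.log_div (norm_ne_zero_iff.2 hz0) (norm_ne_zero_iff.2 hc)]
  ring

theorem P0_conj {c z : ℂ} (hz : z ∈ Uc c) : P0 (conj c) (conj z) = conj (P0 c z) := by
  rw [P0, P0, map_add, Complex.conj_ofReal, RCLike.norm_conj, ← map_div₀, Complex.log_conj]
  exact Complex.slitPlane_arg_ne_pi (Uc_slit hz)

theorem Pc_conj {c z : ℂ} (hz : z ∈ Uc c) (m : ℕ) : Pc (conj c) m (conj z) = conj (Pc c m z) := by
  rw [Pc, Pc, RCLike.norm_conj]
  split_ifs with h1 h2
  · exact P0_conj hz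
  · exact li_conj m z
  · rw [P0_conj hz, ← map_inv₀, li_conj]
    simp

theorem polySys_Pc {c : ℂ} (hc1 : ‖c‖ ≠ 1) : PolySys (Uc c) (Pc c) := by
  by_cases hin : ‖c‖ < 1
  · have hm : ∀ m, 1 ≤ m → Pc c m = Li m := by
      intro m hm
      funext z
      rw [Pc, if_neg (by omega), if_pos hin]
    refine ⟨fun z hz => ?_, fun z hz => ?_, fun m h1 z hz => ?_⟩
    · have : Pc c 0 = P0 c := by funext z; rw [Pc, if_pos rfl]
      rw [this]
      exact P0_deriv hz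
    · rw [hm 1 le_rfl]
      exact li_one_deriv (hz.2.1 hin)
    · rw [hm m h1, hm (m + 1) (by omega)]
      exact li_succ_deriv m (hz.2.1 hin) (Uc_ne hz).2
  · have hout : 1 < ‖c‖ := lt_of_le_of_ne (not_lt.1 hin) (Ne.symm hc1)
    have hm : ∀ m, 1 ≤ m → Pc c m = fun z => (-1) ^ (m - 1) * Li m z⁻¹ - P0 c z ^ m / (m ! : ℂ) := by
      intro m hm
      funext z
      rw [Pc, if_neg (by omega), if_neg hin]
    have hinv : ∀ z ∈ Uc c, ‖z⁻¹‖ < 1 ∧ z⁻¹ ≠ 0 := by
      intro z hz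
      refine ⟨?_, inv_ne_zero (Uc_ne hz).2⟩
      rw [norm_inv]
      exact inv_lt_one_of_one_lt₀ (hz.2.2 hout)
    refine ⟨fun z hz => ?_, fun z hz => ?_, fun m h1 z hz => ?_⟩
    · have : Pc c 0 = P0 c := by funext z; rw [Pc, if_pos rfl]
      rw [this]
      exact P0_deriv hz
    · rw [hm 1 le_rfl]
      have hz0 := (Uc_ne hz).2
      have h2 := (li_one_deriv (hinv z hz).1).comp z (hasDerivAt_inv hz0)
      have h3 := (h2.const_mul ((-1 : ℂ) ^ (1 - 1))).sub (((P0_deriv hz).pow 1).div_const ((1 ! : ℕ) : ℂ))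
      refine h3.congr_deriv ?_
      have h4 : z - 1 ≠ 0 := by
        intro h
        have h5 := hz.2.2 hout
        rw [sub_eq_zero.1 h, norm_one] at h5
        exact lt_irrefl _ h5
      have h6 : (1 : ℂ) - z ≠ 0 := by
        intro h
        exact h4 (by linear_combination -h)
      have h7 : (1 : ℂ) - z⁻¹ = (z - 1) / z := by field_simp
      rw [h7]
      simp only [Nat.sub_self, pow_zero, Nat.factorial_one, Nat.cast_one, div_one, one_mul, one_div]
      field_simp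
      ring
    · rw [hm m h1, hm (m + 1) (by omega)]
      have hz0 := (Uc_ne hz).2
      have h2 := (li_succ_deriv m (hinv z hz).1 (hinv z hz).2).comp z (hasDerivAt_inv hz0)
      have h3 := (h2.const_mul ((-1 : ℂ) ^ (m + 1 - 1))).sub
        (((P0_deriv hz).pow (m + 1)).div_const (((m + 1) ! : ℕ) : ℂ))
      refine h3.congr_deriv ?_
      obtain ⟨k, rfl⟩ : ∃ k, m = k + 1 := ⟨m - 1, by omega⟩
      have h4 : (((k + 1) ! : ℕ) : ℂ) ≠ 0 := by exact_mod_cast Nat.factorial_ne_zero _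
      have h5 : (((k + 1 + 1) ! : ℕ) : ℂ) = ((k : ℂ) + 1 + 1) * (((k + 1) ! : ℕ) : ℂ) := by
        rw [Nat.factorial_succ (k + 1)]
        push_cast
        ring
      have h6 : ((k : ℂ) + 1 + 1) ≠ 0 := by
        have := Nat.cast_add_one_ne_zero (R := ℂ) (k + 1)
        push_cast at this
        exact this
      rw [h5]
      simp only [Nat.add_sub_cancel]
      push_cast
      rw [pow_succ (-1 : ℂ) k]
      field_simp

theorem isOpen_Uc {c : ℂ} (hc1 : ‖c‖ ≠ 1) : IsOpen (Uc c) := by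
  have h0 : IsOpen {z : ℂ | ‖z - c‖ < ‖c‖} :=
    isOpen_lt (continuous_id.sub continuous_const).norm continuous_const
  rcases lt_or_gt_of_ne hc1 with h | h
  · have h1 : Uc c = {z : ℂ | ‖z - c‖ < ‖c‖} ∩ {z | ‖z‖ < 1} := by
      ext z
      simp [Uc, h, not_lt.2 h.le]
    rw [h1]
    exact h0.inter (isOpen_lt continuous_norm continuous_const)
  · have h1 : Uc c = {z : ℂ | ‖z - c‖ < ‖c‖} ∩ {z | 1 < ‖z‖} := by
      ext z
      simp [Uc, h, not_lt.2 h.le]
    rw [h1]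
    exact h0.inter (isOpen_lt continuous_const continuous_norm)

theorem mem_Uc {c : ℂ} (hc : c ≠ 0) : c ∈ Uc c := by
  refine ⟨?_, id, id⟩
  rw [sub_self, norm_zero]
  exact norm_pos_iff.2 hc

end Pool.Agent.Y900.CJ
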