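import Pool.Agent.Y900.CJ.Alg
import Pool.Agent.Y900.HY.Lin

/-!
# Products of iterated primitives with jointly independent differentials
-/

set_option autoImplicit false

open Filter Set Polynomial
open scoped Topology

namespace Pool.Agent.Y900.CJ

open Pool.Agent.Y900.HY (germC alg_iff AlgAt an_eval an_of_deriv)

theorem der_prod {R E ι : Type*} [CommRing R] [CommRing E] [Algebra R E] [DecidableEq ι] (D : Derivation R E E)
    (s : Finset ι) (f : ι → E) : D (∏ i ∈ s, f i) = ∑ i ∈ s, (∏ j ∈ s.erase i, f j) * D (f i) := by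
  induction s using Finset.induction_on with
  | empty => simp
  | insert a s ha ih =>
    rw [Finset.prod_insert ha, Derivation.leibniz, ih, Finset.sum_insert ha, Finset.erase_insert ha, smul_eq_mul,
      smul_eq_mul, add_comm, Finset.mul_sum]
    congr 1
    refine Finset.sum_congr rfl fun i hi => ?_
    have hai : a ≠ i := fun h => ha (h ▸ hi)
    rw [Finset.erase_insert_of_ne hai, Finset.prod_insert (fun h => ha (Finset.mem_of_mem_erase h)), mul_assoc]

variable {κ : Type} [Fintype κ] [DecidableEq κ] {d : ℕ}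

theorem lin_indM (t₀ : ℂ) {u : Fin d → κ → ℂ → ℂ} (hu : ∀ i k, AnalyticAt ℂ (u i k) t₀)
    (hua : ∀ i k, AlgAt t₀ (u i k))
    (hprim : ∀ (c : Fin d → κ → ℂ) (g : ℂ → ℂ), AlgAt t₀ g →
      (∀ᶠ t in 𝓝 t₀, HasDerivAt g (∑ i, ∑ k, c i k * u i k t) t) → c = 0)
    {I : Fin d → List κ → ℂ → ℂ} (hI0 : ∀ i, ∀ᶠ t in 𝓝 t₀, I i [] t = 1)
    (hI : ∀ i k w, ∀ᶠ t in 𝓝 t₀, HasDerivAt (I i (k :: w)) (u i k t * I i w t) t) (W : ℕ)
    (p : (Fin d → List κ) → ℂ[X])
    (hp : ∀ᶠ t in 𝓝 t₀, ∑ m ∈ MW d κ W, (p m).eval t * ∏ i, I i (m i) t = 0) :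
    ∀ m ∈ MW d κ W, p m = 0 := by
  classical
  obtain ⟨E, _, _, D, T, hconst, hTc, hTadd, hTmul, hTder, hTinj, hTcongr⟩ := germC t₀
  have : CharZero E := charZero_of_injective_algebraMap (algebraMap ℂ E).injective
  set τ : E := T (fun s => s) with hτ
  have hid : AnalyticAt ℂ (fun s : ℂ => s) t₀ := analyticAt_id
  have hT0 : T (fun _ => 0) = 0 := by rw [hTc, map_zero]
  have hT1 : T (fun _ => 1) = 1 := by rw [hTc, map_one]
  have hDτ : D τ = 1 := by
    rw [hτ, hTder _ (fun _ => 1) hid (Eventually.of_forall fun s => hasDerivAt_id s), hT1]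
  have hpolyan : ∀ P : ℂ[X], AnalyticAt ℂ (fun s => P.eval s) t₀ := fun P =>
    AnalyticOnNhd.eval_polynomial P t₀ (mem_univ _)
  have hpoly : ∀ P : ℂ[X], T (fun s => P.eval s) = aeval τ P := by
    intro P
    induction P using Polynomial.induction_on with
    | C x => simp only [eval_C, aeval_C]; exact hTc x
    | add P Q hP hQ =>
      simp only [eval_add, map_add]
      rw [hTadd _ _ (hpolyan P) (hpolyan Q), hP, hQ]
    | monomial n x ih =>
      have h1 : (fun s => (C x * X ^ (n + 1)).eval s) = fun s => (C x * X ^ n).eval s * s := by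
        funext s
        rw [pow_succ, ← mul_assoc, eval_mul, eval_X]
      rw [h1, hTmul _ _ (hpolyan _) hid, ih, pow_succ, ← mul_assoc, map_mul _ _ X, aeval_X]
  have hmv : ∀ (f : ℂ → ℂ), AnalyticAt ℂ f t₀ → ∀ P : MvPolynomial (Fin 2) ℂ,
      T (fun s => MvPolynomial.eval ![s, f s] P) = MvPolynomial.aeval ![τ, T f] P := by
    intro f hf P
    induction P using MvPolynomial.induction_on with
    | C x => simp only [MvPolynomial.eval_C, MvPolynomial.aeval_C]; exact hTc x
    | add P Q hP hQ =>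
      simp only [map_add]
      rw [hTadd _ _ (an_eval hf P) (an_eval hf Q), hP, hQ]
    | mul_X P i ih =>
      simp only [map_mul, MvPolynomial.eval_X, MvPolynomial.aeval_X]
      rw [hTmul _ _ (an_eval hf P) (by fin_cases i; exacts [hid, hf]), ih]
      congr 1
      fin_cases i <;> rfl
  have hτtr : Transcendental ℂ τ := by
    rw [transcendental_iff]
    intro P hP
    rw [← hpoly] at hP
    have h1 := hTinj _ (hpolyan P) hP
    exact Polynomial.eq_zero_of_infinite_isRoot P (infinite_of_mem_nhds t₀ h1)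
  -- the field
  set L : IntermediateField ℂ E := IntermediateField.adjoin ℂ {τ} with hL
  set K : Subfield E := (algebraicClosure L E).toSubfield with hK
  have hmemK : ∀ x, x ∈ K ↔ IsAlgebraic L x := fun x => mem_algebraicClosure_iff
  have hLD : ∀ y ∈ L, D y ∈ L := Pool.Agent.W417.HP.der_mem D {τ} (by
    rintro s rfl
    rw [hDτ]; exact one_mem _)
  have hDK : ∀ x ∈ K, D x ∈ K := fun x hx =>
    (hmemK _).2 (Pool.Agent.W417.HP.der_alg D L hLD ((hmemK _).1 hx))
  have hLK : ∀ y ∈ L, y ∈ K := fun y hy =>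
    (hmemK _).2 (isAlgebraic_algebraMap (⟨y, hy⟩ : L))
  have hcK : ∀ c : ℂ, algebraMap ℂ E c ∈ K := fun c => hLK _ (L.algebraMap_mem c)
  have hτK : τ ∈ K := hLK _ (IntermediateField.mem_adjoin_simple_self ℂ τ)
  have hpK : ∀ P : ℂ[X], aeval τ P ∈ K := by
    intro P
    rw [aeval_eq_sum_range]
    refine sum_mem fun i _ => ?_
    rw [Algebra.smul_def]
    exact mul_mem (hcK _) (pow_mem hτK _)
  have halgK : ∀ f : ℂ → ℂ, AnalyticAt ℂ f t₀ → AlgAt t₀ f → T f ∈ K := by
    rintro f hf ⟨P, hP0, hP⟩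
    rw [hmemK, hL, alg_iff hτtr]
    refine ⟨P, hP0, ?_⟩
    rw [← hmv f hf, ← hT0]
    exact hTcongr _ _ hP
  have halgOn : ∀ f : ℂ → ℂ, AnalyticAt ℂ f t₀ → T f ∈ K → AlgAt t₀ f := by
    intro f hf hfK
    rw [hmemK, hL, alg_iff hτtr] at hfK
    obtain ⟨P, hP0, hP⟩ := hfK
    refine ⟨P, hP0, ?_⟩
    rw [← hmv f hf] at hP
    exact hTinj _ (an_eval hf P) hP
  -- sums and products
  have hTsum : ∀ {ι : Type} (s : Finset ι) (f : ι → ℂ → ℂ), (∀ i, AnalyticAt ℂ (f i) t₀) →
      T (fun t => ∑ i ∈ s, f i t) = ∑ i ∈ s, T (f i) := by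
    intro ι s f hf
    classical
    induction s using Finset.induction_on with
    | empty => simp only [Finset.sum_empty]; exact hT0
    | insert i s hi ih =>
      simp only [Finset.sum_insert hi]
      rw [hTadd _ _ (hf i) (Finset.analyticAt_fun_sum _ fun i _ => hf i), ih]
  have hTprod : ∀ {ι : Type} (s : Finset ι) (f : ι → ℂ → ℂ), (∀ i, AnalyticAt ℂ (f i) t₀) →
      T (fun t => ∏ i ∈ s, f i t) = ∏ i ∈ s, T (f i) := by
    intro ι s f hf
    classical
    induction s using Finset.induction_on with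
    | empty => simp only [Finset.prod_empty]; exact hT1
    | insert i s hi ih =>
      simp only [Finset.prod_insert hi]
      rw [hTmul _ _ (hf i) (Finset.analyticAt_fun_prod _ fun i _ => hf i), ih]
  have hIan : ∀ i w, AnalyticAt ℂ (I i w) t₀ := by
    intro i w
    cases w with
    | nil => exact (analyticAt_const (v := (1 : ℂ))).congr ((hI0 i).mono fun s hs => hs.symm)
    | cons k w => exact an_of_deriv (hI i k w)
  -- primitives
  have hUfd : ∀ i k, ∀ᶠ t in 𝓝 t₀, HasDerivAt (I i [k]) (u i k t) t := by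
    intro i k
    filter_upwards [hI i k [], hI0 i] with t h1 h2
    rwa [h2, mul_one] at h1
  have hDU : ∀ i k, D (T (I i [k])) = T (u i k) := fun i k => hTder _ _ (hIan _ _) (hUfd i k)
  have hYc : ∀ i k w, D (T (I i (k :: w))) = T (u i k) * T (I i w) := by
    intro i k w
    rw [← hTmul _ _ (hu i k) (hIan i w)]
    exact hTder _ _ (hIan _ _) (hI i k w)
  have hYn : ∀ i, T (I i []) = 1 := by
    intro i
    rw [← hT1]
    exact hTcongr _ _ (hI0 i)
  set Y : (Fin d → List κ) → E := fun m => ∏ i, T (I i (m i)) with hYdef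
  have hY0 : ∀ m, tl m = 0 → Y m = 1 := by
    intro m hm
    refine Finset.prod_eq_one fun i _ => ?_
    have h1 := length_le_tl m i
    have h2 : m i = [] := List.length_eq_zero_iff.1 (by omega)
    rw [h2, hYn]
  have hY : ∀ m, D (Y m) = ∑ i, dpart (fun i k => T (u i k)) Y i m := by
    intro m
    simp only [hYdef]
    rw [der_prod]
    refine Finset.sum_congr rfl fun i _ => ?_
    cases hmi : m i with
    | nil => rw [dpart_nil _ _ hmi, hYn, D.map_one_eq_zero, mul_zero]
    | cons k v =>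
      rw [dpart_cons _ _ hmi, hYc]
      have h1 : ∏ j, T (I j (Function.update m i v j)) =
          (∏ j ∈ Finset.univ.erase i, T (I j (m j))) * T (I i v) := by
        rw [← Finset.prod_erase_mul Finset.univ _ (Finset.mem_univ i), Function.update_self]
        congr 1
        refine Finset.prod_congr rfl fun j hj => ?_
        rw [Function.update_of_ne (Finset.ne_of_mem_erase hj)]
      rw [h1]
      ring
  have hprimE : ∀ (c : Fin d → κ → E) (g : E), (∀ i k, c i k ∈ K) → (∀ i k, D (c i k) = 0) → g ∈ K →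
      D g = ∑ i, ∑ k, c i k * T (u i k) → ∀ i k, c i k = 0 := by
    intro c g _ hc hg hDg
    choose c' hc' using fun i k => hconst (c i k) (hc i k)
    have h1 : D (g - ∑ i, ∑ k, c i k * T (I i [k])) = 0 := by
      rw [map_sub, hDg, map_sum, sub_eq_zero]
      refine Finset.sum_congr rfl fun i _ => ?_
      rw [map_sum]
      refine Finset.sum_congr rfl fun k _ => ?_
      rw [Derivation.leibniz, hc i k, smul_zero, add_zero, hDU, smul_eq_mul]
    obtain ⟨e, he⟩ := hconst _ h1
    set G : ℂ → ℂ := fun t => ∑ i, ∑ k, c' i k * I i [k] t with hG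
    have hGan1 : ∀ i, AnalyticAt ℂ (fun t => ∑ k, c' i k * I i [k] t) t₀ := fun i =>
      Finset.analyticAt_fun_sum _ fun k _ => analyticAt_const.mul (hIan _ _)
    have hGan : AnalyticAt ℂ G t₀ :=
      Finset.analyticAt_fun_sum _ fun i _ => hGan1 i
    have hTG : T G = g - algebraMap ℂ E e := by
      have h2 : T G = ∑ i, ∑ k, c i k * T (I i [k]) := by
        rw [hG, hTsum Finset.univ (fun i t => ∑ k, c' i k * I i [k] t) hGan1]
        refine Finset.sum_congr rfl fun i _ => ?_
        rw [hTsum Finset.univ (fun k t => c' i k * I i [k] t) fun k => analyticAt_const.mul (hIan _ _)]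
        refine Finset.sum_congr rfl fun k _ => ?_
        rw [hTmul _ _ analyticAt_const (hIan _ _), hTc, hc']
      rw [h2, he]; ring
    have h3 := hprim c' G (halgOn G hGan (by rw [hTG]; exact sub_mem hg (hcK e))) (by
      have h5 : ∀ᶠ t in 𝓝 t₀, ∀ i k, HasDerivAt (I i [k]) (u i k t) t :=
        eventually_all.2 fun i => eventually_all.2 (hUfd i)
      filter_upwards [h5] with t ht
      have h4 := HasDerivAt.fun_sum (u := Finset.univ) (A := fun i t => ∑ k, c' i k * I i [k] t)
        (A' := fun i => ∑ k, c' i k * u i k t) (x := t) fun i _ =>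
          HasDerivAt.fun_sum (u := Finset.univ) (A := fun k t => c' i k * I i [k] t)
            (A' := fun k => c' i k * u i k t) (x := t) fun k _ => (ht i k).const_mul (c' i k)
      exact h4)
    intro i k
    rw [← hc' i k, h3]
    simp
  -- the relation
  have hPan : ∀ m : Fin d → List κ, AnalyticAt ℂ (fun t => ∏ i, I i (m i) t) t₀ := fun m =>
    Finset.analyticAt_fun_prod _ fun i _ => hIan i (m i)
  have hrel : ∑ m ∈ MW d κ W, aeval τ (p m) * Y m = 0 := by
    have h1 : T (fun t => ∑ m ∈ MW d κ W, (p m).eval t * ∏ i, I i (m i) t) = 0 := by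
      rw [← hT0]
      exact hTcongr _ _ hp
    rw [hTsum _ (fun m t => (p m).eval t * ∏ i, I i (m i) t) fun m => (hpolyan (p m)).mul (hPan m)] at h1
    rw [← h1]
    refine Finset.sum_congr rfl fun m _ => ?_
    rw [hTmul (fun t => (p m).eval t) (fun t => ∏ i, I i (m i) t) (hpolyan _) (hPan m), hpoly,
      hTprod Finset.univ (fun i => I i (m i)) fun i => hIan i (m i)]
  have hg0 := indepM D K hDK (fun i k => T (u i k)) (fun i k => halgK _ (hu i k) (hua i k)) hprimE
    Y hY0 hY W (fun m => aeval τ (p m)) (fun m => hpK _) hrel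
  intro m hm
  exact (transcendental_iff.1 hτtr) _ (hg0 m hm)

end Pool.Agent.Y900.CJ
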