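import Pool.Agent.Y900.CJ.Zag
import Pool.Agent.Y900.CJ.Count
import Pool.Agent.Y124.NFW

/-!
# Single-valued polylogarithms at all conjugates of almost all points of number fields
-/

set_option autoImplicit false

open Filter Set NumberField
open scoped Topology ComplexConjugate Nat

namespace Pool.Agent.Y900.CJ

open Pool.Agent.Y900.PV (LinP)
open Pool.Agent.Y124 (RelK relK_of_poly' mgR)

theorem LinP.mono {g : ℕ} {P₀ Ω : Type} [Fintype Ω] {L L' : Set (P₀ × ℂ)} {Φ : Ω → P₀ → ℂ → ℂ} (h : LinP g L Φ)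
    (hL : L' ⊆ L) : LinP g L' Φ := by
  intro h' _ _ A ε hε
  obtain ⟨B, C, T2, hC, hT2, H⟩ := h h' A ε hε
  refine ⟨B, C, T2, hC, hT2, fun T hT R hR ξ z Y hY => H T hT R hR ξ z Y fun t ht => ?_⟩
  obtain ⟨h1, h2, h3⟩ := hY t ht
  exact ⟨hL h1, h2, h3⟩

/-- twisting a relation by powers of `I` -/
theorem relK_twist {h Ω : Type} [Fintype h] [Fintype Ω] (E : Type) [Field E] [NumberField E] (io : E →+* ℂ)
    (ξ : h → ℂ) (v v' : Ω → ℂ) (N : Ω → ℕ) (hv : ∀ w, v' w = Complex.I ^ N w * v w) (H δ : ℝ) (hH : 0 ≤ H)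
    (hr : RelK E io ξ v H δ) : RelK E io (fun p : h × Fin 4 => ξ p.1 * Complex.I ^ (p.2 : ℕ)) v' H δ := by
  classical
  obtain ⟨c, hc, l₀, hl₀, hs⟩ := hr
  let κ : Ω → Fin 4 := fun w => ⟨(4 - N w % 4) % 4, Nat.mod_lt _ (by norm_num)⟩
  have hκ : ∀ w, Complex.I ^ (κ w : ℕ) * Complex.I ^ N w = 1 := by
    intro w
    rw [← pow_add]
    have h1 : ∃ j, (κ w : ℕ) + N w = 4 * j := by
      refine ⟨((κ w : ℕ) + N w) / 4, ?_⟩
      show (4 - N w % 4) % 4 + N w = 4 * (((4 - N w % 4) % 4 + N w) / 4)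
      omega
    obtain ⟨j, hj⟩ := h1
    rw [hj, pow_mul, Complex.I_pow_four, one_pow]
  let c' : Ω → h × Fin 4 → 𝓞 E := fun w p => if p.2 = κ w then c w p.1 else 0
  have hsum : ∀ w, ∑ p : h × Fin 4, (ξ p.1 * Complex.I ^ (p.2 : ℕ)) * io (c' w p : E) =
      Complex.I ^ (κ w : ℕ) * ∑ s, ξ s * io (c w s : E) := by
    intro w
    rw [Fintype.sum_prod_type, Finset.mul_sum]
    refine Finset.sum_congr rfl fun s _ => ?_
    rw [Finset.sum_eq_single (κ w)]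
    · simp only [c', if_true]
      ring
    · intro k _ hk
      simp only [c']
      rw [if_neg hk]
      simp
    · intro hcon
      exact absurd (Finset.mem_univ _) hcon
  refine ⟨c', ?_, l₀, ?_, ?_⟩
  · intro w p ph
    simp only [c']
    split_ifs
    · exact hc w p.1 ph
    · simpa using hH
  · rw [hsum]
    exact mul_ne_zero (pow_ne_zero _ Complex.I_ne_zero) hl₀
  · rw [hsum, norm_mul, norm_pow, Complex.norm_I, one_pow, one_mul]
    have h2 : ∑ w, (∑ p : h × Fin 4, (ξ p.1 * Complex.I ^ (p.2 : ℕ)) * io (c' w p : E)) * v' w =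
        ∑ w, (∑ s, ξ s * io (c w s : E)) * v w := by
      refine Finset.sum_congr rfl fun w _ => ?_
      rw [hsum, hv]
      calc Complex.I ^ (κ w : ℕ) * (∑ s, ξ s * io (c w s : E)) * (Complex.I ^ N w * v w)
          = (Complex.I ^ (κ w : ℕ) * Complex.I ^ N w) * ((∑ s, ξ s * io (c w s : E)) * v w) := by ring
        _ = _ := by rw [hκ, one_mul]
    rw [h2]
    exact hs

/-- the region -/
def Gr {ι : Type} : Set (ι → ℂ) :=
  {z | (∀ i, z i ≠ 0 ∧ ‖z i‖ ≠ 1) ∧ ∀ i j, i ≠ j → z i ≠ z j ∧ z i ≠ z j + 1}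

theorem mem_Reg_of_Gr {ι : Type} {z : ι → ℂ} (hz : z ∈ (Gr : Set (ι → ℂ))) : z ∈ Reg fun i => Uc (z i) := by
  refine ⟨fun i => ⟨mem_Uc (hz.1 i).1, (hz.1 i).1, ?_⟩, hz.2⟩
  intro h
  exact (hz.1 i).2 (by rw [h, norm_one])

/-- the twisted values -/
noncomputable def PsiZ {ι : Type} {q dg : ℕ} (pl : Fin q → ι) (wt : Fin q → ℕ) (w : Fin q → Fin (dg + 1)) (z : ι → ℂ) : ℂ :=
  ∏ a, ((if Even (wt a) then Complex.I else 1) * (LL (wt a) (z (pl a)) : ℂ)) ^ (w a : ℕ)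

theorem zag_main {D q : ℕ} (hD : 0 < D) (cj : Fin D → Fin D) (pl : Fin q → Fin D) (wt : Fin q → ℕ)
    (hw : ∀ a, 1 ≤ wt a) (hinj : ∀ a b, pl a = pl b → wt a = wt b → a = b)
    (hcj : ∀ a b, cj (pl a) = pl b → wt a = wt b → a = b ∧ Odd (wt a)) (K : Set (Fin D → ℂ)) (hK : IsCompact K)
    (hKG : K ⊆ Gr) (m r e dg : ℕ) (h : Type) [Fintype h] [DecidableEq h] (A ε : ℝ) (hε : 0 < ε) :
    ∃ B C T₀ : ℝ, 0 ≤ C ∧ 2 ≤ T₀ ∧ ∀ (E : Type) [Field E] [NumberField E], Module.finrank ℚ E ≤ m →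
      ∀ (io : E →+* ℂ) (ξ : h → ℂ) (ω : Fin e → Fin D → ℂ) (T : ℝ), T₀ ≤ T →
      ∀ Ex : Set (Fin r → ℤ × (Fin e → ℤ) × ℕ), (∀ v ∈ Ex, (∀ j, v j ∈ Box e T ∧ zpt ω (v j) ∈ K ∧
        ∀ i, zpt ω (v j) (cj i) = conj (zpt ω (v j) i)) ∧
        RelK E io ξ (fun w : Fin r → Fin q → Fin (dg + 1) => ∏ j, PsiZ pl wt (w j) (zpt ω (v j))) (T ^ A) (T ^ (-B))) →
      Ex.Finite ∧ (Ex.ncard : ℝ) ≤ C * T ^ ((r : ℝ) * (e + 2) - 1 + ε) := by
  classical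
  have : Nonempty (Fin D) := ⟨⟨0, hD⟩⟩
  -- the weights
  obtain ⟨n, hn1, hn⟩ : ∃ n : ℕ, 1 ≤ n ∧ ∀ a, wt a ≤ n := by
    refine ⟨max (Finset.univ.sup wt) 1, le_max_right _ _, fun a => ?_⟩
    exact (Finset.le_sup (f := wt) (Finset.mem_univ a)).trans (le_max_left _ _)
  set K' : Set (Fin D → ℂ) := K ∩ {z | ∀ i, z (cj i) = conj (z i)} with hK'
  have hcl : IsClosed {z : Fin D → ℂ | ∀ i, z (cj i) = conj (z i)} := by
    have h1 : {z : Fin D → ℂ | ∀ i, z (cj i) = conj (z i)} = ⋂ i, {z : Fin D → ℂ | z (cj i) = conj (z i)} := by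
      ext z
      simp
    rw [h1]
    refine isClosed_iInter fun i => isClosed_eq (continuous_apply _) ?_
    exact Complex.continuous_conj.comp (continuous_apply i)
  have hK'c : IsCompact K' := hK.inter_right hcl
  -- radii
  have hrad : ∀ c ∈ K', ∃ ρ : ℝ, 0 < ρ ∧ Metric.ball c ρ ⊆ Reg fun i => Uc (c i) := by
    intro c hc
    have hcG := hKG hc.1
    exact Metric.isOpen_iff.1 (isOpen_Reg fun i => isOpen_Uc (hcG.1 i).2) c (mem_Reg_of_Gr hcG)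
  choose! ρ hρ0 hρ using hrad
  obtain ⟨FF, hFF, hcov⟩ := hK'c.elim_nhds_subcover (fun c => Metric.ball c (ρ c / 4)) fun c hc =>
    Metric.ball_mem_nhds _ (by have := hρ0 c hc; positivity)
  obtain ⟨δ, hδ, hδρ⟩ : ∃ δ : ℝ, 0 < δ ∧ ∀ c ∈ FF, δ ≤ ρ c / 4 := by
    rcases FF.eq_empty_or_nonempty with he | hne
    · exact ⟨1, one_pos, fun c hc => by rw [he] at hc; exact absurd hc (Finset.notMem_empty _)⟩
    · obtain ⟨c₀, hc₀, hmin⟩ := Finset.exists_min_image FF (fun c => ρ c / 4) hne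
      exact ⟨ρ c₀ / 4, by have := hρ0 c₀ (hFF c₀ hc₀); positivity, fun c hc => hmin c hc⟩
  -- the local data
  let Kc : (Fin D → ℂ) → Set (Fin D → ℂ) := fun c => K' ∩ Metric.closedBall c (ρ c / 4)
  have hKc : ∀ c, IsCompact (Kc c) := fun c => hK'c.inter_right Metric.isClosed_closedBall
  let Φ : (Fin D → ℂ) → (Fin q → Fin (dg + 1)) → (Fin D → ℂ) → ℂ → ℂ := fun c w s t =>
    MvPolynomial.aeval (fun x : Fin D × Fin (n + 1) => Pc (c x.1) x.2 (s x.1 + t))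
      (∏ a, pa n (oo c) cj (pl a) (wt a) ^ (w a : ℕ))
  have hreg : ∀ c ∈ FF, ∀ s ∈ Kc c, ∀ t : ℂ, ‖t‖ ≤ δ → (fun i => s i + t) ∈ Reg fun i => Uc (c i) := by
    intro c hc s hs t ht
    refine hρ c (hFF c hc) ?_
    have hρc := hρ0 c (hFF c hc)
    rw [Metric.mem_ball, dist_pi_lt_iff hρc]
    intro i
    have h1 : dist (s i) (c i) ≤ ρ c / 4 := (dist_le_pi_dist s c i).trans hs.2
    have h2 : dist (s i + t) (c i) ≤ dist (s i) (c i) + ‖t‖ := by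
      rw [dist_eq_norm, dist_eq_norm]
      calc ‖s i + t - c i‖ = ‖(s i - c i) + t‖ := by ring_nf
        _ ≤ _ := norm_add_le _ _
    have h3 := hδρ c hc
    linarith
  have hlin : ∀ g, ∀ c ∈ FF, LinP g (Kc c ×ˢ Metric.closedBall 0 δ) (Φ c) := by
    intro g c hc
    have hcG := hKG (hFF c hc).1
    refine linP_poly g hn1 (fun i => isOpen_Uc (hcG.1 i).2) (fun i => polySys_Pc (hcG.1 i).2)
      ((hKc c).prod (isCompact_closedBall _ _)) ?_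
      (zag_indep (n := n) (oo c) cj (fun a => ⟨hw a, hn a⟩) hinj hcj dg)
    rintro ⟨s, t⟩ ⟨hs, ht⟩
    exact hreg c hc s hs t (mem_closedBall_zero_iff.1 ht)
  have hΨ : ∀ c ∈ FF, ∀ w, ∀ s ∈ Kc c, ∀ x : ℚ, (fun i => s i + (x : ℂ)) ∈ Kc c →
      PsiZ pl wt w (fun i => s i + (x : ℂ)) = Φ c w s (x : ℂ) := by
    intro c hc w s _ x hx
    have hcK := hFF c hc
    have hcG := hKG hcK.1
    have hz : (fun i => s i + (x : ℂ)) ∈ Reg fun i => Uc (c i) := by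
      have h1 := hreg c hc _ hx 0 (by rw [norm_zero]; exact hδ.le)
      simpa using h1
    simp only [PsiZ, Φ]
    rw [map_prod]
    refine Finset.prod_congr rfl fun a _ => ?_
    rw [map_pow]
    congr 1
    exact (pa_eval cj (z := fun i => s i + (x : ℂ)) (fun i => (hcG.1 i).2) (fun i => (hz.1 i).1)
      (fun i => hx.1.2 i) (fun i => hcK.2 i) (pl a) (wt a) (hn a)).symm
  -- the counting theorem
  have hcount := fun b : Fin r → FF => count m r e (fun j => Kc (b j)) (fun j => hKc _) δ hδ (fun j => Φ (b j))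
    (fun g j => hlin g _ (b j).2) (PsiZ pl wt) (fun j w s hs x hx => hΨ _ (b j).2 w s hs x hx) h A ε hε
  choose Bf Cf Tf hCf hTf Hf using hcount
  refine ⟨∑ b, |Bf b|, ∑ b, Cf b, 2 + ∑ b, Tf b, Finset.sum_nonneg fun b _ => hCf b, ?_, ?_⟩
  · have : 0 ≤ ∑ b, Tf b := Finset.sum_nonneg fun b _ => by linarith [hTf b]
    linarith
  intro E _ _ hm io ξ ω T hT Ex hEx
  have hTs : 0 ≤ ∑ b, Tf b := Finset.sum_nonneg fun b _ => by linarith [hTf b]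
  have hT1 : 1 ≤ T := by linarith
  have hTb : ∀ b, Tf b ≤ T := by
    intro b
    have h1 := Finset.single_le_sum (f := Tf) (fun b _ => by linarith [hTf b]) (Finset.mem_univ b)
    linarith
  have hpart : ∀ b : Fin r → FF, {v ∈ Ex | ∀ j, zpt ω (v j) ∈ Kc (b j)}.Finite ∧
      (({v ∈ Ex | ∀ j, zpt ω (v j) ∈ Kc (b j)}.ncard : ℕ) : ℝ) ≤ Cf b * T ^ ((r : ℝ) * (e + 2) - 1 + ε) := by
    intro b
    refine Hf b E hm io ξ ω T (hTb b) _ fun v hv => ?_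
    obtain ⟨h1, c, h2, l₀, h3, h4⟩ := hEx v hv.1
    refine ⟨fun j => ⟨(h1 j).1, hv.2 j⟩, c, h2, l₀, h3, h4.trans ?_⟩
    refine mul_le_mul_of_nonneg_right ?_ (norm_nonneg _)
    refine Real.rpow_le_rpow_of_exponent_le hT1 (neg_le_neg ?_)
    exact (le_abs_self _).trans (Finset.single_le_sum (f := fun b => |Bf b|) (fun b _ => abs_nonneg _)
      (Finset.mem_univ b))
  have hsub : Ex ⊆ ⋃ b : Fin r → FF, {v ∈ Ex | ∀ j, zpt ω (v j) ∈ Kc (b j)} := by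
    intro v hv
    have h1 : ∀ j, ∃ c : FF, zpt ω (v j) ∈ Kc c := by
      intro j
      have h2 : zpt ω (v j) ∈ K' := ⟨((hEx v hv).1 j).2.1, ((hEx v hv).1 j).2.2⟩
      obtain ⟨c, hc, hzc⟩ := Set.mem_iUnion₂.1 (hcov h2)
      exact ⟨⟨c, hc⟩, h2, Metric.ball_subset_closedBall hzc⟩
    choose b hb using h1
    exact Set.mem_iUnion.2 ⟨b, hv, hb⟩
  have hfin : (⋃ b : Fin r → FF, {v ∈ Ex | ∀ j, zpt ω (v j) ∈ Kc (b j)}).Finite :=
    Set.finite_iUnion fun b => (hpart b).1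
  refine ⟨hfin.subset hsub, ?_⟩
  have hcard : (Ex.ncard : ℝ) ≤ ∑ b : Fin r → FF, (({v ∈ Ex | ∀ j, zpt ω (v j) ∈ Kc (b j)}.ncard : ℕ) : ℝ) := by
    have h1 := Set.ncard_le_ncard hsub hfin
    have h2 : (⋃ b : Fin r → FF, {v ∈ Ex | ∀ j, zpt ω (v j) ∈ Kc (b j)}).ncard ≤
        ∑ b : Fin r → FF, ({v ∈ Ex | ∀ j, zpt ω (v j) ∈ Kc (b j)}).ncard := by
      have h3 := Finset.set_ncard_biUnion_le (Finset.univ : Finset (Fin r → FF))
        (fun b => {v ∈ Ex | ∀ j, zpt ω (v j) ∈ Kc (b j)})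
      simpa using h3
    exact_mod_cast h1.trans h2
  refine hcard.trans ?_
  rw [Finset.sum_mul]
  exact Finset.sum_le_sum fun b _ => (hpart b).2

/-- the values of the twisted products -/
theorem psi_prod {ι : Type} {r q dg : ℕ} (pl : Fin q → ι) (wt : Fin q → ℕ) (w : Fin r → Fin q → Fin (dg + 1))
    (z : Fin r → ι → ℂ) : ∏ j, PsiZ pl wt (w j) (z j) =
      Complex.I ^ (∑ j, ∑ a, (if Even (wt a) then 1 else 0) * (w j a : ℕ)) *
        ∏ j, ∏ a, (LL (wt a) (z j (pl a)) : ℂ) ^ (w j a : ℕ) := by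
  rw [← Finset.prod_pow_eq_pow_sum, ← Finset.prod_mul_distrib]
  refine Finset.prod_congr rfl fun j _ => ?_
  rw [← Finset.prod_pow_eq_pow_sum, ← Finset.prod_mul_distrib, PsiZ]
  refine Finset.prod_congr rfl fun a _ => ?_
  rw [mul_pow]
  congr 1
  split_ifs <;> simp

/-- polynomial relations between the values of the single-valued polylogarithms -/
theorem zag_poly {D q : ℕ} (hD : 0 < D) (cj : Fin D → Fin D) (pl : Fin q → Fin D) (wt : Fin q → ℕ)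
    (hw : ∀ a, 1 ≤ wt a) (hinj : ∀ a b, pl a = pl b → wt a = wt b → a = b)
    (hcj : ∀ a b, cj (pl a) = pl b → wt a = wt b → a = b ∧ Odd (wt a)) (K : Set (Fin D → ℂ)) (hK : IsCompact K)
    (hKG : K ⊆ Gr) (m r e dg : ℕ) (h : Type) [Fintype h] (A ε : ℝ) (hε : 0 < ε) :
    ∃ B C T₀ : ℝ, 0 ≤ C ∧ 2 ≤ T₀ ∧ ∀ (F : Type) [Field F] (sg : Fin D → (F →+* ℂ)),
      (∀ i y, sg (cj i) y = conj (sg i y)) → ∀ (ω : Fin e → F) (E : Type) [Field E] [NumberField E],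
      Module.finrank ℚ E ≤ m → ∀ (io : E →+* ℂ) (ξ : h → ℂ) (T : ℝ), T₀ ≤ T → ∀ Ex : Set (Fin r → F),
      (∀ y ∈ Ex, (∀ j, (∃ v ∈ Box e T, y j = ((v.1 : F) + ∑ k, (v.2.1 k : F) * ω k) / (v.2.2 : F)) ∧
        (fun i => sg i (y j)) ∈ K) ∧ ∃ P : MvPolynomial (Fin r × Fin q) ℂ, (∀ x, P.degreeOf x ≤ dg) ∧
        (∀ s, ∃ c : h → 𝓞 E, (∀ i (f : E →+* ℂ), ‖f (c i)‖ ≤ T ^ A) ∧ P.coeff s = ∑ i, ξ i * io (c i)) ∧
        ∃ s₀, P.coeff s₀ ≠ 0 ∧
          ‖MvPolynomial.aeval (fun x : Fin r × Fin q => (LL (wt x.2) (sg (pl x.2) (y x.1)) : ℂ)) P‖ ≤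
            T ^ (-B) * ‖P.coeff s₀‖) →
      Ex.Finite ∧ (Ex.ncard : ℝ) ≤ C * T ^ ((r : ℝ) * (e + 2) - 1 + ε) := by
  classical
  obtain ⟨B, C, T₀, hC, hT₀, H⟩ := zag_main hD cj pl wt hw hinj hcj K hK hKG m r e dg (h × Fin 4) A ε hε
  refine ⟨B, C, T₀, hC, hT₀, ?_⟩
  intro F _ sg hsg ω E _ _ hm io ξ T hT Ex hEx
  have hvex : ∀ y : Fin r → F, ∃ v : Fin r → ℤ × (Fin e → ℤ) × ℕ, y ∈ Ex → ∀ j, v j ∈ Box e T ∧
      y j = (((v j).1 : F) + ∑ k, ((v j).2.1 k : F) * ω k) / ((v j).2.2 : F) := by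
    intro y
    by_cases hy : y ∈ Ex
    · have h1 := fun j => ((hEx y hy).1 j).1
      choose v hv1 hv2 using h1
      exact ⟨v, fun _ j => ⟨hv1 j, hv2 j⟩⟩
    · exact ⟨fun _ => 0, fun hcon => absurd hcon hy⟩
  choose v hv using hvex
  have hz : ∀ y ∈ Ex, ∀ j, zpt (fun k i => sg i (ω k)) (v y j) = fun i => sg i (y j) := by
    intro y hy j
    funext i
    rw [(hv y hy j).2, map_div₀, map_add, map_intCast, map_sum, map_natCast]
    simp only [zpt]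
    congr 2
    refine Finset.sum_congr rfl fun k _ => ?_
    rw [map_mul, map_intCast]
  have hvinj : Set.InjOn v Ex := by
    intro y hy y' hy' hyy
    funext j
    rw [(hv y hy j).2, (hv y' hy' j).2, hyy]
  obtain ⟨h1, h2⟩ := H E hm io (fun p => ξ p.1 * Complex.I ^ (p.2 : ℕ)) (fun k i => sg i (ω k)) T hT (v '' Ex) (by
    rintro _ ⟨y, hy, rfl⟩
    obtain ⟨h3, P, hPd, hPc, s₀, hs₀, hs⟩ := hEx y hy
    refine ⟨fun j => ⟨(hv y hy j).1, ?_, ?_⟩, ?_⟩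
    · rw [hz y hy j]
      exact (h3 j).2
    · rw [hz y hy j]
      exact fun i => hsg i (y j)
    · have hT0 : 0 ≤ T ^ A := Real.rpow_nonneg (by linarith) _
      refine relK_twist E io ξ
        (fun w : Fin r → Fin q → Fin (dg + 1) => ∏ j, ∏ a, (LL (wt a) (sg (pl a) (y j)) : ℂ) ^ (w j a : ℕ)) _
        (fun w => ∑ j, ∑ a, (if Even (wt a) then 1 else 0) * (w j a : ℕ)) ?_ _ _ hT0 ?_
      · intro w
        rw [psi_prod]
        simp only [hz y hy]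
      · exact relK_of_poly' E io ξ (fun (_ : Fin r) (x : Fin q → ℂ) a => x a)
          (fun j a => (LL (wt a) (sg (pl a) (y j)) : ℂ)) (T ^ A) (T ^ (-B)) P hPd hPc s₀ hs₀ hs)
  have hf : Ex.Finite := Set.Finite.of_finite_image h1 hvinj
  refine ⟨hf, ?_⟩
  rwa [Set.InjOn.ncard_image hvinj] at h2

end Pool.Agent.Y900.CJ
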