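import Pool.Agent.Y900.CJ.Abs

/-!
# Towers of primitives: the derivations of the polynomial ring
-/

set_option autoImplicit false

open Finset MvPolynomial

namespace Pool.Agent.Y900.CJ

/-- a system of primitives: `y_s' = u_(lam s) y_(pr s)`, where `y_none = 1` -/
structure Str (σ Λ : Type) where
  lam : σ → Λ
  pr : σ → Option σ
  w : σ → ℕ
  hw0 : ∀ s, pr s = none → w s = 1
  hw1 : ∀ s s', pr s = some s' → w s = w s' + 1

section

variable {σ Λ : Type} (T : Str σ Λ)

theorem Str.w_pos (s : σ) : 1 ≤ T.w s := by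
  cases h : T.pr s with
  | none => exact (T.hw0 s h).ge
  | some s' => rw [T.hw1 s s' h]; omega

variable [DecidableEq Λ]

/-- the value of the derivation with index `l` on a generator -/
noncomputable def gen (l : Λ) (s : σ) : MvPolynomial σ ℂ := if T.lam s = l then (T.pr s).elim 1 X else 0

/-- the derivation with index `l` -/
noncomputable def del (l : Λ) : Derivation ℂ (MvPolynomial σ ℂ) (MvPolynomial σ ℂ) := mkDerivation ℂ (gen T l)

theorem del_X (l : Λ) (s : σ) : del T l (X s) = gen T l s := mkDerivation_X _ _ _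

theorem D_aeval [Fintype Λ] {F : Type*} [Field F] [Algebra ℂ F] (D : Derivation ℂ F F) (y : σ → F) (u : Λ → F)
    (hy : ∀ s, D (y s) = u (T.lam s) * (T.pr s).elim 1 y) (P : MvPolynomial σ ℂ) :
    D (aeval y P) = ∑ l, u l * aeval y (del T l P) := by
  induction P using MvPolynomial.induction_on with
  | C c =>
    rw [aeval_C, D.map_algebraMap]
    symm
    refine sum_eq_zero fun l _ => ?_
    rw [← algebraMap_eq, (del T l).map_algebraMap, map_zero, mul_zero]
  | add p q hp hq =>
    simp only [map_add, mul_add]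
    rw [hp, hq, sum_add_distrib]
  | mul_X p s ih =>
    have h1 : ∀ l, aeval y (del T l (p * X s)) = aeval y p * aeval y (gen T l s) + y s * aeval y (del T l p) := by
      intro l
      rw [Derivation.leibniz, del_X, smul_eq_mul, smul_eq_mul, map_add, map_mul, map_mul, aeval_X]
    have h2 : ∑ l, u l * aeval y (gen T l s) = D (y s) := by
      rw [hy, sum_eq_single (T.lam s)]
      · congr 1
        rw [gen, if_pos rfl]
        cases T.pr s with
        | none => simp
        | some s' => simp
      · intro l _ hl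
        rw [gen, if_neg (fun h => hl h.symm), map_zero, mul_zero]
      · intro h
        exact absurd (mem_univ _) h
    rw [map_mul, aeval_X, Derivation.leibniz, smul_eq_mul, smul_eq_mul, ih, ← h2, mul_sum, mul_sum, ← sum_add_distrib]
    refine sum_congr rfl fun l _ => ?_
    rw [h1]
    ring

variable [Fintype σ]

/-- the weight of an exponent -/
def wtE (e : σ →₀ ℕ) : ℕ := ∑ s, e s * T.w s

omit [DecidableEq Λ] in
theorem wtE_add (a b : σ →₀ ℕ) : wtE T (a + b) = wtE T a + wtE T b := by
  simp only [wtE, Finsupp.coe_add, Pi.add_apply, add_mul, sum_add_distrib]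

omit [DecidableEq Λ] in
theorem wtE_single (s : σ) : wtE T (Finsupp.single s 1) = T.w s := by
  classical
  rw [wtE, sum_eq_single s]
  · rw [Finsupp.single_eq_same, one_mul]
  · intro b _ hb
    rw [Finsupp.single_eq_of_ne (fun h => hb (by rw [h])), zero_mul]
  · intro h
    exact absurd (mem_univ _) h

omit [DecidableEq Λ] in
theorem le_wtE (e : σ →₀ ℕ) (s : σ) : e s ≤ wtE T e := by
  calc e s ≤ e s * T.w s := Nat.le_mul_of_pos_right _ (T.w_pos s)
    _ ≤ wtE T e := single_le_sum (f := fun s => e s * T.w s) (fun _ _ => Nat.zero_le _) (mem_univ s)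

omit [DecidableEq Λ] in
theorem wtE_eq_zero (e : σ →₀ ℕ) (h : wtE T e = 0) : e = 0 := by
  ext s
  have := le_wtE T e s
  rw [Finsupp.coe_zero, Pi.zero_apply]
  omega

open Classical in
/-- the exponents of bounded weight -/
noncomputable def SE (n : ℕ) : Finset (σ →₀ ℕ) :=
  (Finset.Iic (Finsupp.equivFunOnFinite.symm fun _ : σ => n)).filter fun e => wtE T e ≤ n

omit [DecidableEq Λ] in
theorem mem_SE (n : ℕ) (e : σ →₀ ℕ) : e ∈ SE T n ↔ wtE T e ≤ n := by
  classical
  rw [SE, mem_filter, Finset.mem_Iic]
  refine ⟨fun h => h.2, fun h => ⟨fun s => ?_, h⟩⟩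
  exact (le_wtE T e s).trans h

/-- the matrix of the derivation -/
noncomputable def NE (l : Λ) (e e' : σ →₀ ℕ) : ℂ := coeff e' (del T l (monomial e 1))

theorem NE_wt (l : Λ) (e e' : σ →₀ ℕ) (h : NE T l e e' ≠ 0) : wtE T e = wtE T e' + 1 := by
  classical
  rw [NE, del, mkDerivation_monomial, one_smul, Finsupp.sum, coeff_sum] at h
  obtain ⟨i, hi, h1⟩ := exists_ne_zero_of_sum_ne_zero h
  rw [smul_eq_mul] at h1
  have he : e = (e - Finsupp.single i 1) + Finsupp.single i 1 := by
    have h2 : Finsupp.single i 1 ≤ e := by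
      rw [Finsupp.single_le_iff]
      exact Nat.one_le_iff_ne_zero.2 (Finsupp.mem_support_iff.1 hi)
    exact (tsub_add_cancel_of_le h2).symm
  set m := e - Finsupp.single i 1 with hm
  unfold gen at h1
  split_ifs at h1 with hl
  · cases hp : T.pr i with
    | none =>
      rw [hp, Option.elim_none, mul_one, coeff_monomial] at h1
      have h3 : m = e' := by
        by_contra hne
        rw [if_neg hne] at h1
        exact h1 rfl
      rw [he, wtE_add, wtE_single, h3, T.hw0 i hp]
    | some j =>
      have h4 : (monomial m ((e i : ℕ) : ℂ)) * X j = monomial (m + Finsupp.single j 1) ((e i : ℕ) : ℂ) := by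
        rw [X, monomial_mul, mul_one]
      rw [hp, Option.elim_some, h4, coeff_monomial] at h1
      have h3 : m + Finsupp.single j 1 = e' := by
        by_contra hne
        rw [if_neg hne] at h1
        exact h1 rfl
      rw [he, ← h3, wtE_add, wtE_add, wtE_single, wtE_single, T.hw1 i j hp]
      ring
  · rw [mul_zero, coeff_zero] at h1
    exact absurd rfl h1

variable [Fintype Λ]

/-- **independence of the monomials in a system of primitives** -/
theorem towN {F : Type*} [Field F] [Algebra ℂ F] (D : Derivation ℂ F F) (K : Subfield F) (hDK : ∀ x ∈ K, D x ∈ K)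
    (hRK : ∀ r : ℂ, algebraMap ℂ F r ∈ K) (hconst : ∀ x : F, D x = 0 → ∃ r : ℂ, algebraMap ℂ F r = x)
    (u : Λ → F) (hu : ∀ l, u l ∈ K)
    (hprim : ∀ (c : Λ → F) (g : F), (∀ l, D (c l) = 0) → g ∈ K → D g = ∑ l, c l * u l → ∀ l, c l = 0)
    (hkerP : ∀ G : MvPolynomial σ ℂ, (∀ l, del T l G = 0) → ∀ e, e ≠ 0 → coeff e G = 0)
    (y : σ → F) (hy : ∀ s, D (y s) = u (T.lam s) * (T.pr s).elim 1 y) (n : ℕ) (g : (σ →₀ ℕ) → F)
    (hg : ∀ e, g e ∈ K) (h0 : ∑ e ∈ SE T n, g e * aeval y (monomial e (1 : ℂ)) = 0) : ∀ e ∈ SE T n, g e = 0 := by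
  classical
  refine indepN D K hDK hRK hconst u hu hprim (wtE T) (SE T) (mem_SE T) 0 (wtE_eq_zero T) (NE T) (NE_wt T)
    (fun e => aeval y (monomial e (1 : ℂ))) ?_ ?_ ?_ n g hg h0
  · show aeval y (monomial 0 (1 : ℂ)) = 1
    rw [monomial_zero', map_one, map_one]
  · intro n e he
    rw [D_aeval T D y u hy]
    refine sum_congr rfl fun l _ => ?_
    congr 1
    set Q := del T l (monomial e (1 : ℂ)) with hQ
    have hsub : Q.support ⊆ SE T n := by
      intro e' he'
      rw [mem_SE]
      have := NE_wt T l e e' (mem_support_iff.1 he')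
      omega
    have h1 : Q = ∑ e' ∈ SE T n, C (coeff e' Q) * monomial e' 1 := by
      conv_lhs => rw [Q.as_sum]
      refine sum_subset_zero_on_sdiff hsub ?_ ?_
      · intro e' he'
        rw [notMem_support_iff.1 (mem_sdiff.1 he').2, C_0, zero_mul]
      · intro e' _
        rw [C_mul_monomial, mul_one]
    have h2 : aeval y Q = ∑ e' ∈ SE T n, algebraMap ℂ F (coeff e' Q) * aeval y (monomial e' (1 : ℂ)) := by
      conv_lhs => rw [h1]
      rw [map_sum]
      refine sum_congr rfl fun e' _ => ?_
      rw [map_mul, aeval_C]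
    exact h2
  · intro n c hc hcN
    set G : MvPolynomial σ ℂ := ∑ e ∈ SE T (n + 1), monomial e (c e) with hG
    have hGc : ∀ e, coeff e G = c e := by
      intro e
      rw [hG, coeff_sum]
      by_cases he : e ∈ SE T (n + 1)
      · rw [sum_eq_single e]
        · rw [coeff_monomial, if_pos rfl]
        · intro b _ hb
          rw [coeff_monomial, if_neg hb]
        · intro h
          exact absurd he h
      · rw [mem_SE] at he
        rw [hc e (by omega)]
        refine sum_eq_zero fun b hb => ?_
        rw [coeff_monomial, if_neg]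
        rintro rfl
        exact he ((mem_SE T _ _).1 hb)
    have hdel : ∀ l, del T l G = 0 := by
      intro l
      ext e'
      rw [hG, map_sum, coeff_sum, coeff_zero, ← hcN l e']
      refine sum_congr rfl fun e _ => ?_
      have h1 : monomial e (c e) = c e • monomial e (1 : ℂ) := by
        rw [smul_monomial, smul_eq_mul, mul_one]
      rw [h1, Derivation.map_smul, coeff_smul, smul_eq_mul]
      rfl
    intro e
    by_cases he : e = 0
    · refine hc e ?_
      rw [he]
      simp [wtE]
    · rw [← hGc]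
      exact hkerP G hdel e he

end

section pol

variable {ι : Type} (n : ℕ)

/-- logarithms and polylogarithms up to weight `n` of several functions -/
def polS : Str (ι × Fin (n + 1)) (ι × Bool) where
  lam s := (s.1, decide ((s.2 : ℕ) = 1))
  pr s := if (s.2 : ℕ) ≤ 1 then none else some (s.1, ⟨s.2 - 1, by have := s.2.2; omega⟩)
  w s := if (s.2 : ℕ) ≤ 1 then 1 else s.2
  hw0 s h := by
    by_contra hcon
    by_cases h1 : (s.2 : ℕ) ≤ 1
    · rw [if_pos h1] at hcon
      exact hcon rfl
    · rw [if_neg h1] at h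
      exact Option.some_ne_none _ h
  hw1 s s' h := by
    by_cases h1 : (s.2 : ℕ) ≤ 1
    · rw [if_pos h1] at h
      exact absurd h.symm (Option.some_ne_none _)
    · rw [if_neg h1] at h ⊢
      have h2 := Option.some.inj h
      rw [← h2]
      simp only
      split_ifs <;> omega

variable [Fintype ι] [DecidableEq ι]

omit [Fintype ι] in
theorem del_pol_X (b : ι × Bool) (s : ι × Fin (n + 1)) : del (polS n) b (X s) =
    if s.1 = b.1 ∧ decide ((s.2 : ℕ) = 1) = b.2 then
      (if (s.2 : ℕ) ≤ 1 then 1 else X (s.1, ⟨s.2 - 1, by have := s.2.2; omega⟩)) else 0 := by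
  rw [del_X, gen]
  by_cases h : (polS n (ι := ι)).lam s = b
  · rw [if_pos h, if_pos ⟨congrArg Prod.fst h, congrArg Prod.snd h⟩]
    show ((if (s.2 : ℕ) ≤ 1 then none else some (s.1, (⟨s.2 - 1, _⟩ : Fin (n + 1))) : Option (ι × Fin (n + 1)))).elim 1 X = _
    split_ifs <;> rfl
  · rw [if_neg h, if_neg]
    rintro ⟨h1, h2⟩
    exact h (Prod.ext h1 h2)

omit [Fintype ι] [DecidableEq ι] in
theorem der_sum_apply {σ ι' : Type} (S : Finset ι') (D : ι' → Derivation ℂ (MvPolynomial σ ℂ) (MvPolynomial σ ℂ))
    (p : MvPolynomial σ ℂ) : (∑ m ∈ S, D m) p = ∑ m ∈ S, D m p := by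
  classical
  induction S using Finset.induction_on with
  | empty => rw [sum_empty, sum_empty, Derivation.zero_apply]
  | insert a s ha ih => rw [sum_insert ha, sum_insert ha, Derivation.add_apply, ih]

omit [Fintype ι] in
theorem ker_pol (G : MvPolynomial (ι × Fin (n + 1)) ℂ) (h : ∀ b, del (polS n) b G = 0) (e : ι × Fin (n + 1) →₀ ℕ)
    (he : e ≠ 0) : coeff e G = 0 := by
  classical
  -- the derivatives with respect to the polylogarithms
  have h1 : ∀ (i : ι) (m : ℕ) (hm : m < n + 1), 1 ≤ m → pderiv (i, (⟨m, hm⟩ : Fin (n + 1))) G = 0 := by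
    intro i m
    induction m with
    | zero => intro hm h0; omega
    | succ m ih =>
      intro hm _
      rcases Nat.eq_zero_or_pos m with h0 | h0
      · subst h0
        have h2 : pderiv (R := ℂ) (i, (⟨0 + 1, hm⟩ : Fin (n + 1))) = del (polS n) (i, true) := by
          refine derivation_ext fun s => ?_
          rw [del_pol_X, pderiv_X]
          by_cases hs : s = (i, (⟨0 + 1, hm⟩ : Fin (n + 1)))
          · subst hs
            simp
          · rw [Pi.single_eq_of_ne (fun h => hs h), if_neg]
            rintro ⟨e1, e2⟩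
            have e2' : (s.2 : ℕ) = 1 := of_decide_eq_true e2
            exact hs (Prod.ext e1 (Fin.ext e2'))
        rw [h2]
        exact h _
      · have hm' : m < n + 1 := by omega
        have h2 : ⁅pderiv (R := ℂ) (i, (⟨m, hm'⟩ : Fin (n + 1))), del (polS n) (i, false)⁆ =
            pderiv (i, (⟨m + 1, hm⟩ : Fin (n + 1))) := by
          refine derivation_ext fun s => ?_
          rw [Derivation.commutator_apply, del_pol_X, pderiv_X, pderiv_X]
          have e1 : del (polS n) (i, false) (Pi.single (M := fun _ => MvPolynomial (ι × Fin (n + 1)) ℂ)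
              (i, (⟨m, hm'⟩ : Fin (n + 1))) 1 s) = 0 := by
            by_cases hs : s = (i, (⟨m, hm'⟩ : Fin (n + 1)))
            · subst hs
              rw [Pi.single_eq_same, Derivation.map_one_eq_zero]
            · rw [Pi.single_eq_of_ne (fun h => hs h), map_zero]
          rw [e1, sub_zero]
          by_cases hs : s = (i, (⟨m + 1, hm⟩ : Fin (n + 1)))
          · subst hs
            rw [Pi.single_eq_same, if_pos ⟨rfl, decide_eq_false (by show ¬ (m + 1 = 1); omega)⟩,
              if_neg (by show ¬ (m + 1 ≤ 1); omega), pderiv_X]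
            exact Pi.single_eq_same _ _
          · rw [Pi.single_eq_of_ne (fun h => hs h)]
            split_ifs with c1 c2
            · exact Derivation.map_one_eq_zero _
            · rw [pderiv_X, Pi.single_eq_of_ne]
              intro hcon
              have e3 : (s.2 : ℕ) - 1 = m := congrArg (fun q : ι × Fin (n + 1) => (q.2 : ℕ)) hcon
              exact hs (Prod.ext c1.1 (Fin.ext (by show (s.2 : ℕ) = m + 1; omega)))
            · exact map_zero _
        rw [← h2, Derivation.commutator_apply, h, ih hm' h0, map_zero, map_zero, sub_zero]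
  -- the derivatives with respect to the logarithms
  have h3 : ∀ (i : ι), pderiv (i, (0 : Fin (n + 1))) G = 0 := by
    intro i
    have h4 : (pderiv (R := ℂ) (i, (0 : Fin (n + 1)))) + ∑ m : Fin (n + 1), (if hm : 2 ≤ (m : ℕ) then
        (X (i, (⟨m - 1, by have := m.2; omega⟩ : Fin (n + 1))) : MvPolynomial (ι × Fin (n + 1)) ℂ) else 0) •
          pderiv (R := ℂ) (i, m) = del (polS n) (i, false) := by
      refine derivation_ext fun s => ?_
      rw [Derivation.add_apply, der_sum_apply, del_pol_X, pderiv_X]
      simp only [Derivation.smul_apply, pderiv_X, smul_eq_mul]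
      by_cases hi : s.1 = i
      · obtain ⟨s1, s2⟩ := s
        simp only at hi
        subst hi
        have e5 : ∑ m : Fin (n + 1), (if hm : 2 ≤ (m : ℕ) then
            (X (s1, (⟨m - 1, by have := m.2; omega⟩ : Fin (n + 1))) : MvPolynomial (ι × Fin (n + 1)) ℂ) else 0) *
            Pi.single (M := fun _ => MvPolynomial (ι × Fin (n + 1)) ℂ) (s1, m) 1 (s1, s2) =
            if hm : 2 ≤ (s2 : ℕ) then X (s1, (⟨s2 - 1, by have := s2.2; omega⟩ : Fin (n + 1))) else 0 := by
          rw [sum_eq_single s2]
          · rw [Pi.single_eq_same, mul_one]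
          · intro m _ hm
            rw [Pi.single_eq_of_ne (fun hcon => hm (congrArg Prod.snd hcon).symm), mul_zero]
          · intro hcon
            exact absurd (mem_univ _) hcon
        rw [e5]
        by_cases h20 : s2 = 0
        · subst h20
          rw [Pi.single_eq_same, dif_neg (by show ¬ (2 ≤ 0); omega), add_zero,
            if_pos ⟨rfl, decide_eq_false (by show ¬ ((0 : ℕ) = 1); omega)⟩, if_pos (by show (0 : ℕ) ≤ 1; omega)]
        · have h20' : (s2 : ℕ) ≠ 0 := fun hcon => h20 (Fin.ext hcon)
          rw [Pi.single_eq_of_ne (fun hcon => h20 (congrArg Prod.snd hcon)), zero_add]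
          by_cases h21 : (s2 : ℕ) = 1
          · rw [dif_neg (by omega), if_neg]
            rintro ⟨-, e6⟩
            exact of_decide_eq_false e6 h21
          · rw [dif_pos (by omega), if_pos ⟨rfl, decide_eq_false h21⟩, if_neg (by show ¬ ((s2 : ℕ) ≤ 1); omega)]
      · rw [Pi.single_eq_of_ne (fun hcon => hi (congrArg Prod.fst hcon)), zero_add, if_neg (fun hcon => hi hcon.1)]
        refine sum_eq_zero fun m _ => ?_
        rw [Pi.single_eq_of_ne (fun hcon => hi (congrArg Prod.fst hcon)), mul_zero]
    have h5 := h (i, false)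
    rw [← h4, Derivation.add_apply, der_sum_apply] at h5
    rw [sum_eq_zero, add_zero] at h5
    · exact h5
    · intro m _
      rw [Derivation.smul_apply]
      by_cases hm : 2 ≤ (m : ℕ)
      · rw [h1 i m m.2 (by omega), smul_zero]
      · rw [dif_neg hm, zero_smul]
  have h6 : ∀ s, pderiv s G = 0 := by
    rintro ⟨i, m⟩
    by_cases hm : m = 0
    · rw [hm]; exact h3 i
    · exact h1 i m m.2 (Nat.one_le_iff_ne_zero.2 fun hcon => hm (Fin.ext hcon))
  obtain ⟨s, hs⟩ := Finsupp.ne_iff.1 he
  rw [Finsupp.coe_zero, Pi.zero_apply] at hs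
  have h7 := congrArg (coeff (e - Finsupp.single s 1)) (h6 s)
  have h8 : Finsupp.single s 1 ≤ e := by
    rw [Finsupp.single_le_iff]
    exact Nat.one_le_iff_ne_zero.2 hs
  rw [coeff_pderiv, tsub_add_cancel_of_le h8, coeff_zero] at h7
  have h9 : ((((e - Finsupp.single s 1 : ι × Fin (n + 1) →₀ ℕ) : ι × Fin (n + 1) → ℕ) s : ℕ) : ℂ) + 1 ≠ 0 :=
    Nat.cast_add_one_ne_zero _
  rcases mul_eq_zero.1 h7 with h10 | h10
  · exact h10
  · exact absurd h10 h9

end pol

end Pool.Agent.Y900.CJ
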