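import Pool.Agent.Y900.CJ.Ger
import Pool.Agent.Y900.HY.Log
import Pool.Agent.Y900.PV.Lin

/-!
# Polylogarithms at simultaneously shifted points
-/

set_option autoImplicit false

open Filter Set
open scoped Topology

namespace Pool.Agent.Y900.CJ

open Pool.Agent.Y900.HY (AlgAt good_log an_of_deriv)
open Pool.Agent.Y900.PV (JA LinP)

/-- a branch of the logarithm (index `0`) and of the polylogarithms (index `m ≥ 1`) on an open set -/
structure PolySys (U : Set ℂ) (Li : ℕ → ℂ → ℂ) : Prop where
  log : ∀ z ∈ U, HasDerivAt (Li 0) (1 / z) z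
  one : ∀ z ∈ U, HasDerivAt (Li 1) (1 / (1 - z)) z
  succ : ∀ m, 1 ≤ m → ∀ z ∈ U, HasDerivAt (Li (m + 1)) (1 / z * Li m z) z

variable {ι : Type} [Fintype ι] [DecidableEq ι]

/-- the singular points `0` and `1`, moved by the point -/
def sg (z : ι → ℂ) (l : ι × Bool) : ℂ := (if l.2 then 1 else 0) - z l.1

/-- the region -/
def Reg (U : ι → Set ℂ) : Set (ι → ℂ) :=
  {z | (∀ i, z i ∈ U i ∧ z i ≠ 0 ∧ z i ≠ 1) ∧ ∀ i j, i ≠ j → z i ≠ z j ∧ z i ≠ z j + 1}

omit [DecidableEq ι] in
theorem isOpen_Reg {U : ι → Set ℂ} (hU : ∀ i, IsOpen (U i)) : IsOpen (Reg U) := by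
  have h1 : Reg U = (⋂ i, {z : ι → ℂ | z i ∈ U i} ∩ ({z | z i ≠ 0} ∩ {z | z i ≠ 1})) ∩
      ⋂ i, ⋂ j, {z : ι → ℂ | i ≠ j → z i ≠ z j ∧ z i ≠ z j + 1} := by
    ext z
    simp only [Reg, mem_ofPred_eq, mem_inter_iff, mem_iInter]
  rw [h1]
  refine IsOpen.inter (isOpen_iInter_of_finite fun i => ?_) (isOpen_iInter_of_finite fun i =>
    isOpen_iInter_of_finite fun j => ?_)
  · refine ((hU i).preimage (continuous_apply i)).inter (IsOpen.inter ?_ ?_)
    · exact isOpen_ne_fun (continuous_apply i) continuous_const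
    · exact isOpen_ne_fun (continuous_apply i) continuous_const
  · by_cases hij : i = j
    · simp [hij]
    · have h2 : {z : ι → ℂ | i ≠ j → z i ≠ z j ∧ z i ≠ z j + 1} = {z | z i ≠ z j} ∩ {z | z i ≠ z j + 1} := by
        ext z
        simp [hij]
      rw [h2]
      refine IsOpen.inter ?_ ?_
      · exact isOpen_ne_fun (continuous_apply i) (continuous_apply j)
      · exact isOpen_ne_fun (continuous_apply i) ((continuous_apply j).add continuous_const)

omit [Fintype ι] [DecidableEq ι] in
theorem sg_inj {U : ι → Set ℂ} {z : ι → ℂ} (hz : z ∈ Reg U) : Function.Injective (sg z) := by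
  rintro ⟨i, b⟩ ⟨j, b'⟩ h
  by_cases hij : i = j
  · subst hij
    cases b <;> cases b'
    · rfl
    · exfalso
      simp only [sg, if_true, if_false, Bool.false_eq_true] at h
      exact zero_ne_one (α := ℂ) (by linear_combination h)
    · exfalso
      simp only [sg, if_true, if_false, Bool.false_eq_true] at h
      exact one_ne_zero (α := ℂ) (by linear_combination h)
    · rfl
  · exfalso
    obtain ⟨-, h2⟩ := hz
    cases b <;> cases b' <;> simp only [sg, if_true, if_false, Bool.false_eq_true] at h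
    · exact (h2 i j hij).1 (by linear_combination -h)
    · exact (h2 j i (Ne.symm hij)).2 (by linear_combination h)
    · exact (h2 i j hij).2 (by linear_combination -h)
    · exact (h2 i j hij).1 (by linear_combination -h)

/-- the differentials -/
noncomputable def uP (s : ι → ℂ) (l : ι × Bool) (t : ℂ) : ℂ := if l.2 then 1 / (1 - (s l.1 + t)) else 1 / (s l.1 + t)

omit [Fintype ι] [DecidableEq ι] in
theorem uP_eq (s : ι → ℂ) (l : ι × Bool) (t : ℂ) : uP s l t = (if l.2 then -1 else 1) * (1 / (t - sg s l)) := by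
  obtain ⟨i, b⟩ := l
  cases b
  · simp only [uP, sg, if_false, Bool.false_eq_true, one_mul]
    congr 1
    ring
  · simp only [uP, sg, if_true]
    rw [neg_one_mul, ← div_neg]
    congr 1
    ring

omit [Fintype ι] [DecidableEq ι] in
/-- the shifted point is in the region -/
theorem sg_shift {U : ι → Set ℂ} {s : ι → ℂ} {t : ℂ} (hz : (fun i => s i + t) ∈ Reg U) :
    Function.Injective (sg s) ∧ ∀ l, t ≠ sg s l := by
  constructor
  · intro l l' h
    refine sg_inj hz ?_
    simp only [sg] at h ⊢
    linear_combination h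
  · rintro ⟨i, b⟩ h
    obtain ⟨-, h0, h1⟩ := hz.1 i
    cases b <;> simp only [sg, if_true, if_false, Bool.false_eq_true] at h
    · exact h0 (by simp only; linear_combination h)
    · exact h1 (by simp only; linear_combination h)

variable {n : ℕ}

theorem locInd_pts (hn : 1 ≤ n) {U : ι → Set ℂ} (hU : ∀ i, IsOpen (U i)) {Li : ι → ℕ → ℂ → ℂ}
    (hLi : ∀ i, PolySys (U i) (Li i)) (s : ι → ℂ) (t₀ : ℂ) (hz : (fun i => s i + t₀) ∈ Reg U) :
    Pool.Agent.Y124.LocInd (fun (q : ι × Fin (n + 1)) t => Li q.1 q.2 (s q.1 + t)) t₀ := by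
  classical
  obtain ⟨hinj, hne⟩ := sg_shift hz
  have hgood := good_log (sg s) hinj t₀ hne
  have hε : ∀ l : ι × Bool, (if l.2 then (-1 : ℂ) else 1) ≠ 0 := by
    rintro ⟨i, b⟩
    cases b <;> norm_num
  have hpt0 : ∀ i, s i + t₀ ≠ 0 := fun i => (hz.1 i).2.1
  have hpt1 : ∀ i, 1 - (s i + t₀) ≠ 0 := fun i h => (hz.1 i).2.2 (by simp only; linear_combination -h)
  refine locInd_tow (polS n (ι := ι)) t₀ (u := uP s) ?_ ?_ ?_
    (fun l => (l.1, if l.2 then ⟨1, by omega⟩ else 0)) ?_ ?_ (ker_pol n) ?_
  · intro l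
    have h1 : (uP s l) = fun t => (if l.2 then (-1 : ℂ) else 1) * (1 / (t - sg s l)) := funext fun t => uP_eq s l t
    rw [h1]
    exact analyticAt_const.mul (hgood.an l)
  · rintro ⟨i, b⟩
    cases b
    · refine ⟨(MvPolynomial.X 0 + MvPolynomial.C (s i)) * MvPolynomial.X 1 - 1, ?_, ?_⟩
      · intro h
        have := congrArg (MvPolynomial.eval ![0, 0]) h
        simp at this
      · have h1 : ∀ᶠ t in 𝓝 t₀, s i + t ≠ 0 :=
          (continuous_const.add continuous_id).continuousAt.eventually_ne (hpt0 i)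
        filter_upwards [h1] with t ht
        simp only [map_sub, map_add, map_mul, MvPolynomial.eval_X, MvPolynomial.eval_C, map_one, Matrix.cons_val_zero,
          Matrix.cons_val_one, uP, if_false, Bool.false_eq_true]
        field_simp
        ring
    · refine ⟨(1 - (MvPolynomial.X 0 + MvPolynomial.C (s i))) * MvPolynomial.X 1 - 1, ?_, ?_⟩
      · intro h
        have := congrArg (MvPolynomial.eval ![0, 0]) h
        simp at this
      · have h1 : ∀ᶠ t in 𝓝 t₀, 1 - (s i + t) ≠ 0 :=
          (continuous_const.sub (continuous_const.add continuous_id)).continuousAt.eventually_ne (hpt1 i)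
        filter_upwards [h1] with t ht
        have h2 : (1 - (t + s i)) * (1 / (1 - (s i + t))) - 1 = 0 := by
          rw [add_comm t (s i), mul_one_div, div_self ht, sub_self]
        simpa only [map_sub, map_add, map_mul, MvPolynomial.eval_X, MvPolynomial.eval_C, map_one, Matrix.cons_val_zero,
          Matrix.cons_val_one, uP, if_true] using h2
  · intro c g hg hgd
    have h1 := hgood.prim (fun l => c l * (if l.2 then (-1 : ℂ) else 1)) g hg (by
      filter_upwards [hgd] with t ht
      refine ht.congr_deriv ?_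
      refine Finset.sum_congr rfl fun l _ => ?_
      rw [uP_eq]
      ring)
    funext l
    have h2 := congrFun h1 l
    exact (mul_eq_zero.1 h2).resolve_right (hε l)
  · rintro ⟨i, b⟩
    show (if ((if b then (⟨1, _⟩ : Fin (n + 1)) else 0 : Fin (n + 1)) : ℕ) ≤ 1 then none else some _) = none
    rw [if_pos]
    cases b <;> simp
  · rintro ⟨i, b⟩
    refine Prod.ext rfl ?_
    show decide (((if b then (⟨1, _⟩ : Fin (n + 1)) else 0 : Fin (n + 1)) : ℕ) = 1) = b
    cases b <;> simp
  · rintro ⟨i, m⟩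
    have hop : ∀ᶠ t in 𝓝 t₀, s i + t ∈ U i :=
      (continuous_const.add continuous_id).continuousAt.eventually_mem ((hU i).mem_nhds (hz.1 i).1)
    filter_upwards [hop] with t ht
    have hsh : ∀ {f : ℂ → ℂ} {f' : ℂ}, HasDerivAt f f' (s i + t) → HasDerivAt (fun x => f (s i + x)) f' t :=
      fun hf => hf.comp_const_add (s i) t
    have hm2 := m.2
    rcases Nat.lt_or_ge 1 (m : ℕ) with hm | hm
    · -- weight at least two
      obtain ⟨k, hk⟩ : ∃ k, (m : ℕ) = k + 1 := ⟨m - 1, by omega⟩
      have h1 := hsh ((hLi i).succ k (by omega) _ ht)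
      have h2 : ((polS n (ι := ι)).pr (i, m)) = some (i, ⟨m - 1, by omega⟩) := by
        show (if (m : ℕ) ≤ 1 then none else some _) = _
        rw [if_neg (by omega)]
      have h3 : ((polS n (ι := ι)).lam (i, m)) = (i, false) := by
        show (i, decide ((m : ℕ) = 1)) = _
        rw [decide_eq_false (by omega)]
      rw [h2, h3]
      simp only [Option.elim_some]
      have h4 : uP s (i, false) t = 1 / (s i + t) := by simp [uP]
      rw [h4]
      have h5 : (m : ℕ) - 1 = k := by omega
      show HasDerivAt (fun x => Li i (m : ℕ) (s i + x)) (1 / (s i + t) * Li i ((m : ℕ) - 1) (s i + t)) t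
      rw [h5, hk]
      exact h1
    · have h2 : ((polS n (ι := ι)).pr (i, m)) = none := by
        show (if (m : ℕ) ≤ 1 then none else some _) = _
        rw [if_pos hm]
      rw [h2]
      simp only [Option.elim_none, mul_one]
      rcases Nat.lt_or_ge 0 (m : ℕ) with hm0 | hm0
      · have hm1 : (m : ℕ) = 1 := by omega
        have h3 : ((polS n (ι := ι)).lam (i, m)) = (i, true) := by
          show (i, decide ((m : ℕ) = 1)) = _
          rw [decide_eq_true hm1]
        rw [h3]
        have h4 : uP s (i, true) t = 1 / (1 - (s i + t)) := by simp [uP]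
        rw [h4]
        show HasDerivAt (fun x => Li i (m : ℕ) (s i + x)) _ t
        rw [hm1]
        exact hsh ((hLi i).one _ ht)
      · have hm1 : (m : ℕ) = 0 := by omega
        have h3 : ((polS n (ι := ι)).lam (i, m)) = (i, false) := by
          show (i, decide ((m : ℕ) = 1)) = _
          rw [decide_eq_false (by omega)]
        rw [h3]
        have h4 : uP s (i, false) t = 1 / (s i + t) := by simp [uP]
        rw [h4]
        show HasDerivAt (fun x => Li i (m : ℕ) (s i + x)) _ t
        rw [hm1]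
        exact hsh ((hLi i).log _ ht)

omit [DecidableEq ι] in
theorem PolySys.diff {V : Set ℂ} {P : ℕ → ℂ → ℂ} (h : PolySys V P) (m : ℕ) {z : ℂ} (hz : z ∈ V) :
    DifferentiableAt ℂ (P m) z := by
  rcases m with _ | _ | m
  · exact (h.log z hz).differentiableAt
  · exact (h.one z hz).differentiableAt
  · exact (h.succ (m + 1) (by omega) z hz).differentiableAt

omit [DecidableEq ι] in
theorem PolySys.an {V : Set ℂ} (hV : IsOpen V) {P : ℕ → ℂ → ℂ} (h : PolySys V P) (m : ℕ) {z : ℂ} (hz : z ∈ V) :
    AnalyticAt ℂ (P m) z :=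
  Complex.analyticAt_iff_eventually_differentiableAt.2 (by
    filter_upwards [hV.mem_nhds hz] with s hs
    exact h.diff m hs)

omit [DecidableEq ι] in
theorem ja_pts {U : ι → Set ℂ} (hU : ∀ i, IsOpen (U i)) {Li : ι → ℕ → ℂ → ℂ}
    (hLi : ∀ i, PolySys (U i) (Li i)) (i : ι) (m : ℕ) (x : (ι → ℂ) × ℂ) (hx : x.1 i + x.2 ∈ U i) :
    JA (fun (s : ι → ℂ) t => Li i m (s i + t)) x := by
  have hc : Continuous fun y : (ι → ℂ) × ℂ => y.1 i + y.2 := ((continuous_apply i).comp continuous_fst).add continuous_snd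
  filter_upwards [hc.continuousAt.eventually_mem ((hU i).mem_nhds hx)] with y hy
  refine ⟨?_, ?_⟩
  · exact ContinuousAt.comp (g := Li i m) (f := fun y : (ι → ℂ) × ℂ => y.1 i + y.2)
      ((hLi i).diff m hy).continuousAt hc.continuousAt
  · exact AnalyticAt.comp (g := Li i m) (f := fun t : ℂ => y.1 i + t) ((hLi i).an (hU i) m hy)
      (analyticAt_const.add analyticAt_id)

end Pool.Agent.Y900.CJ
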