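import Pool.Agent.Y900.CJ.Pts
import Pool.Agent.Y900.PV.Loc

/-!
# Rational polynomials in polylogarithms at simultaneously shifted points
-/

set_option autoImplicit false

open Filter Set
open scoped Topology

namespace Pool.Agent.Y900.CJ

open Pool.Agent.Y900.HY (common_den)
open Pool.Agent.Y900.PV (JA LinP linP unif_inj)

/-- extension of scalars for independent rational polynomials -/
theorem ext_poly {κ Ω : Type} [Fintype Ω] {Q : Ω → MvPolynomial κ ℚ} (hQ : LinearIndependent ℚ Q) (a : Ω → ℂ)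
    (h : ∀ e, ∑ w, a w * (((Q w).coeff e : ℚ) : ℂ) = 0) : a = 0 := by
  funext i
  rw [Pi.zero_apply, ← Module.forall_dual_apply_eq_zero_iff ℚ (a i)]
  intro φ
  have h1 : ∑ i, φ (a i) • Q i = 0 := by
    ext e
    have h2 := congrArg φ (h e)
    rw [map_sum, map_zero] at h2
    rw [MvPolynomial.coeff_sum, MvPolynomial.coeff_zero, ← h2]
    refine Finset.sum_congr rfl fun i _ => ?_
    rw [MvPolynomial.coeff_smul, smul_eq_mul]
    have h4 : a i * (((Q i).coeff e : ℚ) : ℂ) = ((Q i).coeff e : ℚ) • a i := by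
      rw [Rat.smul_def, mul_comm]
    rw [h4, map_smul, smul_eq_mul, mul_comm]
  exact Fintype.linearIndependent_iff.1 hQ (fun i => φ (a i)) h1 i

section

variable {κ : Type} [Fintype κ] [DecidableEq κ]

/-- the exponent of a function to `Fin (W + 1)` -/
noncomputable def toE {W : ℕ} (x : κ → Fin (W + 1)) : κ →₀ ℕ := Finsupp.equivFunOnFinite.symm fun q => (x q : ℕ)

omit [DecidableEq κ] in
theorem toE_inj {W : ℕ} : Function.Injective (toE : (κ → Fin (W + 1)) → (κ →₀ ℕ)) := by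
  intro x y h
  funext q
  exact Fin.ext (DFunLike.congr_fun h q)

theorem aeval_toE {W : ℕ} (Q : MvPolynomial κ ℚ) (hW : Q.totalDegree ≤ W) (f : κ → ℂ) :
    MvPolynomial.aeval f Q = ∑ x : κ → Fin (W + 1), (((Q.coeff (toE x) : ℚ) : ℂ)) * ∏ q, f q ^ (x q : ℕ) := by
  classical
  have h1 : MvPolynomial.aeval f Q = ∑ e ∈ Q.support, ((Q.coeff e : ℚ) : ℂ) * ∏ q, f q ^ (e q) := by
    rw [MvPolynomial.aeval_def, MvPolynomial.eval₂_eq']
    refine Finset.sum_congr rfl fun e _ => ?_
    rw [eq_ratCast]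
  have h2 : Q.support ⊆ (Finset.univ : Finset (κ → Fin (W + 1))).image toE := by
    intro e he
    have h3 : ∀ q, e q ≤ W := by
      intro q
      have h4 : e q ≤ e.sum fun _ k => k := by
        by_cases hq : q ∈ e.support
        · exact Finset.single_le_sum (f := fun q => e q) (fun _ _ => Nat.zero_le _) hq
        · rw [Finsupp.notMem_support_iff.1 hq]
          exact Nat.zero_le _
      exact h4.trans ((MvPolynomial.le_totalDegree he).trans hW)
    rw [Finset.mem_image]
    refine ⟨fun q => ⟨e q, Nat.lt_succ_of_le (h3 q)⟩, Finset.mem_univ _, ?_⟩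
    ext q
    rfl
  rw [h1, Finset.sum_subset h2 (fun e _ he => by rw [MvPolynomial.notMem_support_iff.1 he, Rat.cast_zero, zero_mul]),
    Finset.sum_image (fun x _ y _ hxy => toE_inj hxy)]
  rfl

end

variable {ι : Type} [Fintype ι] [DecidableEq ι] {n : ℕ}

theorem linP_poly (g : ℕ) (hn : 1 ≤ n) {U : ι → Set ℂ} (hU : ∀ i, IsOpen (U i)) {Li : ι → ℕ → ℂ → ℂ}
    (hLi : ∀ i, PolySys (U i) (Li i)) {L : Set ((ι → ℂ) × ℂ)} (hL : IsCompact L)
    (hLU : ∀ x ∈ L, (fun i => x.1 i + x.2) ∈ Reg U) {Ω : Type} [Fintype Ω]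
    {Q : Ω → MvPolynomial (ι × Fin (n + 1)) ℚ} (hQ : LinearIndependent ℚ Q) :
    LinP g L fun w s t => MvPolynomial.aeval (fun q : ι × Fin (n + 1) => Li q.1 q.2 (s q.1 + t)) (Q w) := by
  classical
  set W : ℕ := Finset.univ.sup fun w => (Q w).totalDegree with hW
  have hWw : ∀ w, (Q w).totalDegree ≤ W := fun w =>
    Finset.le_sup (f := fun w => (Q w).totalDegree) (Finset.mem_univ w)
  obtain ⟨N, nb, hN, hnb⟩ := common_den (fun (w : Ω) (x : ι × Fin (n + 1) → Fin (W + 1)) => (Q w).coeff (toE x))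
  have hN0 : (N : ℂ) ≠ 0 := by exact_mod_cast hN.ne'
  have hnb' : ∀ w x, ((nb w x : ℤ) : ℂ) = (N : ℂ) * (((Q w).coeff (toE x) : ℚ) : ℂ) := by
    intro w x
    have h3 : (((nb w x : ℤ) : ℚ) : ℂ) = (((N : ℚ) * (Q w).coeff (toE x) : ℚ) : ℂ) := by rw [hnb w x]
    push_cast at h3
    exact h3
  -- injectivity
  have hinj : ∀ a : Ω → ℂ, (∀ x, ∑ w, a w * ((nb w x : ℤ) : ℂ) = 0) → a = 0 := by
    intro a ha
    refine ext_poly hQ a fun e => ?_
    by_cases he : ∃ x : ι × Fin (n + 1) → Fin (W + 1), toE x = e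
    · obtain ⟨x, rfl⟩ := he
      apply mul_left_cancel₀ hN0
      rw [mul_zero, ← ha x, Finset.mul_sum]
      refine Finset.sum_congr rfl fun w _ => ?_
      rw [hnb']
      ring
    · refine Finset.sum_eq_zero fun w _ => ?_
      have h1 : (Q w).coeff e = 0 := by
        by_contra hne
        have h3 : ∀ q, e q ≤ W := by
          intro q
          have h4 : e q ≤ e.sum fun _ k => k := by
            by_cases hq : q ∈ e.support
            · exact Finset.single_le_sum (f := fun q => e q) (fun _ _ => Nat.zero_le _) hq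
            · rw [Finsupp.notMem_support_iff.1 hq]
              exact Nat.zero_le _
          exact h4.trans ((MvPolynomial.le_totalDegree (MvPolynomial.mem_support_iff.2 hne)).trans (hWw w))
        exact he ⟨fun q => ⟨e q, Nat.lt_succ_of_le (h3 q)⟩, by ext q; rfl⟩
      rw [h1, Rat.cast_zero, mul_zero]
  obtain ⟨Γ, hΓ0, hΓ⟩ := unif_inj (P₀ := Unit) isCompact_univ
    (fun _ (w : Ω) (x : ι × Fin (n + 1) → Fin (W + 1)) => ((nb w x : ℤ) : ℂ))
    (fun w x => continuousOn_const) (fun _ _ a ha => hinj a ha)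
  refine linP g (fun (q : ι × Fin (n + 1)) (s : ι → ℂ) t => Li q.1 q.2 (s q.1 + t)) L hL ?_ ?_ _
    (fun (_ : Unit) _ => 1) W (fun w _ x => nb w x) N ?_ Γ hΓ0 ?_
  · intro q x hx
    exact ja_pts hU hLi q.1 q.2 x ((hLU x hx).1 q.1).1
  · intro x hx
    exact locInd_pts hn hU hLi x.1 x.2 (hLU x hx)
  · intro w x hx
    rw [aeval_toE (Q w) (hWw w), Finset.mul_sum]
    refine Finset.sum_congr rfl fun e _ => ?_
    have h1 : (∑ _r : Unit, (1 : ℂ) * ((nb w e : ℤ) : ℂ)) = ((nb w e : ℤ) : ℂ) := by simp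
    rw [h1, hnb', mul_assoc]
  · intro x hx a M hM w
    refine hΓ () (mem_univ _) a M (fun e => ?_) w
    have h1 := hM e
    simpa using h1

end Pool.Agent.Y900.CJ
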