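import Pool.Agent.Y900.CJ.LiC
import Pool.Agent.Y900.CJ.Rat

/-!
# Single-valued polylogarithms as rational polynomials in branches of polylogarithms
-/

set_option autoImplicit false

open Filter Set
open scoped Topology ComplexConjugate Nat

namespace Pool.Agent.Y900.CJ

/-- the coefficients `2^k B_k / k!` -/
noncomputable def be (k : ℕ) : ℚ := 2 ^ k * bernoulli k / (k ! : ℚ)

theorem be_zero : be 0 = 1 := by
  simp [be]

/-- the combination of polylogarithms, for `|z| < 1` -/
noncomputable def SL (n : ℕ) (z : ℂ) : ℂ := ∑ k ∈ Finset.range n, ((be k : ℚ) : ℂ) * (Real.log ‖z‖ : ℂ) ^ k * Li (n - k) z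

/-- the real or imaginary part -/
noncomputable def Rn (n : ℕ) (x : ℂ) : ℝ := if Even n then x.im else x.re

/-- the single-valued polylogarithm -/
noncomputable def LL (n : ℕ) (z : ℂ) : ℝ := if ‖z‖ < 1 then Rn n (SL n z) else (-1) ^ (n - 1) * Rn n (SL n z⁻¹)

section poly

variable {ι : Type} {n : ℕ}

/-- the variables -/
noncomputable def xv (n : ℕ) (i : ι) (m : ℕ) : MvPolynomial (ι × Fin (n + 1)) ℚ :=
  if h : m < n + 1 then MvPolynomial.X (i, ⟨m, h⟩) else 0

/-- the polylogarithm, respectively the polylogarithm of the inverse -/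
noncomputable def rr (n : ℕ) (o : ι → Bool) (i : ι) (m : ℕ) : MvPolynomial (ι × Fin (n + 1)) ℚ :=
  xv n i m + if o i then MvPolynomial.C (1 / (m ! : ℚ)) * xv n i 0 ^ m else 0

/-- the polynomial of the single-valued polylogarithm -/
noncomputable def pa (n : ℕ) (o : ι → Bool) (cj : ι → ι) (i : ι) (k : ℕ) : MvPolynomial (ι × Fin (n + 1)) ℚ :=
  MvPolynomial.C (1 / 2) * ∑ l ∈ Finset.range k, MvPolynomial.C (be l) *
    (MvPolynomial.C (1 / 2) * (xv n i 0 + xv n (cj i) 0)) ^ l *
      (rr n o i (k - l) + MvPolynomial.C ((-1) ^ (k + 1)) * rr n o (cj i) (k - l))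

variable [DecidableEq ι]

/-- the specialisation -/
noncomputable def sp {q : ℕ} (n : ℕ) (pl : Fin q → ι) (wt : Fin q → ℕ) :
    MvPolynomial (ι × Fin (n + 1)) ℚ →ₐ[ℚ] MvPolynomial (Fin q) ℚ :=
  MvPolynomial.aeval fun s : ι × Fin (n + 1) => if (s.2 : ℕ) = 0 then 0 else
    ∑ b, if pl b = s.1 ∧ wt b = s.2 then MvPolynomial.X b else 0

variable {q : ℕ} {pl : Fin q → ι} {wt : Fin q → ℕ}

theorem sp_xv0 (i : ι) : sp n pl wt (xv n i 0) = 0 := by
  rw [xv, dif_pos (Nat.succ_pos n), sp, MvPolynomial.aeval_X, if_pos rfl]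

theorem sp_xv (i : ι) (m : ℕ) (hm : 1 ≤ m) (hmn : m ≤ n) : sp n pl wt (xv n i m) =
    ∑ b, if pl b = i ∧ wt b = m then MvPolynomial.X b else 0 := by
  rw [xv, dif_pos (by omega), sp, MvPolynomial.aeval_X, if_neg (by show ¬ (m = 0); omega)]

theorem sp_rr (o : ι → Bool) (i : ι) (m : ℕ) (hm : 1 ≤ m) (hmn : m ≤ n) : sp n pl wt (rr n o i m) =
    ∑ b, if pl b = i ∧ wt b = m then MvPolynomial.X b else 0 := by
  rw [rr, map_add, sp_xv i m hm hmn]
  have h1 : sp n pl wt (if o i then MvPolynomial.C (1 / (m ! : ℚ)) * xv n i 0 ^ m else 0) = 0 := by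
    split_ifs
    · rw [map_mul, map_pow, sp_xv0, zero_pow (by omega), mul_zero]
    · exact map_zero _
  rw [h1, add_zero]

theorem sp_C (c : ℚ) : sp n pl wt (MvPolynomial.C c) = MvPolynomial.C c := by
  rw [sp, MvPolynomial.aeval_C]
  rfl

theorem sp_pa (o : ι → Bool) (cj : ι → ι) (hw : ∀ a, 1 ≤ wt a ∧ wt a ≤ n)
    (hinj : ∀ a b, pl a = pl b → wt a = wt b → a = b)
    (hcj : ∀ a b, cj (pl a) = pl b → wt a = wt b → a = b ∧ Odd (wt a)) (a : Fin q) :
    ∃ κ : ℚ, κ ≠ 0 ∧ sp n pl wt (pa n o cj (pl a) (wt a)) = MvPolynomial.C κ * MvPolynomial.X a := by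
  have h1 : sp n pl wt (pa n o cj (pl a) (wt a)) = MvPolynomial.C (1 / 2) *
      (sp n pl wt (rr n o (pl a) (wt a)) + MvPolynomial.C ((-1) ^ (wt a + 1)) *
        sp n pl wt (rr n o (cj (pl a)) (wt a))) := by
    rw [pa, map_mul, sp_C, map_sum]
    congr 1
    rw [Finset.sum_eq_single 0]
    · rw [map_mul, map_mul, map_pow, pow_zero, mul_one, sp_C, be_zero, map_one, one_mul, Nat.sub_zero, map_add, map_mul,
        sp_C]
    · intro l _ hl
      rw [map_mul, map_mul, map_pow, map_mul, map_add, sp_xv0, sp_xv0, add_zero, mul_zero, zero_pow hl, mul_zero,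
        zero_mul]
    · intro h
      exfalso
      apply h
      rw [Finset.mem_range]
      exact (hw a).1
  rw [h1, sp_rr o _ _ (hw a).1 (hw a).2, sp_rr o _ _ (hw a).1 (hw a).2]
  have h2 : (∑ b, if pl b = pl a ∧ wt b = wt a then (MvPolynomial.X b : MvPolynomial (Fin q) ℚ) else 0) =
      MvPolynomial.X a := by
    rw [Finset.sum_eq_single a]
    · rw [if_pos ⟨rfl, rfl⟩]
    · intro b _ hb
      rw [if_neg]
      rintro ⟨e1, e2⟩
      exact hb (hinj b a e1 e2)
    · intro h
      exact absurd (Finset.mem_univ _) h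
  rw [h2]
  by_cases hreal : cj (pl a) = pl a
  · have hodd := (hcj a a hreal rfl).2
    rw [hreal, h2]
    have h3 : ((-1 : ℚ)) ^ (wt a + 1) = 1 := (Odd.add_one hodd).neg_one_pow
    refine ⟨1, one_ne_zero, ?_⟩
    rw [h3, map_one, one_mul, ← two_mul, ← mul_assoc]
    have h4 : (2 : MvPolynomial (Fin q) ℚ) = MvPolynomial.C 2 := by
      rw [map_ofNat]
    rw [h4, ← map_mul]
    norm_num
  · have h3 : (∑ b, if pl b = cj (pl a) ∧ wt b = wt a then (MvPolynomial.X b : MvPolynomial (Fin q) ℚ) else 0) = 0 := by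
      refine Finset.sum_eq_zero fun b _ => ?_
      rw [if_neg]
      rintro ⟨e1, e2⟩
      have := (hcj a b e1.symm e2.symm).1
      subst this
      exact hreal e1.symm
    refine ⟨1 / 2, by norm_num, ?_⟩
    rw [h3, mul_zero, add_zero]

/-- the polynomials are algebraically independent -/
theorem zag_indep (o : ι → Bool) (cj : ι → ι) (hw : ∀ a, 1 ≤ wt a ∧ wt a ≤ n)
    (hinj : ∀ a b, pl a = pl b → wt a = wt b → a = b)
    (hcj : ∀ a b, cj (pl a) = pl b → wt a = wt b → a = b ∧ Odd (wt a)) (dg : ℕ) :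
    LinearIndependent ℚ fun w : Fin q → Fin (dg + 1) => ∏ a, pa n o cj (pl a) (wt a) ^ (w a : ℕ) := by
  classical
  choose κ hκ0 hκ using sp_pa (n := n) o cj hw hinj hcj
  rw [Fintype.linearIndependent_iff]
  intro g hg w
  have h1 := congrArg (sp n pl wt) hg
  rw [map_sum, map_zero] at h1
  have h2 : ∀ w : Fin q → Fin (dg + 1), sp n pl wt (g w • ∏ a, pa n o cj (pl a) (wt a) ^ (w a : ℕ)) =
      MvPolynomial.monomial (toE w) (g w * ∏ a, κ a ^ (w a : ℕ)) := by
    intro w
    rw [map_smul, map_prod]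
    have h3 : ∏ a, sp n pl wt (pa n o cj (pl a) (wt a) ^ (w a : ℕ)) =
        MvPolynomial.monomial (toE w) (∏ a, κ a ^ (w a : ℕ)) := by
      rw [MvPolynomial.monomial_eq, map_prod, Finsupp.prod_fintype _ _ (fun i => pow_zero _), ← Finset.prod_mul_distrib]
      refine Finset.prod_congr rfl fun a _ => ?_
      rw [map_pow, hκ, mul_pow, map_pow]
      rfl
    rw [h3, MvPolynomial.smul_monomial, smul_eq_mul]
  rw [Finset.sum_congr rfl fun w _ => h2 w] at h1
  have h4 := congrArg (MvPolynomial.coeff (toE w)) h1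
  rw [MvPolynomial.coeff_sum, MvPolynomial.coeff_zero, Finset.sum_eq_single w] at h4
  · rw [MvPolynomial.coeff_monomial, if_pos rfl] at h4
    rcases mul_eq_zero.1 h4 with h5 | h5
    · exact h5
    · exact absurd h5 (Finset.prod_ne_zero_iff.2 fun a _ => pow_ne_zero _ (hκ0 a))
  · intro w' _ hne
    rw [MvPolynomial.coeff_monomial, if_neg fun h => hne (toE_inj h)]
  · intro h
    exact absurd (Finset.mem_univ _) h

end poly

/-- the outer index function of a centre -/
noncomputable def oo {ι : Type} (c : ι → ℂ) (i : ι) : Bool := decide (¬ ‖c i‖ < 1)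

/-- evaluation of the polynomials -/
theorem pa_eval {ι : Type} {n : ℕ} (cj : ι → ι) {z c : ι → ℂ} (hc1 : ∀ i, ‖c i‖ ≠ 1) (hz : ∀ i, z i ∈ Uc (c i))
    (hcz : ∀ i, z (cj i) = conj (z i)) (hcc : ∀ i, c (cj i) = conj (c i)) (i : ι) (k : ℕ) (hkn : k ≤ n) :
    MvPolynomial.aeval (fun s : ι × Fin (n + 1) => Pc (c s.1) s.2 (z s.1)) (pa n (oo c) cj i k) =
      (if Even k then Complex.I else 1) * (LL k (z i) : ℂ) := by
  classical
  set ev := MvPolynomial.aeval (R := ℚ) (fun s : ι × Fin (n + 1) => Pc (c s.1) s.2 (z s.1)) with hev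
  have hx : ∀ (i : ι) (m : ℕ), m ≤ n → ev (xv n i m) = Pc (c i) m (z i) := by
    intro i m hm
    rw [xv, dif_pos (by omega), hev, MvPolynomial.aeval_X]
  have hC : ∀ r : ℚ, ev (MvPolynomial.C r) = (r : ℂ) := by
    intro r
    rw [hev, MvPolynomial.aeval_C]
    exact eq_ratCast _ _
  -- the polylogarithm or the polylogarithm of the inverse
  let Λ : ℕ → ι → ℂ := fun m i => if ‖c i‖ < 1 then Li m (z i) else (-1) ^ (m - 1) * Li m (z i)⁻¹
  have hrr : ∀ (i : ι) (m : ℕ), 1 ≤ m → m ≤ n → ev (rr n (oo c) i m) = Λ m i := by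
    intro i m h1 hm
    rw [rr, map_add, hx i m hm]
    by_cases hin : ‖c i‖ < 1
    · have h2 : oo c i = false := decide_eq_false (by rwa [not_not])
      rw [h2, if_neg (by decide), map_zero, add_zero, Pc, if_neg (by omega), if_pos hin]
      simp only [Λ]
      rw [if_pos hin]
    · have h2 : oo c i = true := decide_eq_true hin
      rw [h2, if_pos rfl, map_mul, hC, map_pow, hx i 0 (Nat.zero_le _), Pc, if_neg (by omega), if_neg hin, Pc, if_pos rfl]
      simp only [Λ]
      rw [if_neg hin]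
      push_cast
      ring
  have hΛc : ∀ m i, Λ m (cj i) = conj (Λ m i) := by
    intro m i
    simp only [Λ]
    rw [hcc i, RCLike.norm_conj, hcz i]
    split_ifs
    · exact li_conj m _
    · rw [← map_inv₀, li_conj]
      simp
  have hlog : ev (MvPolynomial.C (1 / 2) * (xv n i 0 + xv n (cj i) 0)) = (Real.log ‖z i‖ : ℂ) := by
    rw [map_mul, map_add, hC, hx i 0 (Nat.zero_le _), hx (cj i) 0 (Nat.zero_le _), Pc, if_pos rfl, Pc, if_pos rfl,
      hcc i, hcz i, P0_conj (hz i), Complex.add_conj, P0_re (hz i)]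
    push_cast
    ring
  -- the sum
  set X : ℂ := ∑ l ∈ Finset.range k, ((be l : ℚ) : ℂ) * (Real.log ‖z i‖ : ℂ) ^ l * Λ (k - l) i with hX
  have hXc : conj X = ∑ l ∈ Finset.range k, ((be l : ℚ) : ℂ) * (Real.log ‖z i‖ : ℂ) ^ l * Λ (k - l) (cj i) := by
    rw [hX, map_sum]
    refine Finset.sum_congr rfl fun l _ => ?_
    rw [map_mul, map_mul, map_pow, Complex.conj_ofReal, hΛc]
    congr 2
    exact map_ratCast _ _
  have hval : ev (pa n (oo c) cj i k) = 1 / 2 * (X + (-1) ^ (k + 1) * conj X) := by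
    have hsum : ∑ l ∈ Finset.range k, ev (MvPolynomial.C (be l) *
        (MvPolynomial.C (1 / 2) * (xv n i 0 + xv n (cj i) 0)) ^ l *
          (rr n (oo c) i (k - l) + MvPolynomial.C ((-1) ^ (k + 1)) * rr n (oo c) (cj i) (k - l))) =
        X + (-1) ^ (k + 1) * conj X := by
      rw [hXc, hX, Finset.mul_sum, ← Finset.sum_add_distrib]
      refine Finset.sum_congr rfl fun l hl => ?_
      have hlk := Finset.mem_range.1 hl
      rw [map_mul, map_mul, map_pow, hlog, hC, map_add, map_mul, hC, hrr i _ (by omega) (by omega),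
        hrr (cj i) _ (by omega) (by omega)]
      push_cast
      ring
    rw [pa, map_mul, hC, map_sum, hsum]
    push_cast
    ring
  -- the single-valued polylogarithm
  have hLL : (LL k (z i) : ℝ) = Rn k X := by
    by_cases hin : ‖c i‖ < 1
    · have hzi := (hz i).2.1 hin
      rw [LL, if_pos hzi]
      congr 1
      rw [hX, SL]
      refine Finset.sum_congr rfl fun l _ => ?_
      simp only [Λ]
      rw [if_pos hin]
    · have hout : 1 < ‖c i‖ := lt_of_le_of_ne (not_lt.1 hin) (Ne.symm (hc1 i))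
      have hzi := (hz i).2.2 hout
      rw [LL, if_neg (not_lt.2 hzi.le)]
      have h1 : X = (-1) ^ (k - 1) * SL k (z i)⁻¹ := by
        rw [hX, SL, Finset.mul_sum]
        refine Finset.sum_congr rfl fun l hl => ?_
        have hlk := Finset.mem_range.1 hl
        simp only [Λ]
        rw [if_neg hin, norm_inv, Real.log_inv]
        push_cast
        rw [neg_pow (Real.log ‖z i‖ : ℂ) l]
        obtain ⟨m, rfl⟩ : ∃ m, k = l + 1 + m := ⟨k - (l + 1), by omega⟩
        have e1 : l + 1 + m - l - 1 = m := by omega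
        have e2 : l + 1 + m - 1 = l + m := by omega
        rw [e1, e2]
        have e3 : (-1 : ℂ) ^ (l + m) * (-1) ^ l = (-1) ^ m := by
          rw [← pow_add]
          have : l + m + l = 2 * l + m := by ring
          rw [this, pow_add, pow_mul]
          norm_num
        calc ((be l : ℚ) : ℂ) * (Real.log ‖z i‖ : ℂ) ^ l * ((-1) ^ m * Li (l + 1 + m - l) (z i)⁻¹)
            = ((be l : ℚ) : ℂ) * (Real.log ‖z i‖ : ℂ) ^ l * (((-1 : ℂ) ^ (l + m) * (-1) ^ l) *
                Li (l + 1 + m - l) (z i)⁻¹) := by rw [e3]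
          _ = _ := by ring
      rw [h1]
      have h2 : ((-1 : ℂ)) ^ (k - 1) = (((-1 : ℝ) ^ (k - 1) : ℝ) : ℂ) := by push_cast; ring
      rw [h2]
      simp only [Rn]
      split_ifs
      · rw [Complex.im_ofReal_mul]
      · rw [Complex.re_ofReal_mul]
  rw [hval, hLL]
  by_cases hk : Even k
  · have h1 : ((-1 : ℂ)) ^ (k + 1) = -1 := (Even.add_one hk).neg_one_pow
    rw [h1, if_pos hk]
    simp only [Rn]
    rw [if_pos hk]
    apply Complex.ext
    · simp
    · simp
      ring
  · have h1 : ((-1 : ℂ)) ^ (k + 1) = 1 := (Odd.add_one (Nat.not_even_iff_odd.1 hk)).neg_one_pow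
    rw [h1, if_neg hk]
    simp only [Rn]
    rw [if_neg hk]
    apply Complex.ext
    · simp
      ring
    · simp

end Pool.Agent.Y900.CJ
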